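import Pool.Agent.NUNC.Lim
import Pool.Agent.NUF.FIN

/-!
# The symmetric sphere partition function and the gas of the cylinder (W8b of zf/WIND)
-/

set_option autoImplicit false

namespace Pool.Agent.NUNC

open Pool.Agent.NUN HexObs HexObs.LP Pool.Agent.NUF
open Filter Topology

theorem ZD_La (n' : ℂ) (k : ℕ) :
    NUG.ZD n' (Sum.inr 0) (Sum.inr 1) (La (2 * k) k) (Lb' (2 * k) k) = ZZ n' k := by
  refine ZD_eq_ZZ (s4 := fun l : Fin 4 => (Sum.inr l : NUF.St (2 * k))) n' ?_ ?_ (Gd_La _ _)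
    Sum.inr_injective ?_
  · unfold La
    rw [List.length_map, List.length_take, List.length_finRange]
    omega
  · unfold Lb'
    rw [List.length_map, List.length_drop, List.length_finRange]
    omega
  · intro l t ht
    have h1 := inr_notMem (2 * k) k l
    exact ⟨fun e => h1.1 (List.mem_map.2 ⟨t, ht, e.symm⟩), fun e => h1.2 (List.mem_map.2 ⟨t, ht, e.symm⟩)⟩

/-- **`ZZ n' k` is the limit of the gas of the cylinder with `2 k` rows.** -/
theorem ZZ_gas (n' : ℂ) {k : ℕ} (hk : 1 ≤ 2 * k) :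
    Tendsto (fun m => GC hk k (xc : ℂ) (n' / 2) (Om (2 * k) m)) atTop (𝓝 (ZZ n' k)) := by
  rw [← ZD_La]
  exact ZD_gas n' hk k

theorem ZZ_gas_real (n' : ℝ) {k : ℕ} (hk : 1 ≤ 2 * k) :
    ∃ z : ℝ, ZZ n' k = z ∧ Tendsto (fun m => GC hk k xc (n' / 2) (Om (2 * k) m)) atTop (𝓝 z) := by
  rw [← ZD_La]
  exact ZD_gas_real n' hk k

/-- **the bound from above.** -/
theorem norm_ZZ_le {n' : ℝ} (hn' : 0 ≤ n') {k : ℕ} (hk : 1 ≤ 2 * k) {B : ℝ}
    (hB : ∀ m : ℕ, GC hk k xc (n' / 2) (Om (2 * k) m) ≤ B) : ‖ZZ n' k‖ ≤ B := by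
  rw [← ZD_La]
  exact norm_ZD_le hn' hk k hB

end Pool.Agent.NUNC
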