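import Pool.Agent.NUNC.RingLe
import Pool.Agent.NUNC.ZZlim
import Pool.Agent.NUF.FINU

/-!
# `WindUp` (doc zf/WIND)

The partition function of the sphere lattice with `4 k` rows is at most a constant times the square of the gas of nested
polygons of a planar parallelogram: `WindUp` of `NUF/FINU`, unconditional.
-/

set_option autoImplicit false

namespace Pool.Agent.NUNC

open HexObs HexObs.LP Pool.Agent.NUN Pool.Agent.NUF Pool.Agent.NUF.Cyl

open Classical in
theorem GC_le : ∃ C : ℝ, 0 < C ∧ ∀ k : ℕ, 1 ≤ k → ∀ (N : ℕ) (hN : 1 ≤ N), N = 4 * k → ∀ A : Finset Pt,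
    GC hN (2 * k) xc (1 : ℝ) A ≤ C * HexObs.LP.NF (2 : ℝ) (HexObs.LP.PP (4 * k) k) f0 ^ 2 := by
  obtain ⟨C, hC, h⟩ := ring_le
  refine ⟨C, hC, ?_⟩
  rintro k hk N hN rfl A
  refine le_trans (le_of_eq ?_) (h k hk hN A)
  unfold GC
  congr 1
  ext E
  rw [mem_odd, Finset.mem_filter, Nm.mem_polys', and_assoc]
  exact Iff.rfl

/-- **The loops that wind round the cylinder cost a constant only.** -/
theorem windUp : Pool.Agent.NUF.WindUp := by
  obtain ⟨C, hC, h⟩ := GC_le
  refine ⟨C, 4, hC, by norm_num, fun k hk => ⟨k, ?_⟩⟩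
  have h1 : 1 ≤ 2 * (2 * k) := by omega
  have h2 := norm_ZZ_le (n' := (2 : ℝ)) zero_le_two (k := 2 * k) h1
    (B := C * HexObs.LP.NF (2 : ℝ) (HexObs.LP.PP (4 * k) k) f0 ^ 2) fun m => by
      rw [div_self two_ne_zero]
      exact h k hk _ h1 (by ring) _
  rwa [Complex.ofReal_ofNat] at h2

end Pool.Agent.NUNC
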