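import Pool.Agent.NUNC.Sort

/-!
# The vertices and edges of the symmetric cylinder (W8b of zf/WIND)
-/

set_option autoImplicit false

namespace Pool.Agent.NUNC

open Pool.Agent.EXL hiding cc
open Pool.Agent.EXL.Pat Pool.Agent.EXL.Net Pool.Agent.NUN HexObs HexObs.LP
open Pool.Agent.NUF.Cyl

variable {N : ℕ}

/-! ### vertices -/

/-- all vertices. -/
def VA (N m : ℕ) : List Pt := VT N m ++ VTl N m

theorem mem_VA {m : ℕ} {v : Pt} : v ∈ VA N m ↔ v ∈ Om N m := by
  unfold VA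
  rw [List.mem_append, mem_VT, mem_VTl, mem_Om]
  constructor
  · rintro (⟨k, hk, i, hi, h⟩ | ⟨k, hk, i, hi, h⟩)
    · exact ⟨k, i, ⟨by omega, by omega⟩, ⟨by omega, by omega⟩, h⟩
    · exact ⟨-(k : ℤ) - 1, i, ⟨by omega, by omega⟩, ⟨by omega, by omega⟩, h.symm⟩
  · rintro ⟨k, i, ⟨h1, h2⟩, ⟨h3, h4⟩, h⟩
    obtain ⟨i, rfl⟩ := Int.eq_ofNat_of_zero_le h3
    by_cases hk : 0 ≤ k
    · obtain ⟨k, rfl⟩ := Int.eq_ofNat_of_zero_le hk
      exact Or.inl ⟨k, by omega, i, by omega, h⟩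
    · obtain ⟨j, hj⟩ := Int.eq_ofNat_of_zero_le (show 0 ≤ -k - 1 by omega)
      have e : k = -(j : ℤ) - 1 := by omega
      subst e
      exact Or.inr ⟨j, by omega, i, by omega, h.symm⟩

theorem nodup_VTl (N m : ℕ) : (VTl N m).Nodup := by
  induction m with
  | zero => exact List.nodup_nil
  | succ m ih =>
    show (VLl N _ ++ VTl N m).Nodup
    rw [List.nodup_append]
    refine ⟨?_, ih, ?_⟩
    · unfold VLl
      rw [List.nodup_flatMap]
      refine ⟨fun i _ => ?_, ?_⟩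
      · simp only [List.nodup_cons, List.mem_singleton, List.not_mem_nil, not_false_eq_true, List.nodup_nil, and_true]
        exact fun e => A_ne_B _ _ _ _ e.symm
      · rw [List.pairwise_reverse]
        refine List.pairwise_lt_range.imp fun {a b} hab => ?_
        intro v h1 h2
        simp only [List.mem_cons, List.not_mem_nil, or_false] at h1 h2
        rcases h1 with rfl | rfl <;> rcases h2 with h2 | h2
        · rw [B_inj] at h2
          omega
        · exact A_ne_B _ _ _ _ h2.symm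
        · exact A_ne_B _ _ _ _ h2
        · rw [A_inj] at h2
          omega
    · intro v h1 w h2 h3
      subst h3
      rw [mem_VLl] at h1
      rw [mem_VTl] at h2
      obtain ⟨i, hi, h1⟩ := h1
      obtain ⟨k, hk, i', hi', h2⟩ := h2
      rcases h1 with rfl | rfl <;> rcases h2 with h2 | h2
      · rw [B_inj] at h2
        omega
      · exact A_ne_B _ _ _ _ h2.symm
      · exact A_ne_B _ _ _ _ h2
      · rw [A_inj] at h2
        omega

theorem nodup_VA (N m : ℕ) : (VA N m).Nodup := by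
  unfold VA
  rw [List.nodup_append]
  refine ⟨nodup_VT N m, nodup_VTl N m, ?_⟩
  intro v h1 w h2 h3
  subst h3
  rw [mem_VT] at h1
  rw [mem_VTl] at h2
  obtain ⟨k, hk, i, hi, h1⟩ := h1
  obtain ⟨k', hk', i', hi', h2⟩ := h2
  rcases h1 with rfl | rfl <;> rcases h2 with h2 | h2
  · exact A_ne_B _ _ _ _ h2
  · rw [A_inj] at h2
    omega
  · rw [B_inj] at h2
    omega
  · exact A_ne_B _ _ _ _ h2.symm

theorem VA_Om (N m : ℕ) : (VA N m).toFinset = Om N m := by
  ext v
  rw [List.mem_toFinset, mem_VA]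

theorem nm_Om (hN : 1 ≤ N) {m : ℕ} {v : Pt} (h : v ∈ Om N m) : (Cy N hN).nm v = v := by
  obtain ⟨k, i, -, ⟨h3, h4⟩, rfl | rfl⟩ := mem_Om.1 h
  · exact nm_A hN _ h3 h4
  · exact nm_B hN _ h3 h4

/-! ### edges -/

/-- all contractions. -/
def HA (N m : ℕ) : List (Pt × Pt) := HT N m ++ HTl N m ++ HLeft N

theorem De_HLl (hN : 1 ≤ N) {k : ℤ} {h : Pt × Pt} (hh : h ∈ HLl N k) : (Cy N hN).De h := by
  refine ⟨?_, nm_HLl hN hh⟩
  rw [mem_HLl] at hh
  obtain ⟨i, hi, rfl | rfl | rfl⟩ := hh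
  · have h1 := Tot.De_rv' (Tot.De_A' k ((i : ℤ) + 1)).1
    unfold rv at h1
    simp only [_root_.EXL.A_down, add_sub_cancel_right] at h1
    exact h1
  · exact (Tot.De_A' k i).2.1
  · have h1 := Tot.De_rv' (Tot.De_A' k i).2.2
    unfold rv at h1
    simp only [_root_.EXL.A_right] at h1
    exact h1

theorem dir_HTl {m : ℕ} {h : Pt × Pt} (hh : h ∈ HTl N m) : h.2 = (0, 1) ∨ h.2 = (-1, 1) ∨ h.2 = (-1, 0) := by
  rw [mem_HTl] at hh
  obtain ⟨k, -, hh⟩ := hh
  rw [mem_HLl] at hh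
  obtain ⟨i, -, rfl | rfl | rfl⟩ := hh
  · exact Or.inl rfl
  · exact Or.inr (Or.inl rfl)
  · exact Or.inr (Or.inr rfl)

theorem nodup_HLl (N : ℕ) (k : ℤ) : (HLl N k).Nodup := by
  unfold HLl
  rw [List.nodup_flatMap]
  refine ⟨fun i _ => ?_, ?_⟩
  · simp only [List.nodup_cons, List.mem_cons, List.not_mem_nil, or_false, not_false_eq_true, List.nodup_nil,
      and_true, not_or, Prod.mk.injEq, not_and]
    refine ⟨⟨fun h => absurd h.symm (A_ne_B _ _ _ _), fun _ h => ?_⟩, fun h => absurd h (A_ne_B _ _ _ _)⟩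
    simp at h
  · rw [List.pairwise_reverse]
    refine List.pairwise_lt_range.imp fun {a b} hab => ?_
    intro v h1 h2
    simp only [List.mem_cons, List.not_mem_nil, or_false] at h1 h2
    rcases h1 with rfl | rfl | rfl <;> rcases h2 with h2 | h2 | h2
    · have h3 := B_inj.1 (congrArg Prod.fst h2)
      omega
    · exact A_ne_B _ _ _ _ (congrArg Prod.fst h2).symm
    · have h3 := B_inj.1 (congrArg Prod.fst h2)
      omega
    · exact A_ne_B _ _ _ _ (congrArg Prod.fst h2)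
    · have h3 := A_inj.1 (congrArg Prod.fst h2)
      omega
    · exact A_ne_B _ _ _ _ (congrArg Prod.fst h2)
    · have h3 := B_inj.1 (congrArg Prod.fst h2)
      omega
    · exact A_ne_B _ _ _ _ (congrArg Prod.fst h2).symm
    · have h3 := B_inj.1 (congrArg Prod.fst h2)
      omega

theorem nodup_HTl (N m : ℕ) : (HTl N m).Nodup := by
  induction m with
  | zero => exact List.nodup_nil
  | succ m ih =>
    show (HLl N _ ++ HTl N m).Nodup
    rw [List.nodup_append]
    refine ⟨nodup_HLl N _, ih, ?_⟩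
    intro v h1 w h2 h3
    subst h3
    rw [mem_HTl] at h2
    obtain ⟨k, hk, h2⟩ := h2
    rw [mem_HLl] at h1 h2
    obtain ⟨i, hi, h1⟩ := h1
    obtain ⟨i', hi', h2⟩ := h2
    rcases h1 with rfl | rfl | rfl <;> rcases h2 with h2 | h2 | h2
    · have h3 := B_inj.1 (congrArg Prod.fst h2)
      omega
    · exact A_ne_B _ _ _ _ (congrArg Prod.fst h2).symm
    · have h3 := B_inj.1 (congrArg Prod.fst h2)
      omega
    · exact A_ne_B _ _ _ _ (congrArg Prod.fst h2)
    · have h3 := A_inj.1 (congrArg Prod.fst h2)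
      omega
    · exact A_ne_B _ _ _ _ (congrArg Prod.fst h2)
    · have h3 := B_inj.1 (congrArg Prod.fst h2)
      omega
    · exact A_ne_B _ _ _ _ (congrArg Prod.fst h2).symm
    · have h3 := B_inj.1 (congrArg Prod.fst h2)
      omega

theorem nodup_ed_l (hN : 1 ≤ N) (m : ℕ) : ((HTl N m).map (Cy N hN).ed).Nodup := by
  refine List.Nodup.map_on ?_ (nodup_HTl N m)
  intro h hh k hk e
  rw [Nm.ed_eq (nm_HTl hN hk)] at e
  rcases e with e | e
  · exact e
  · exfalso
    have h1 : h.2 = -k.2 := congrArg Prod.snd e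
    rcases dir_HTl hh with h2 | h2 | h2 <;> rcases dir_HTl hk with h3 | h3 | h3 <;>
      rw [h2, h3] at h1 <;> exact absurd h1 (by decide)

theorem nodup_ed_all (hN : 1 ≤ N) (m : ℕ) : ((HA N m).map (Cy N hN).ed).Nodup := by
  have hp : (HA N m).Perm (HAll N m ++ HTl N m) := by
    unfold HA HAll
    rw [List.append_assoc, List.append_assoc]
    exact List.Perm.append_left _ List.perm_append_comm
  rw [(hp.map _).nodup_iff, List.map_append, List.nodup_append]
  refine ⟨nodup_ed hN, nodup_ed_l hN m, ?_⟩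
  intro a ha b hb hab
  subst hab
  obtain ⟨h, hh, rfl⟩ := List.mem_map.1 ha
  obtain ⟨k, hk, e⟩ := List.mem_map.1 hb
  obtain ⟨kk, ik, hkk, h1⟩ : ∃ (kk i : ℤ), 0 ≤ kk ∧ h.1 = _root_.EXL.A kk i := by
    rw [mem_HAll] at hh
    rcases hh with ⟨k, i, hk, hi, rfl | rfl⟩ | ⟨k, i, hk, hi, rfl⟩
    · exact ⟨k, i, by positivity, rfl⟩
    · exact ⟨k, i, by positivity, rfl⟩
    · exact ⟨k, i, by positivity, rfl⟩
  rw [mem_HTl] at hk
  obtain ⟨j, hj, hk⟩ := hk
  obtain ⟨⟨i, h2⟩, i', h3⟩ := HLl_ends hN hk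
  rw [eq_comm, Nm.ed_eq (nm_HLl hN hk)] at e
  rcases e with e | e
  · rw [e] at h1
    rcases h2 with h2 | h2
    · rw [h2, A_inj] at h1
      omega
    · rw [h2] at h1
      exact A_ne_B _ _ _ _ h1.symm
  · have e1 : h.1 = (Cy N hN).nb k := congrArg Prod.fst e
    rw [h1] at e1
    rcases h3 with h3 | h3
    · rw [h3, A_inj] at e1
      omega
    · rw [h3] at e1
      exact A_ne_B _ _ _ _ e1

/-- all edges. -/
def EA (N m : ℕ) (hN : 1 ≤ N) : Finset (Sym2 Lab) := ((HA N m).map (Cy N hN).ed).toFinset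

theorem mem_EA {m : ℕ} {hN : 1 ≤ N} {e : Sym2 Lab} : e ∈ EA N m hN ↔ ∃ h ∈ HA N m, (Cy N hN).ed h = e := by
  unfold EA
  rw [List.mem_toFinset, List.mem_map]

theorem De_HA (hN : 1 ≤ N) {m : ℕ} {h : Pt × Pt} (hh : h ∈ HA N m) : (Cy N hN).De h := by
  unfold HA at hh
  rcases List.mem_append.1 hh with hh | hh
  · rcases List.mem_append.1 hh with hh | hh
    · exact (HAll_nm (m := m) hN (List.mem_append.2 (Or.inl hh))).2.1
    · rw [mem_HTl] at hh
      obtain ⟨k, -, hh⟩ := hh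
      exact De_HLl hN hh
  · exact (HAll_nm (m := m) hN (List.mem_append.2 (Or.inr hh))).2.1

theorem edg_EA (N m : ℕ) (hN : 1 ≤ N) : (Cy N hN).Edg (EA N m hN) := by
  intro e he
  obtain ⟨h, hh, rfl⟩ := mem_EA.1 he
  exact ⟨h, De_HA hN hh, rfl⟩

/-- the edges at the vertices. -/
theorem ed_mem_EA (hN : 1 ≤ N) (m : ℕ) : ∀ w ∈ Om N m, ∀ d, (Cy N hN).De (w, d) →
    (Cy N hN).ed (w, d) ∈ EA N m hN := by
  intro w hw d hd
  have sub : ∀ e, e ∈ EAll N m hN → e ∈ EA N m hN := by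
    intro e he
    obtain ⟨h, hh, rfl⟩ := mem_EAll.1 he
    refine mem_EA.2 ⟨h, ?_, rfl⟩
    unfold HAll at hh
    unfold HA
    rcases List.mem_append.1 hh with hh | hh
    · exact List.mem_append.2 (Or.inl (List.mem_append.2 (Or.inl hh)))
    · exact List.mem_append.2 (Or.inr hh)
  have left : ∀ (k : ℤ) (h : Pt × Pt), -(m : ℤ) ≤ k → k < 0 → h ∈ HLl N k → (Cy N hN).ed h ∈ EA N m hN := by
    intro k h h1 h2 hh
    obtain ⟨j, hj⟩ := Int.eq_ofNat_of_zero_le (show 0 ≤ -k - 1 by omega)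
    have e : k = -(j : ℤ) - 1 := by omega
    rw [e] at hh
    refine mem_EA.2 ⟨h, ?_, rfl⟩
    unfold HA
    exact List.mem_append.2 (Or.inl (List.mem_append.2 (Or.inr (mem_HTl.2 ⟨j, by omega, hh⟩))))
  obtain ⟨k, i, ⟨h1, h2⟩, ⟨h3, h4⟩, h⟩ := mem_Om.1 hw
  by_cases hk : 0 ≤ k
  · refine sub _ (ed_mem hN w ?_ d hd)
    exact _root_.EXL.mem_par.2 ⟨k, i, ⟨hk, h2⟩, ⟨h3, h4⟩, h⟩
  · have hk : k < 0 := by omega
    obtain ⟨i, rfl⟩ := Int.eq_ofNat_of_zero_le h3
    have hi : i < N := by exact_mod_cast h4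
    rcases h with rfl | rfl
    · rcases Tot.De_A hd.1 with rfl | rfl | rfl
      · by_cases hi0 : i = 0
        · subst hi0
          have e : (Cy N hN).ed (_root_.EXL.A k ((0 : ℕ) : ℤ), (0, -1)) =
              (Cy N hN).ed (_root_.EXL.B k ((N - 1 : ℕ) : ℤ), (0, 1)) := by
            rw [← Nm.ed_rv (C := Cy N hN) hd.2]
            congr 1
            unfold Nm.rv
            have : ((N - 1 : ℕ) : ℤ) = (N : ℤ) - 1 := by omega
            rw [this]
            exact Prod.ext (nb_A_S0 hN k) rfl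
          rw [e]
          exact left k _ h1 hk (mem_HLl.2 ⟨N - 1, by omega, Or.inl rfl⟩)
        · have e : (Cy N hN).ed (_root_.EXL.A k (i : ℤ), (0, -1)) =
              (Cy N hN).ed (_root_.EXL.B k ((i - 1 : ℕ) : ℤ), (0, 1)) := by
            rw [← Nm.ed_rv (C := Cy N hN) hd.2]
            congr 1
            unfold Nm.rv
            have : ((i - 1 : ℕ) : ℤ) = (i : ℤ) - 1 := by omega
            rw [this]
            exact Prod.ext (nb_A_S hN k (by omega) (by omega)) rfl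
          rw [e]
          exact left k _ h1 hk (mem_HLl.2 ⟨i - 1, by omega, Or.inl rfl⟩)
      · exact left k _ h1 hk (mem_HLl.2 ⟨i, hi, Or.inr (Or.inl rfl)⟩)
      · have e : (Cy N hN).ed (_root_.EXL.A k (i : ℤ), (1, 0)) =
            (Cy N hN).ed (_root_.EXL.B k (i : ℤ), (-1, 0)) := by
          rw [← Nm.ed_rv (C := Cy N hN) hd.2]
          congr 1
          unfold Nm.rv
          exact Prod.ext (nb_A_M hN k (by omega) (by omega)) rfl
        rw [e]
        exact left k _ h1 hk (mem_HLl.2 ⟨i, hi, Or.inr (Or.inr rfl)⟩)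
    · rcases Tot.De_B hd.1 with rfl | rfl | rfl
      · exact left k _ h1 hk (mem_HLl.2 ⟨i, hi, Or.inl rfl⟩)
      · have e : (Cy N hN).ed (_root_.EXL.B k (i : ℤ), (1, -1)) =
            (Cy N hN).ed (_root_.EXL.A (k + 1) (i : ℤ), (-1, 1)) := by
          rw [← Nm.ed_rv (C := Cy N hN) hd.2]
          congr 1
          unfold Nm.rv Nm.nb
          simp only [_root_.EXL.B_right]
          exact Prod.ext (nm_A hN _ (by omega) (by omega)) rfl
        rw [e]
        by_cases hk1 : k = -1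
        · subst hk1
          refine mem_EA.2 ⟨(_root_.EXL.A 0 i, (-1, 1)), ?_, rfl⟩
          unfold HA HLeft
          exact List.mem_append.2 (Or.inr (List.mem_map.2 ⟨i, List.mem_range.2 hi, rfl⟩))
        · exact left (k + 1) _ (by omega) (by omega) (mem_HLl.2 ⟨i, hi, Or.inr (Or.inl rfl)⟩)
      · exact left k _ h1 hk (mem_HLl.2 ⟨i, hi, Or.inr (Or.inr rfl)⟩)

end Pool.Agent.NUNC
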