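import Pool.Agent.NUNC.Term

/-!
# The label of the reversed half edge (W8b of zf/WIND)
-/

set_option autoImplicit false

namespace Pool.Agent.NUNC

open Pool.Agent.NUN HexObs HexObs.LP
open Pool.Agent.NUF Pool.Agent.NUF.Cyl

variable {N : ℕ}

/-- the row of a vertex does not change along the edges that cross the line. -/
theorem nm_cross (hN : 1 ≤ N) {r : ℕ} {h : Pt × Pt} (hn : (Cy N hN).nm h.1 = h.1)
    (hc : cr (fc r) h ≠ 0) : (Cy N hN).nm (h.1 + h.2) = h.1 + h.2 := by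
  rw [nm_fix_iff] at hn ⊢
  obtain ⟨v, d⟩ := h
  obtain ⟨x, y⟩ := v
  unfold cr at hc
  simp only at hc hn ⊢
  split_ifs at hc with h1 h2
  · obtain ⟨h1, h3, -⟩ := h1
    subst h1
    simp only [nn, fc, ri, Prod.mk_add_mk] at h3 hn ⊢
    omega
  · obtain ⟨h2, h3, -⟩ := h2
    subst h2
    simp only [nn, fc, ri, Prod.mk_add_mk] at h3 hn ⊢
    omega
  · exact absurd rfl hc

theorem cr_rv_nm (hN : 1 ≤ N) {r : ℕ} {h : Pt × Pt} (hn : (Cy N hN).nm h.1 = h.1) :
    cr (fc r) ((Cy N hN).rv h) = - cr (fc r) h := by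
  by_cases hc : cr (fc r) h = 0
  · rw [hc, neg_zero]
    by_contra h1
    have e1 : (Cy N hN).rv ((Cy N hN).rv h) = h := Nm.rv_rv hn
    have h2 := nm_cross hN (h := (Cy N hN).rv h) (Nm.nm_nb h) h1
    have h3 : cr (fc r) (rv ((Cy N hN).rv h)) = - cr (fc r) ((Cy N hN).rv h) := w_cr_rv _ _
    have h4 : rv ((Cy N hN).rv h) = (Cy N hN).rv ((Cy N hN).rv h) := Prod.ext h2.symm rfl
    rw [h4, e1, hc] at h3
    exact h1 (by omega)
  · have h2 := nm_cross hN hn hc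
    have h4 : rv h = (Cy N hN).rv h := Prod.ext h2.symm rfl
    rw [← h4]
    exact w_cr_rv _ _

theorem labC_anti (hN : 1 ≤ N) (r : ℕ) {h : Pt × Pt} (hn : (Cy N hN).nm h.1 = h.1) :
    labC r ((Cy N hN).rv h) = - labC r h := by
  unfold labC
  rw [cr_rv_nm hN hn]
  push_cast
  rfl

end Pool.Agent.NUNC
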