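import Pool.Agent.NUNC.LiftB
import Pool.Agent.NUN.Fin

/-!
NUNC: the labels of the polygons of the cylinder inside the balls around the two faces (module W8c of doc zf/WIND).
The label of a half edge (with normalised first vertex) is `cr (fc r)` mod 2.
-/

set_option autoImplicit false

namespace Pool.Agent.NUF.Cyl

open HexObs HexObs.LP Pool.Agent.NUN

theorem ri_eq {v : Pt} {a : ℤ} (h1 : 3 * a + 2 ≤ v.1 + 2 * v.2) (h2 : v.1 + 2 * v.2 < 3 * a + 5) : ri v = a := by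
  simp only [ri]
  omega

/-- all signed crossings of the line of the faces `fc r`. -/
def crl (p : Pt × Pt) : ℤ := (if -2 < nn (p.1 + p.2) then 1 else 0) - (if -2 < nn p.1 then 1 else 0)

theorem crl_sum {E : Finset (Pt × Pt)} (hE : LP.IsPoly E) : ∑ p ∈ E, crl p = 0 :=
  w_tele hE (fun v => if -2 < nn v then 1 else 0)

/-- crossings below the face `fc r`. -/
theorem cr_fc {p : Pt × Pt} (hp : LP.De p) (r : ℕ) : cr (fc r) p = if ri p.1 < r then crl p else 0 := by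
  obtain ⟨h1, h2, h3⟩ := hp
  have e2 := w_vt h2
  have e3 := w_vt h3
  obtain ⟨v, d⟩ := p
  obtain ⟨a, b⟩ := v
  simp only [Prod.fst_add, Prod.snd_add] at e2 e3
  have key : ∀ e ∈ dirs, e = (1, 0) ∨ e = (0, 1) ∨ e = (-1, 1) ∨ e = (-1, 0) ∨ e = (0, -1) ∨ e = (1, -1) := by
    decide
  have hr : nn (fc r) = -2 ∧ lv (fc r) = 3 * r + 1 := by
    unfold nn lv fc
    constructor <;> ring
  unfold cr crl
  rw [hr.1, hr.2]
  simp only [nn, lv, ri]
  have k1 : ¬ ((1 : ℤ) = -1) := by decide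
  have k2 : ¬ ((-1 : ℤ) = 1) := by decide
  have k3 : ¬ ((0 : ℤ) = -1) := by decide
  have k4 : ¬ ((0 : ℤ) = 1) := by decide
  rcases key d h1 with h | h | h | h | h | h <;> subst h <;>
    simp only [Prod.mk.injEq, Prod.mk_add_mk, k1, k2, k3, k4, false_and, and_false, if_false, true_and,
      add_zero] at e2 e3 ⊢ <;>
    split_ifs <;> omega

theorem im_cr_top {N : ℕ} (hN : 1 ≤ N) {B : Finset Pt} (hB : Nar N B) (h0 : ∀ v ∈ B, 0 ≤ ri v ∧ ri v < N)
    {E : Finset (Pt × Pt)} (hEB : VE E ⊆ B) (r : ℕ) :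
    ∑ q ∈ im (Cy N hN) E, cr (fc r) q = Nw E (fc r) := by
  rw [im_sum hN hB hEB]
  unfold Nw
  refine Finset.sum_congr rfl fun p hp => ?_
  obtain ⟨h1, h2⟩ := h0 p.1 (hEB (Finset.mem_image_of_mem Prod.fst hp))
  rw [nm_fix hN h1 h2]

theorem im_cr_bot {N : ℕ} (hN : 1 ≤ N) {B : Finset Pt} (hB : Nar N B) {r R : ℕ} (hR : R ≤ r) (hr : r + R ≤ N)
    (h0 : ∀ v ∈ B, -(R : ℤ) ≤ ri v ∧ ri v < R) {E : Finset (Pt × Pt)} (hE : LP.IsPoly E) (hEB : VE E ⊆ B) :
    ∑ q ∈ im (Cy N hN) E, cr (fc r) q = -Nw E (fc 0) := by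
  rw [im_sum hN hB hEB]
  have key : ∀ p ∈ E, cr (fc r) ((Cy N hN).nm p.1, p.2) = crl p - cr (fc 0) p := by
    intro p hp
    have hde : LP.De p := isPoly_de hE hp
    obtain ⟨h1, h2⟩ := h0 p.1 (hEB (Finset.mem_image_of_mem Prod.fst hp))
    rw [cr_fc hde 0]
    by_cases c : 0 ≤ ri p.1
    · rw [nm_fix hN c (by omega), if_neg (by push_cast; omega)]
      show cr (fc r) p = _
      rw [cr_fc hde r, if_pos (by omega), sub_zero]
    · have e1 : (Cy N hN).nm p.1 = tr (-((N : ℤ) * (-1))) p.1 := nm_row hN (-1) (by omega) (by omega)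
      have hde' : LP.De ((Cy N hN).nm p.1, p.2) := by
        refine ⟨hde.1, ?_, ?_⟩
        · have := hde.2.1
          rw [← Nm.vt_nm (C := Cy N hN)] at this
          exact this
        · have := hde.2.2
          rw [← Nm.vt_nm (C := Cy N hN)] at this ⊢
          show Vt ((Cy N hN).nm ((Cy N hN).nm p.1 + p.2))
          rw [(Cy N hN).add]
          exact this
      rw [cr_fc hde' r, if_neg ?_, if_pos (by push_cast; omega), sub_self]
      show ¬ ri ((Cy N hN).nm p.1) < r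
      rw [e1, ri_tr]
      omega
  rw [Finset.sum_congr rfl key, Finset.sum_sub_distrib, crl_sum hE, zero_sub]
  rfl

theorem zmod2_sg {E : Finset (Pt × Pt)} (hE : LP.IsPoly E) {f : Pt} (hf : Fc f) :
    ((Nw E f : ℤ) : ZMod 2) = 0 ↔ Nw E f = 0 := by
  rcases Nw_cases hE hf with h | h
  · rw [h]
    simp
  · rw [h]
    rcases sg_cases E with h3 | h3 <;> rw [h3] <;> decide

/-- label 1 in the ball around `fc r`: the lift surrounds `fc r`. -/
theorem lab_top {N : ℕ} (hN : 1 ≤ N) {B : Finset Pt} (hB : Nar N B) (h0 : ∀ v ∈ B, 0 ≤ ri v ∧ ri v < N)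
    {E : Finset (Pt × Pt)} (hE : LP.IsPoly E) (hEB : VE E ⊆ B) (r : ℕ) :
    (((∑ q ∈ im (Cy N hN) E, cr (fc r) q : ℤ)) : ZMod 2) = 0 ↔ Nw E (fc r) = 0 := by
  rw [im_cr_top hN hB h0 hEB r]
  exact zmod2_sg hE (Fc_fc r)

/-- label 1 in the ball around `fc 0`: the lift surrounds `fc 0`. -/
theorem lab_bot {N : ℕ} (hN : 1 ≤ N) {B : Finset Pt} (hB : Nar N B) {r R : ℕ} (hR : R ≤ r) (hr : r + R ≤ N)
    (h0 : ∀ v ∈ B, -(R : ℤ) ≤ ri v ∧ ri v < R) {E : Finset (Pt × Pt)} (hE : LP.IsPoly E) (hEB : VE E ⊆ B) :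
    (((∑ q ∈ im (Cy N hN) E, cr (fc r) q : ℤ)) : ZMod 2) = 0 ↔ Nw E (fc 0) = 0 := by
  rw [im_cr_bot hN hB hR hr h0 hE hEB, Int.cast_neg, neg_eq_zero]
  exact zmod2_sg hE (Fc_fc 0)

end Pool.Agent.NUF.Cyl
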