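import Pool.Agent.NUN.Front
import Pool.Agent.NUF.Cyl.Bound

/-!
# Evaluation of the rings of the network on fronts (W8b of zf/WIND)

As `NUN/Front`, for rings instead of columns: the auxiliary line is closed up through the site `dd`.
-/

set_option autoImplicit false

namespace Pool.Agent.NUNC

open Pool.Agent.EXL hiding cc
open Pool.Agent.EXL.Pat Pool.Agent.EXL.Net Pool.Agent.NUN
open Pool.Agent.NUF.Cyl (UO PO PL seam UO_apply PO_apply Co_eq_glue glue_congr U_symm glue_symm)

variable {K : Type*} [CommRing K] {N : ℕ}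

/-- the second auxiliary site. -/
abbrev dd : NUF.St N := Sum.inr 1

theorem fr_dd (ka kb : ℕ → ℤ) (o : Bool) (k j : ℤ) : fr N ka kb o k j dd = lX 1 := by simp [fr]

theorem fr_ccf (ka kb : ℕ → ℤ) (k j : ℤ) : fr N ka kb false k j cc = lN k j := by simp [fr]

theorem fr_cct (ka kb : ℕ → ℤ) (k j : ℤ) : fr N ka kb true k j cc = lS k j := by simp [fr]

theorem UO_Fr (ka kb : ℕ → ℤ) (o : Bool) (k j : ℤ) (G : Pat Lab → K) (q : Pat (NUF.St N)) :
    UO (lX 1) (fr N ka kb o k j cc) G (Fr ka kb o k j q) =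
      EXL.U cc dd (fun q => G (Fr ka kb o k j q)) q := by
  rw [UO_apply, U_symm, ← fr_dd (N := N) ka kb o k j]
  exact U_st (femb (fr N ka kb o k j) (fr_inj ka kb o k j)) G q cc dd

theorem Co_Fr (ka kb : ℕ → ℤ) (o : Bool) (k j : ℤ) (G : Pat Lab → K) (q : Pat (NUF.St N)) :
    Co (lX 1) (fr N ka kb o k j cc) G (Fr ka kb o k j q) =
      glue cc dd (fun q => G (Fr ka kb o k j q)) q := by
  rw [Co_eq_glue, glue_symm, ← fr_dd (N := N) ka kb o k j]
  exact glue_st (femb (fr N ka kb o k j) (fr_inj ka kb o k j)) G q cc dd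

/-- a ring of the right part. -/
noncomputable def rRing (x : K) (N : ℕ) (k : ℤ) : Op Lab K :=
  UO (lX 1) (lN k (-1)) * ((List.range N).map (fun i : ℕ => Rho x k (i : ℤ))).prod *
    Co (lX 1) (lN k ((N : ℤ) - 1))

/-- a ring of the left part. -/
noncomputable def lRing (x : K) (N : ℕ) (k : ℤ) : Op Lab K :=
  UO (lX 1) (lS k N) * ((List.range N).reverse.map (fun i : ℕ => lRho x k (i : ℤ))).prod *
    Co (lX 1) (lS k 0)

/-- a ring of the right part. -/
theorem rRing_eq (x : K) (k : ℤ) (kb : ℕ → ℤ) (hkb : ∀ i, i < N → kb i ≠ k) (G : Pat Lab → K)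
    (q : Pat (NUF.St N)) :
    rRing x N k G (Fr (fun _ => k + 1) kb false k (-1) q) =
      NUG.ringF (fun _ => hexW x) cc dd ((List.finRange N).map Xr)
        (fun q => G (Fr (fun _ => k) kb false 0 0 q)) q := by
  unfold rRing
  rw [Module.End.mul_apply, Module.End.mul_apply]
  have h1 := UO_Fr (fun _ => k + 1) kb false k (-1)
    (((List.range N).map (fun i : ℕ => Rho x k (i : ℤ))).prod (Co (lX 1) (lN k ((N : ℤ) - 1)) G)) q
  rw [fr_ccf] at h1
  rw [h1]
  unfold NUG.ringF
  congr 1
  funext q1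
  have h2 := rows_right x k kb hkb (Co (lX 1) (lN k ((N : ℤ) - 1)) G) N 0 (by omega) q1
  rw [List.drop_zero, List.drop_zero] at h2
  have e : Fr (fun n => if n < 0 then k else k + 1) kb false k (((0 : ℕ) : ℤ) - 1) q1 =
      Fr (fun _ => k + 1) kb false k (-1) q1 := by
    have e1 : (fun n : ℕ => if n < 0 then k else k + 1) = fun _ => k + 1 := by
      funext n
      simp
    have e2 : (((0 : ℕ) : ℤ) - 1) = -1 := by norm_num
    rw [e1, e2]
  rw [e] at h2
  rw [h2]
  congr 1
  funext q2
  have h3 := Co_Fr (fun n => if n < N then k else k + 1) kb false k ((N : ℤ) - 1) G q2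
  rw [fr_ccf] at h3
  rw [h3]
  apply congrFun
  apply glue_congr (by simp)
  intro q3 hq3 _
  congr 1
  exact Fr_move hq3 (fun i hi => by simp [hi]) (fun _ _ => rfl)

/-- a ring of the left part. -/
theorem lRing_eq (x : K) (k : ℤ) (ka : ℕ → ℤ) (hka : ∀ i, i < N → ka i ≠ k) (G : Pat Lab → K)
    (q : Pat (NUF.St N)) :
    lRing x N k G (Fr ka (fun _ => k - 1) true k N q) =
      NUG.ringF (fun _ => hexW x) cc dd (((List.finRange N).map Xl).reverse)
        (fun q => G (Fr ka (fun _ => k) false 0 0 q)) q := by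
  unfold lRing
  rw [Module.End.mul_apply, Module.End.mul_apply]
  have h1 := UO_Fr ka (fun _ => k - 1) true k N
    (((List.range N).reverse.map (fun i : ℕ => lRho x k (i : ℤ))).prod (Co (lX 1) (lS k 0) G)) q
  rw [fr_cct] at h1
  rw [h1]
  unfold NUG.ringF
  congr 1
  funext q1
  have h2 := rows_left x k ka hka (Co (lX 1) (lS k 0) G) N le_rfl q1
  have h3 : (List.finRange N).take N = List.finRange N := by
    apply List.take_of_length_le
    rw [List.length_finRange]
  rw [h3] at h2
  have e : Fr ka (fun n => if n < N then k - 1 else k) true k (N : ℤ) q1 =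
      Fr ka (fun _ => k - 1) true k N q1 := by
    unfold Fr
    apply lft_congr
    intro b _
    rcases b with ⟨i, _ | _⟩ | l
    · rfl
    · simp only [fr, i.2, if_true]
    · rfl
  rw [e] at h2
  rw [h2]
  congr 1
  funext q2
  have h4 := Co_Fr ka (fun n => if n < 0 then k - 1 else k) true k 0 G q2
  rw [fr_cct] at h4
  rw [h4]
  apply congrFun
  apply glue_congr (by simp)
  intro q3 hq3 _
  congr 1
  exact Fr_move hq3 (fun _ _ => rfl) (fun i hi => by simp)

/-! ### all rings -/

/-- the right part: the rings `m - 1, .., 0`. -/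
noncomputable def rTot (x : K) (N : ℕ) : ℕ → Op Lab K
  | 0 => 1
  | m + 1 => rRing x N m * rTot x N m

/-- the left part: the rings `-m, .., -1`. -/
noncomputable def lTot (x : K) (N : ℕ) : ℕ → Op Lab K
  | 0 => 1
  | m + 1 => lRing x N (-(m : ℤ) - 1) * lTot x N m

theorem ring_congr {α : Type*} [DecidableEq α] {w : α → Wt K} {c d : α} (hcd : c ≠ d) {X : List α}
    {F F' : Pat α → K} (h : ∀ q : Pat α, q c = c → F q = F' q) :
    NUG.ringF w c d X F = NUG.ringF w c d X F' := by
  unfold NUG.ringF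
  rw [glue_congr hcd fun q hq _ => h q hq]

theorem ringI_congr {α : Type*} [DecidableEq α] {w : α → Wt K} {c d : α} (hcd : c ≠ d) {X : List α}
    {F F' : Pat α → K} (h : ∀ q : Pat α, q c = c → F q = F' q) (m : ℕ) :
    ∀ q : Pat α, q c = c → (NUG.ringF w c d X)^[m] F q = (NUG.ringF w c d X)^[m] F' q := by
  induction m with
  | zero => exact h
  | succ m ih =>
    intro q _
    rw [Function.iterate_succ_apply', Function.iterate_succ_apply', ring_congr hcd ih]

theorem rTot_eq (x : K) (m : ℕ) (kb : ℕ → ℤ) (hkb : ∀ i, kb i < 0) (G : Pat Lab → K) :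
    ∀ q : Pat (NUF.St N), q cc = cc → rTot x N m G (Fr (fun _ => (m : ℤ)) kb false 0 0 q) =
      (NUG.ringF (fun _ => hexW x) cc dd ((List.finRange N).map Xr))^[m]
        (fun q => G (Fr (fun _ => 0) kb false 0 0 q)) q := by
  induction m with
  | zero => intro q _; rfl
  | succ m ih =>
    intro q hq
    have e : Fr (fun _ : ℕ => ((m + 1 : ℕ) : ℤ)) kb false 0 0 q =
        Fr (fun _ => (m : ℤ) + 1) kb false m (-1) q :=
      Fr_move hq (fun _ _ => by push_cast; rfl) (fun _ _ => rfl)
    have e2 : rTot x N (m + 1) = rRing x N m * rTot x N m := rfl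
    rw [e, e2, Module.End.mul_apply, rRing_eq x (m : ℤ) kb (fun i _ => by
      have := hkb i
      omega) _ q, Function.iterate_succ_apply']
    exact congrFun (ring_congr (by simp) ih) q

theorem lTot_eq (x : K) (m : ℕ) (G : Pat Lab → K) :
    ∀ q : Pat (NUF.St N), q cc = cc →
      lTot x N m G (Fr (fun _ => 0) (fun _ => -(m : ℤ) - 1) false 0 0 q) =
      (NUG.ringF (fun _ => hexW x) cc dd (((List.finRange N).map Xl).reverse))^[m]
        (fun q => G (Fr (fun _ => 0) (fun _ => -1) false 0 0 q)) q := by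
  induction m with
  | zero => intro q _; rfl
  | succ m ih =>
    intro q hq
    have e : Fr (fun _ => 0) (fun _ : ℕ => -((m + 1 : ℕ) : ℤ) - 1) false 0 0 q =
        Fr (fun _ => 0) (fun _ => (-(m : ℤ) - 1) - 1) true (-(m : ℤ) - 1) N q :=
      Fr_move hq (fun _ _ => rfl) (fun _ _ => by push_cast; ring)
    have e2 : lTot x N (m + 1) = lRing x N (-(m : ℤ) - 1) * lTot x N m := rfl
    rw [e, e2, Module.End.mul_apply, lRing_eq x (-(m : ℤ) - 1) (fun _ => 0) (fun i _ => by omega) _
      q, Function.iterate_succ_apply']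
    exact congrFun (ring_congr (by simp) ih) q

/-- **The network in ring order.** -/
theorem tot_eq (x : K) (N m : ℕ) (G : Pat Lab → K) :
    (rTot x N m * lTot x N m) G Pat.empty =
      (NUG.ringF (fun _ => hexW x) cc dd ((List.finRange N).map Xr))^[m]
        ((NUG.ringF (fun _ => hexW x) cc dd (((List.finRange N).map Xl).reverse))^[m]
          (fun q => G (Fr (fun _ => 0) (fun _ => -1) false 0 0 q))) Pat.empty := by
  have e0 : (Pat.empty : Pat (NUF.St N)) cc = cc := rfl
  rw [Module.End.mul_apply, ← Fr_empty (N := N) (fun _ => (m : ℤ)) (fun _ => -(m : ℤ) - 1) false 0 0,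
    rTot_eq x m (fun _ => -(m : ℤ) - 1) (fun i => by omega) _ _ e0]
  exact ringI_congr (by simp) (lTot_eq x m G) m _ e0

end Pool.Agent.NUNC
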