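import Pool.Agent.NUNC.Main
import Pool.Agent.NUF.HC.Poly
import Pool.Agent.NUN.NFV
import Pool.Agent.NUF.PRel

/-!
# The gas of disjoint polygons of the cylinder, as a sum over the sets of pairwise disjoint polygons (W8a, helper60)

`GP w L` = the sum over the sets of pairwise disjoint polygons in `L` of the product of the weights `w`.
-/

set_option autoImplicit false

namespace NUHC

open scoped Classical

variable {V : Type*} {inc : V → V → Prop} {R : Type*} [CommSemiring R]

/-- a family of pairwise incompatible elements. -/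
theorem P_star (hs : ∀ a b, inc a b → inc b a) (a : V → R) (L : Finset V) {S : Finset V} (hS : S ⊆ L)
    (h : ∀ l ∈ S, ∀ l' ∈ S, inc l l') :
    P inc a L = P inc a (L \ S) + ∑ l ∈ S, a l * P inc a (cp inc l L) := by
  induction S using Finset.induction_on generalizing L with
  | empty => simp
  | insert l S hl ih =>
    have h1 : l ∈ L := hS (Finset.mem_insert_self _ _)
    have h2 : inc l l := h l (Finset.mem_insert_self _ _) l (Finset.mem_insert_self _ _)
    have h3 : S ⊆ L.erase l := fun x hx => Finset.mem_erase.2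
      ⟨fun e => hl (e ▸ hx), hS (Finset.mem_insert_of_mem hx)⟩
    have h4 : ∀ x ∈ S, cp inc x (L.erase l) = cp inc x L := by
      intro x hx
      have h5 : inc x l := h x (Finset.mem_insert_of_mem hx) l (Finset.mem_insert_self _ _)
      unfold cp
      ext y
      simp only [Finset.mem_filter, Finset.mem_erase]
      constructor
      · rintro ⟨⟨-, h6⟩, h7⟩
        exact ⟨h6, h7⟩
      · rintro ⟨h6, h7⟩
        exact ⟨⟨fun e => h7 (e ▸ h5), h6⟩, h7⟩
    have h5 : cp inc l (L.erase l) = cp inc l L := by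
      unfold cp
      ext y
      simp only [Finset.mem_filter, Finset.mem_erase]
      constructor
      · rintro ⟨⟨-, h6⟩, h7⟩
        exact ⟨h6, h7⟩
      · rintro ⟨h6, h7⟩
        exact ⟨⟨fun e => h7 (e ▸ h2), h6⟩, h7⟩
    have h6 : L.erase l \ S = L \ insert l S := by
      ext y
      simp only [Finset.mem_sdiff, Finset.mem_erase, Finset.mem_insert]
      tauto
    rw [P_erase hs a h1, h5, ih (L.erase l) h3
      (fun x hx y hy => h x (Finset.mem_insert_of_mem hx) y (Finset.mem_insert_of_mem hy)), h6,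
      Finset.sum_insert hl, Finset.sum_congr rfl fun x hx => by rw [h4 x hx]]
    ring

/-- a family of pairwise incompatible elements, the sets given by their elements. -/
theorem P_star' (hs : ∀ a b, inc a b → inc b a) (a : V → R) {L L' S : Finset V} {c : V → Finset V}
    (hS : S ⊆ L) (h : ∀ l ∈ S, ∀ l' ∈ S, inc l l') (hL : ∀ x, x ∈ L' ↔ x ∈ L ∧ x ∉ S)
    (hc : ∀ l ∈ S, ∀ x, x ∈ c l ↔ x ∈ L ∧ ¬ inc l x) :
    P inc a L = P inc a L' + ∑ l ∈ S, a l * P inc a (c l) := by
  have e1 : L' = L \ S := by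
    ext x
    rw [hL, Finset.mem_sdiff]
  rw [P_star hs a L hS h, e1]
  congr 1
  refine Finset.sum_congr rfl fun l hl => ?_
  have e2 : c l = cp inc l L := by
    ext x
    unfold cp
    rw [hc l hl, Finset.mem_filter]
  rw [e2]

/-- elements with the weight 0 may be dropped. -/
theorem P_drop (a : V → R) {L L' : Finset V} (hL : L' ⊆ L) (h : ∀ l ∈ L, l ∉ L' → a l = 0) :
    P inc a L = P inc a L' := by
  unfold P
  symm
  apply Finset.sum_subset
  · intro I hI
    rw [Finset.mem_filter, Finset.mem_powerset] at hI ⊢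
    exact ⟨hI.1.trans hL, hI.2⟩
  · intro I hI hI'
    rw [Finset.mem_filter, Finset.mem_powerset] at hI hI'
    obtain ⟨l, h1, h2⟩ : ∃ l ∈ I, l ∉ L' := by
      by_contra c
      push Not at c
      exact hI' ⟨fun l hl => c l hl, hI.2⟩
    exact Finset.prod_eq_zero h1 (h l (hI.1 h1) h2)

theorem P_congr {a b : V → R} {L : Finset V} (h : ∀ l ∈ L, a l = b l) : P inc a L = P inc b L := by
  unfold P
  refine Finset.sum_congr rfl fun I hI => ?_
  rw [Finset.mem_filter, Finset.mem_powerset] at hI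
  exact Finset.prod_congr rfl fun l hl => h l (hI.1 hl)

theorem P_map {S : Type*} [CommSemiring S] (φ : R →+* S) (a : V → R) (L : Finset V) :
    φ (P inc a L) = P inc (fun l => φ (a l)) L := by
  unfold P
  rw [map_sum]
  exact Finset.sum_congr rfl fun I _ => map_prod φ _ _

/-- transport along an injective map that preserves the incompatibility. -/
theorem P_image {W : Type*} {inc' : W → W → Prop} (g : V → W) (a : W → R) (L : Finset V)
    (hg : ∀ l ∈ L, ∀ l' ∈ L, g l = g l' → l = l')
    (hi : ∀ l ∈ L, ∀ l' ∈ L, inc' (g l) (g l') ↔ inc l l') :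
    P inc' a (L.image g) = P inc (fun l => a (g l)) L := by
  unfold P
  symm
  refine Finset.sum_bij (fun I _ => I.image g) ?_ ?_ ?_ ?_
  · intro I hI
    rw [Finset.mem_filter, Finset.mem_powerset] at hI ⊢
    refine ⟨Finset.image_subset_image hI.1, ?_⟩
    intro x hx y hy hxy
    obtain ⟨u, hu, rfl⟩ := Finset.mem_image.1 hx
    obtain ⟨v, hv, rfl⟩ := Finset.mem_image.1 hy
    rw [hi u (hI.1 hu) v (hI.1 hv)]
    exact hI.2 u hu v hv (fun e => hxy (by rw [e]))
  · intro I hI J hJ e
    rw [Finset.mem_filter, Finset.mem_powerset] at hI hJ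
    ext x
    constructor
    · intro hx
      have : g x ∈ J.image g := by
        rw [← e]
        exact Finset.mem_image_of_mem _ hx
      obtain ⟨y, hy, e1⟩ := Finset.mem_image.1 this
      rw [← hg y (hJ.1 hy) x (hI.1 hx) e1]
      exact hy
    · intro hx
      have : g x ∈ I.image g := by
        rw [e]
        exact Finset.mem_image_of_mem _ hx
      obtain ⟨y, hy, e1⟩ := Finset.mem_image.1 this
      rw [← hg y (hI.1 hy) x (hJ.1 hx) e1]
      exact hy
  · intro J hJ
    rw [Finset.mem_filter, Finset.mem_powerset] at hJ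
    refine ⟨L.filter (fun l => g l ∈ J), ?_, ?_⟩
    · rw [Finset.mem_filter, Finset.mem_powerset]
      refine ⟨Finset.filter_subset _ _, ?_⟩
      intro x hx y hy hxy
      rw [Finset.mem_filter] at hx hy
      rw [← hi x hx.1 y hy.1]
      exact hJ.2 _ hx.2 _ hy.2 (fun e => hxy (hg x hx.1 y hy.1 e))
    · ext w
      rw [Finset.mem_image]
      constructor
      · rintro ⟨x, hx, rfl⟩
        exact (Finset.mem_filter.1 hx).2
      · intro hw
        obtain ⟨x, hx, rfl⟩ := Finset.mem_image.1 (hJ.1 hw)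
        exact ⟨x, Finset.mem_filter.2 ⟨hx, hw⟩, rfl⟩
  · intro I hI
    rw [Finset.mem_filter, Finset.mem_powerset] at hI
    rw [Finset.prod_image (fun x hx y hy e => hg x (hI.1 hx) y (hI.1 hy) e)]

theorem P_nonneg {a : V → ℝ} {L : Finset V} (h : ∀ l ∈ L, 0 ≤ a l) : 0 ≤ P inc a L := by
  unfold P
  refine Finset.sum_nonneg fun I hI => ?_
  rw [Finset.mem_filter, Finset.mem_powerset] at hI
  exact Finset.prod_nonneg fun l hl => h l (hI.1 hl)

theorem one_le_P {a : V → ℝ} {L : Finset V} (h : ∀ l ∈ L, 0 ≤ a l) : 1 ≤ P inc a L := by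
  unfold P
  have h1 : (∅ : Finset V) ∈ L.powerset.filter (Ind inc) :=
    Finset.mem_filter.2 ⟨Finset.empty_mem_powerset _, Ind_empty⟩
  have h2 := Finset.single_le_sum (f := fun I => ∏ l ∈ I, a l) (fun I hI => by
    rw [Finset.mem_filter, Finset.mem_powerset] at hI
    exact Finset.prod_nonneg fun l hl => h l (hI.1 hl)) h1
  simpa using h2

theorem P_mono {a b : V → ℝ} {L : Finset V} (h : ∀ l ∈ L, 0 ≤ a l) (h' : ∀ l ∈ L, a l ≤ b l) :
    P inc a L ≤ P inc b L := by
  unfold P
  refine Finset.sum_le_sum fun I hI => ?_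
  rw [Finset.mem_filter, Finset.mem_powerset] at hI
  exact Finset.prod_le_prod (fun l hl => h l (hI.1 hl)) (fun l hl => h' l (hI.1 hl))

theorem P_subset {a : V → ℝ} {L L' : Finset V} (hL : L ⊆ L') (h : ∀ l ∈ L', 0 ≤ a l) :
    P inc a L ≤ P inc a L' := by
  unfold P
  apply Finset.sum_le_sum_of_subset_of_nonneg
  · intro I hI
    rw [Finset.mem_filter, Finset.mem_powerset] at hI ⊢
    exact ⟨hI.1.trans hL, hI.2⟩
  · intro I hI _
    rw [Finset.mem_filter, Finset.mem_powerset] at hI
    exact Finset.prod_nonneg fun l hl => h l (hI.1 hl)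

/-- submultiplicativity. -/
theorem P_union_le (a : V → ℝ) {L L' : Finset V} (h : ∀ l ∈ L ∪ L', 0 ≤ a l) :
    P inc a (L ∪ L') ≤ P inc a L * P inc a L' := by
  have e1 : P inc a L * P inc a L' = ∑ q ∈ (L.powerset.filter (Ind inc)) ×ˢ
      (L'.powerset.filter (Ind inc)), (∏ l ∈ q.1, a l) * ∏ l ∈ q.2, a l := by
    unfold P
    rw [Finset.sum_mul_sum, ← Finset.sum_product']
  rw [e1]
  have e2 : P inc a (L ∪ L') = ∑ q ∈ ((L ∪ L').powerset.filter (Ind inc)).image
      (fun I => (I ∩ L, I \ L)), (∏ l ∈ q.1, a l) * ∏ l ∈ q.2, a l := by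
    rw [Finset.sum_image]
    · unfold P
      refine Finset.sum_congr rfl fun I _ => ?_
      simp only
      rw [← Finset.prod_union (Finset.disjoint_left.2 fun x hx hx' =>
        (Finset.mem_sdiff.1 hx').2 (Finset.mem_inter.1 hx).2)]
      congr 1
      ext x
      simp only [Finset.mem_union, Finset.mem_inter, Finset.mem_sdiff]
      tauto
    · intro I _ J _ e
      have h1 : I ∩ L = J ∩ L := congrArg Prod.fst e
      have h2 : I \ L = J \ L := congrArg Prod.snd e
      ext x
      have h3 := congrArg (fun s : Finset V => x ∈ s) h1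
      have h4 := congrArg (fun s : Finset V => x ∈ s) h2
      simp only [Finset.mem_inter, Finset.mem_sdiff, eq_iff_iff] at h3 h4
      tauto
  rw [e2]
  apply Finset.sum_le_sum_of_subset_of_nonneg
  · intro q hq
    obtain ⟨I, hI, rfl⟩ := Finset.mem_image.1 hq
    rw [Finset.mem_filter, Finset.mem_powerset] at hI
    rw [Finset.mem_product, Finset.mem_filter, Finset.mem_filter, Finset.mem_powerset,
      Finset.mem_powerset]
    refine ⟨⟨Finset.inter_subset_right, ?_⟩, ?_, ?_⟩
    · intro x hx y hy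
      exact hI.2 x (Finset.mem_inter.1 hx).1 y (Finset.mem_inter.1 hy).1
    · intro x hx
      have h1 := Finset.mem_sdiff.1 hx
      exact (Finset.mem_union.1 (hI.1 h1.1)).resolve_left h1.2
    · intro x hx y hy
      exact hI.2 x (Finset.mem_sdiff.1 hx).1 y (Finset.mem_sdiff.1 hy).1
  · intro q hq _
    rw [Finset.mem_product, Finset.mem_filter, Finset.mem_filter, Finset.mem_powerset,
      Finset.mem_powerset] at hq
    exact mul_nonneg (Finset.prod_nonneg fun l hl => h l (Finset.mem_union_left _ (hq.1.1 hl)))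
      (Finset.prod_nonneg fun l hl => h l (Finset.mem_union_right _ (hq.2.1 hl)))

/-- without the hard core. -/
theorem P_le_exp (a : V → ℝ) {L : Finset V} (h : ∀ l ∈ L, 0 ≤ a l) :
    P inc a L ≤ Real.exp (∑ l ∈ L, a l) := by
  have h1 : P inc a L ≤ ∏ l ∈ L, (1 + a l) := by
    have e : ∏ l ∈ L, (1 + a l) = ∑ I ∈ L.powerset, ∏ l ∈ I, a l := by
      rw [Finset.prod_one_add]
    rw [e]
    unfold P
    apply Finset.sum_le_sum_of_subset_of_nonneg (Finset.filter_subset _ _)
    intro I hI _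
    rw [Finset.mem_powerset] at hI
    exact Finset.prod_nonneg fun l hl => h l (hI hl)
  refine h1.trans ?_
  rw [Real.exp_sum]
  refine Finset.prod_le_prod (fun l hl => by have := h l hl; positivity) fun l _ => ?_
  rw [add_comm]
  exact Real.add_one_le_exp _

end NUHC

namespace Pool.Agent.NUF.Cyl

open Pool.Agent.EXL Pool.Agent.EXL.Net Pool.Agent.NUN Pool.Agent.NUF.LPat HexObs HexObs.LP

/-- the polygons share a vertex. -/
def Shr (E E' : Finset (Pt × Pt)) : Prop := ¬ Disjoint (VE E) (VE E')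

theorem Shr.symm {E E' : Finset (Pt × Pt)} (h : Shr E E') : Shr E' E := fun h' => h h'.symm

theorem shr_of {E E' : Finset (Pt × Pt)} {v : Pt} (h : v ∈ VE E) (h' : v ∈ VE E') : Shr E E' :=
  fun h1 => Finset.disjoint_left.1 h1 h h'

/-- the sum over the sets of pairwise disjoint polygons in `L`. -/
noncomputable def GP {K : Type*} [CommSemiring K] (w : Finset (Pt × Pt) → K)
    (L : Finset (Finset (Pt × Pt))) : K := NUHC.P Shr w L

theorem GP_empty {K : Type*} [CommSemiring K] (w : Finset (Pt × Pt) → K) : GP w ∅ = 1 := NUHC.P_empty w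

theorem GP_eq {K : Type*} [CommSemiring K] (w : Finset (Pt × Pt) → K) (L : Finset (Finset (Pt × Pt))) :
    GP w L = ∑ S ∈ (open scoped Classical in L.powerset.filter
      (fun S => ∀ E ∈ S, ∀ E' ∈ S, E ≠ E' → Disjoint (VE E) (VE E'))), ∏ E ∈ S, w E := by
  classical
  unfold GP NUHC.P
  refine Finset.sum_congr ?_ fun _ _ => rfl
  ext S
  simp only [Finset.mem_filter, NUHC.Ind, Shr, not_not]

namespace Nm

variable {C : Nm} {K : Type*}

/-- **removal of a vertex**; `Q` = any property of polygons. -/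
theorem GP_vertex [CommSemiring K] (w : Finset (Pt × Pt) → K) (Q : Finset (Pt × Pt) → Prop)
    [DecidablePred Q] (A : Finset Pt) (v : Pt) :
    GP w ((C.polys A).filter Q) = GP w ((C.polys (A.erase v)).filter Q) +
      ∑ E ∈ ((C.polys A).filter Q).filter (fun E => v ∈ VE E), w E * GP w ((C.polys (A \ VE E)).filter Q) := by
  unfold GP
  refine NUHC.P_star' (inc := Shr) (fun a b h => h.symm) w (c := fun E => (C.polys (A \ VE E)).filter Q)
    (Finset.filter_subset _ _)
    (fun E hE E' hE' => shr_of (Finset.mem_filter.1 hE).2 (Finset.mem_filter.1 hE').2) ?_ ?_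
  · intro E
    rw [Finset.mem_filter, Finset.mem_filter, Finset.mem_filter, mem_polys, mem_polys]
    constructor
    · rintro ⟨⟨h1, h2⟩, h3⟩
      refine ⟨⟨⟨h1, fun u hu => Finset.mem_of_mem_erase (h2 hu)⟩, h3⟩, ?_⟩
      rintro ⟨-, h4⟩
      exact (Finset.mem_erase.1 (h2 h4)).1 rfl
    · rintro ⟨⟨⟨h1, h2⟩, h3⟩, h4⟩
      refine ⟨⟨h1, fun u hu => Finset.mem_erase.2 ⟨?_, h2 hu⟩⟩, h3⟩
      rintro rfl
      exact h4 ⟨Finset.mem_filter.2 ⟨mem_polys.2 ⟨h1, h2⟩, h3⟩, hu⟩
  · intro E _ E'
    rw [Finset.mem_filter, Finset.mem_filter, mem_polys, mem_polys]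
    unfold Shr
    rw [not_not]
    constructor
    · rintro ⟨⟨h1, h2⟩, h3⟩
      exact ⟨⟨⟨h1, fun u hu => (Finset.mem_sdiff.1 (h2 hu)).1⟩, h3⟩,
        Finset.disjoint_left.2 fun u h5 h6 => (Finset.mem_sdiff.1 (h2 h6)).2 h5⟩
    · rintro ⟨⟨⟨h1, h2⟩, h3⟩, h4⟩
      exact ⟨⟨h1, fun u hu => Finset.mem_sdiff.2 ⟨h2 hu, fun h5 => Finset.disjoint_left.1 h4 h5 hu⟩⟩, h3⟩

theorem polys_empty : C.polys ∅ = ∅ := by
  rw [Finset.eq_empty_iff_forall_notMem]
  intro E hE
  obtain ⟨h1, h2⟩ := mem_polys.1 hE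
  obtain ⟨v, hv⟩ := h1.VE_nonempty
  exact absurd (h2 hv) (Finset.notMem_empty _)

namespace Lb

variable {Γ : Type*} [AddCommGroup Γ] [Field K] [CharZero K] (D : C.Lb Γ K)

/-- the weight of an oriented polygon. -/
noncomputable def wE (x : K) (E : Finset (Pt × Pt)) : K := x ^ E.card * D.nu (D.lE E) / 2

/-- the gas of disjoint polygons satisfies the recursion. -/
theorem gas_GP (x : K) : D.Gas x (fun A => GP (D.wE x) (C.polys A)) := by
  classical
  constructor
  · show GP (D.wE x) (C.polys ∅) = 1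
    rw [polys_empty, GP_empty]
  · intro A v _ _
    have h := GP_vertex (C := C) (D.wE x) (fun _ => True) A v
    simp only [Finset.filter_true] at h
    show 2 * GP (D.wE x) (C.polys A) = 2 * GP (D.wE x) (C.polys (A.erase v)) + _
    rw [h, mul_add, Finset.mul_sum]
    congr 1
    refine Finset.sum_congr rfl fun E _ => ?_
    unfold wE
    ring

/-- **The value of the network of a domain of the cylinder is the sum over the sets of disjoint polygons.** -/
theorem network (x : K) {A : Finset Pt} (hA : ∀ w ∈ A, Vt w ∧ C.nm w = w)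
    {E : Finset (Sym2 Lab)} (hE : C.Edg E) (hI : C.Incl A E) (F : LPat Γ Lab → K) :
    D.Nt x A E hE F LPat.empty = GP (D.wE x) (C.polys A) * F LPat.empty :=
  main_empty (D.gas_GP x) (fun _ _ h => mul_left_cancel₀ two_ne_zero h) hA hE hI F

end Lb

/-- the labels mod 2 and the weights 0, `n'`: only the polygons with the label 1 contribute. -/
theorem Lb.network2 (D : C.Lb (ZMod 2) ℂ) {n' : ℂ} (hD : D.nu = nu2 n') (x : ℂ) {A : Finset Pt}
    (hA : ∀ w ∈ A, Vt w ∧ C.nm w = w) {E : Finset (Sym2 Lab)} (hE : C.Edg E) (hI : C.Incl A E)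
    (F : LPat (ZMod 2) Lab → ℂ) :
    D.Nt x A E hE F LPat.empty =
      GP (fun E => n' / 2 * x ^ E.card) ((C.polys A).filter (fun E => D.lE E = 1)) * F LPat.empty := by
  rw [D.network x hA hE hI F]
  have h01 : ∀ g : ZMod 2, g ≠ 1 → g = 0 := by decide
  have e1 : GP (D.wE x) (C.polys A) = GP (D.wE x) ((C.polys A).filter (fun E => D.lE E = 1)) := by
    unfold GP
    refine NUHC.P_drop (D.wE x) (Finset.filter_subset _ _) fun E hE h => ?_
    unfold Lb.wE
    rw [h01 _ (fun e => h (Finset.mem_filter.2 ⟨hE, e⟩)), hD]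
    unfold nu2
    rw [if_pos rfl]
    ring
  have e2 : GP (D.wE x) ((C.polys A).filter (fun E => D.lE E = 1)) =
      GP (fun E => n' / 2 * x ^ E.card) ((C.polys A).filter (fun E => D.lE E = 1)) := by
    unfold GP
    apply NUHC.P_congr
    intro E hE
    have h1 := (Finset.mem_filter.1 hE).2
    unfold Lb.wE
    rw [h1, hD]
    unfold nu2
    rw [if_neg one_ne_zero]
    ring
  rw [e1, e2]

end Nm

/-! ### the plane -/

section plane

variable {K : Type*} [CommRing K]

theorem GP_pf_vertex (w : Finset (Pt × Pt) → K) (f : Pt) (A : Finset Pt) (v : Pt) :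
    GP w (NUN.pf f A) = GP w (NUN.pf f (A.erase v)) +
      ∑ E ∈ (NUN.pf f A).filter (fun E => v ∈ VE E), w E * GP w (NUN.pf f (A \ VE E)) := by
  unfold GP
  refine NUHC.P_star' (inc := Shr) (fun a b h => h.symm) w (c := fun E => NUN.pf f (A \ VE E))
    (Finset.filter_subset _ _)
    (fun E hE E' hE' => shr_of (Finset.mem_filter.1 hE).2 (Finset.mem_filter.1 hE').2) ?_ ?_
  · intro E
    rw [Finset.mem_filter, NUN.mem_pf, NUN.mem_pf]
    constructor
    · rintro ⟨h1, h2, h3⟩
      refine ⟨⟨h1, fun u hu => Finset.mem_of_mem_erase (h2 hu), h3⟩, ?_⟩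
      rintro ⟨-, h4⟩
      exact (Finset.mem_erase.1 (h2 h4)).1 rfl
    · rintro ⟨⟨h1, h2, h3⟩, h4⟩
      refine ⟨h1, fun u hu => Finset.mem_erase.2 ⟨?_, h2 hu⟩, h3⟩
      rintro rfl
      exact h4 ⟨⟨h1, h2, h3⟩, hu⟩
  · intro E _ E'
    rw [NUN.mem_pf, NUN.mem_pf]
    unfold Shr
    rw [not_not]
    constructor
    · rintro ⟨h1, h2, h3⟩
      exact ⟨⟨h1, fun u hu => (Finset.mem_sdiff.1 (h2 hu)).1, h3⟩,
        Finset.disjoint_left.2 fun u h5 h6 => (Finset.mem_sdiff.1 (h2 h6)).2 h5⟩
    · rintro ⟨⟨h1, h2, h3⟩, h4⟩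
      exact ⟨h1, fun u hu => Finset.mem_sdiff.2 ⟨h2 hu, fun h5 => Finset.disjoint_left.1 h4 h5 hu⟩, h3⟩

/-- **The nested polygons around a face = the sets of pairwise disjoint polygons around the face.** -/
theorem NF_eq_GP (x y : K) {f : Pt} (hf : Fc f) (A : Finset Pt) :
    NUN.NF x y f A = GP (fun E => y * x ^ E.card) (NUN.pf f A) := by
  classical
  induction hn : A.card using Nat.strong_induction_on generalizing A with
  | _ n ih =>
    rcases A.eq_empty_or_nonempty with rfl | ⟨v, hv⟩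
    · have h1 : NUN.pf f (∅ : Finset Pt) = ∅ := by
        rw [Finset.eq_empty_iff_forall_notMem]
        intro E hE
        obtain ⟨h1, h2, -⟩ := NUN.mem_pf.1 hE
        obtain ⟨v, hv⟩ := VE_nonempty h1
        exact absurd (h2 hv) (Finset.notMem_empty _)
      rw [NUN.NF_eq, h1, GP_empty, Finset.sum_empty, add_zero]
    · rw [NUN.NF_vertex x y hf A hv, GP_pf_vertex _ f A v,
        ih _ (by rw [← hn]; exact Finset.card_erase_lt_of_mem hv) _ rfl]
      congr 1
      refine Finset.sum_congr rfl fun E hE => ?_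
      have h1 := Finset.mem_filter.1 hE
      rw [ih _ (by
        rw [← hn]
        apply Finset.card_lt_card
        refine ⟨Finset.sdiff_subset, fun h => ?_⟩
        exact (Finset.mem_sdiff.1 (h hv)).2 h1.2) _ rfl]

end plane

end Pool.Agent.NUF.Cyl
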