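import Pool.Agent.PLW.CylDefs
import Pool.Agent.NUF.HC.Poly
import Pool.Agent.HexLoop.Inside

/-!
NUNC: the polygons of the honeycomb cylinder inside a ball lift to the plane (module W8c of doc zf/WIND).
-/

set_option autoImplicit false

namespace Pool.Agent.NUF.Cyl

open HexObs HexObs.LP

/-! ### an abstract lemma: the gas and injective maps -/

theorem P_image {V W R : Type*} [DecidableEq W] [CommSemiring R] {i1 : V → V → Prop} {i2 : W → W → Prop} {S : Finset V}
    {φ : V → W} (hφ : ∀ E ∈ S, ∀ F ∈ S, φ E = φ F → E = F)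
    (hi : ∀ E ∈ S, ∀ F ∈ S, (i2 (φ E) (φ F) ↔ i1 E F)) (a : W → R) :
    NUHC.P i2 a (S.image φ) = NUHC.P i1 (fun E => a (φ E)) S := by
  classical
  unfold NUHC.P
  have hin : Set.InjOn φ (S : Set V) := fun E hE F hF h => hφ E hE F hF h
  symm
  apply Finset.sum_bij (fun (I : Finset V) _ => I.image φ)
  · intro I hI
    rw [Finset.mem_filter, Finset.mem_powerset] at hI ⊢
    refine ⟨Finset.image_subset_image hI.1, ?_⟩
    intro x hx y hy hxy
    obtain ⟨E, hE, rfl⟩ := Finset.mem_image.1 hx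
    obtain ⟨F, hF, rfl⟩ := Finset.mem_image.1 hy
    rw [hi E (hI.1 hE) F (hI.1 hF)]
    exact hI.2 E hE F hF (fun h => hxy (by rw [h]))
  · intro I hI J hJ h
    rw [Finset.mem_filter, Finset.mem_powerset] at hI hJ
    ext E
    constructor
    · intro hE
      have : φ E ∈ J.image φ := by rw [← h]; exact Finset.mem_image_of_mem _ hE
      obtain ⟨F, hF, h2⟩ := Finset.mem_image.1 this
      rwa [← hφ F (hJ.1 hF) E (hI.1 hE) h2]
    · intro hE
      have : φ E ∈ I.image φ := by rw [h]; exact Finset.mem_image_of_mem _ hE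
      obtain ⟨F, hF, h2⟩ := Finset.mem_image.1 this
      rwa [← hφ F (hI.1 hF) E (hJ.1 hE) h2]
  · intro J hJ
    rw [Finset.mem_filter, Finset.mem_powerset] at hJ
    obtain ⟨hJ1, hJ2⟩ := hJ
    obtain ⟨I, hI, rfl⟩ := Finset.subset_image_iff.1 hJ1
    refine ⟨I, ?_, rfl⟩
    rw [Finset.mem_filter, Finset.mem_powerset]
    refine ⟨Finset.coe_subset.1 hI, ?_⟩
    intro E hE F hF hEF
    rw [← hi E (hI hE) F (hI hF)]
    exact hJ2 _ (Finset.mem_image_of_mem _ hE) _ (Finset.mem_image_of_mem _ hF)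
      (fun h => hEF (hφ E (hI hE) F (hI hF) h))
  · intro I hI
    rw [Finset.mem_filter, Finset.mem_powerset] at hI
    rw [Finset.prod_image]
    exact fun E hE F hF h => hφ E (hI.1 hE) F (hI.1 hF) h

/-! ### images of sets of half edges -/

/-- the image of a set of half edges of the plane on the cylinder. -/
def im (C : Nm) (E : Finset (Pt × Pt)) : Finset (Pt × Pt) := E.image (fun p => (C.nm p.1, p.2))

theorem VE_im (C : Nm) (E : Finset (Pt × Pt)) : VE (im C E) = (VE E).image C.nm := by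
  unfold VE im
  rw [Finset.image_image, Finset.image_image]
  rfl

theorem cpe_im (C : Nm) (v d : Pt) (τ : ℕ → Bool) (m : ℕ) : cpe C v d τ m = im C (pe v d τ m) := by
  unfold cpe im pe
  rw [Finset.image_image]
  rfl

theorem im_crE (C : Nm) (E : Finset (Pt × Pt)) : im C (rE E) = crE C (im C E) := by
  unfold im rE crE
  rw [Finset.image_image, Finset.image_image]
  apply Finset.image_congr
  intro p _
  show (C.nm (p.1 + p.2), -p.2) = (C.nm (C.nm p.1 + p.2), -p.2)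
  rw [C.add]

/-! ### balls -/

/-- the rows of the vertices of B differ by at most N - 2. -/
def Nar (N : ℕ) (B : Finset Pt) : Prop := ∀ v ∈ B, ∀ w ∈ B, ri v - ri w + 2 ≤ N

theorem nar_inj {N : ℕ} (hN : 1 ≤ N) {B : Finset Pt} (hB : Nar N B) {v w : Pt} (hv : v ∈ B)
    (hw : w ∈ B) (h : (Cy N hN).nm v = (Cy N hN).nm w) : v = w := by
  have h1 := hB v hv w hw
  have h2 := hB w hw v hv
  rw [nm_eq, nm_eq] at h
  simp only [nmN, tr, Prod.mk.injEq] at h
  set a := ri v / (N : ℤ) with ha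
  set b := ri w / (N : ℤ) with hb
  have e1 : v.1 = w.1 + N * (a - b) := by linarith [h.1]
  have e2 : v.2 = w.2 + N * (a - b) := by linarith [h.2]
  have e3 : v = tr (N * (a - b)) w := Prod.ext e1 e2
  have e4 : ri v = ri w + N * (a - b) := by rw [e3, ri_tr]
  have e5 : a - b = 0 := by
    have hN' : (1 : ℤ) ≤ N := by exact_mod_cast hN
    by_contra hne
    rcases lt_or_gt_of_ne hne with h3 | h3
    · have : (N : ℤ) * (a - b) ≤ -N := by nlinarith
      omega
    · have : (N : ℤ) ≤ N * (a - b) := by nlinarith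
      omega
  rw [e3, e5, mul_zero]
  simp [tr]

theorem ri_step {d : Pt} (hd : d ∈ dirs) (v : Pt) : ri (v + d) ≤ ri v + 1 ∧ ri v ≤ ri (v + d) + 1 := by
  have key : ∀ e ∈ dirs, e.1 + 2 * e.2 ≤ 2 ∧ -2 ≤ e.1 + 2 * e.2 := by decide
  obtain ⟨h1, h2⟩ := key d hd
  simp only [ri, Prod.fst_add, Prod.snd_add]
  omega

theorem nar_close {N : ℕ} (hN : 1 ≤ N) {B : Finset Pt} (hB : Nar N B) {v w d : Pt} (hv : v ∈ B)
    (hw : w ∈ B) (hd : d ∈ dirs) (h : (Cy N hN).nm (v + d) = (Cy N hN).nm w) : v + d = w := by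
  have h1 := hB v hv w hw
  have h2 := hB w hw v hv
  obtain ⟨h3, h4⟩ := ri_step hd v
  rw [nm_eq, nm_eq] at h
  simp only [nmN, tr, Prod.mk.injEq] at h
  set a := ri (v + d) / (N : ℤ) with ha
  set b := ri w / (N : ℤ) with hb
  have e1 : (v + d).1 = w.1 + N * (a - b) := by linarith [h.1]
  have e2 : (v + d).2 = w.2 + N * (a - b) := by linarith [h.2]
  have e3 : v + d = tr (N * (a - b)) w := Prod.ext e1 e2
  have e4 : ri (v + d) = ri w + N * (a - b) := by rw [e3, ri_tr]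
  have e5 : a - b = 0 := by
    have hN' : (1 : ℤ) ≤ N := by exact_mod_cast hN
    by_contra hne
    rcases lt_or_gt_of_ne hne with h3 | h3
    · have : (N : ℤ) * (a - b) ≤ -N := by nlinarith
      omega
    · have : (N : ℤ) ≤ N * (a - b) := by nlinarith
      omega
  rw [e3, e5, mul_zero]
  simp [tr]

theorem vs_tr' (z v d : Pt) (τ : ℕ → Bool) (i : ℕ) : vs (v + z) d τ i = vs v d τ i + z := by
  induction i with
  | zero => rfl
  | succ i ih => rw [vs_succ, vs_succ, ih, add_right_comm]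

theorem nm_vs (C : Nm) {v w : Pt} (h : C.nm v = C.nm w) (d : Pt) (τ : ℕ → Bool) (i : ℕ) :
    C.nm (vs v d τ i) = C.nm (vs w d τ i) := by
  induction i with
  | zero => exact h
  | succ i ih => rw [vs_succ, vs_succ, ← C.add, ih, C.add]

theorem mem_VE_pe {v d : Pt} {τ : ℕ → Bool} {m i : ℕ} (hi : i < m) : vs v d τ i ∈ VE (pe v d τ m) :=
  Finset.mem_image.2 ⟨(vs v d τ i, ds d τ i), Finset.mem_image.2 ⟨i, Finset.mem_range.2 hi, rfl⟩, rfl⟩

/-- the image of a polygon of the ball. -/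
theorem im_poly {N : ℕ} (hN : 1 ≤ N) {B : Finset Pt} (hB : Nar N B) {E : Finset (Pt × Pt)} (hE : LP.IsPoly E)
    (hEB : VE E ⊆ B) : IsCPoly (Cy N hN) (im (Cy N hN) E) := by
  obtain ⟨v, d, τ, m, h, rfl⟩ := hE
  refine ⟨v, d, τ, m, ?_, (cpe_im _ v d τ m).symm⟩
  refine ⟨h.pos, h.de, h.per, by rw [h.clv], h.cld, ?_⟩
  intro i k hik hk heq
  exact h.inj i k hik hk (nar_inj hN hB (hEB (mem_VE_pe (by omega))) (hEB (mem_VE_pe hk)) heq)

/-- the image map is injective on the polygons of the ball. -/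
theorem im_inj {N : ℕ} (hN : 1 ≤ N) {B : Finset Pt} (hB : Nar N B) {E F : Finset (Pt × Pt)}
    (hE : VE E ⊆ B) (hF : VE F ⊆ B) (h : im (Cy N hN) E = im (Cy N hN) F) : E = F := by
  have key : ∀ {E F : Finset (Pt × Pt)}, VE E ⊆ B → VE F ⊆ B → im (Cy N hN) E = im (Cy N hN) F → E ⊆ F := by
    intro E F hE hF h p hp
    have h1 : ((Cy N hN).nm p.1, p.2) ∈ im (Cy N hN) F := by
      rw [← h]
      exact Finset.mem_image_of_mem (fun p : Pt × Pt => ((Cy N hN).nm p.1, p.2)) hp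
    obtain ⟨q, hq, h2⟩ := Finset.mem_image.1 h1
    rw [Prod.mk.injEq] at h2
    have h3 := nar_inj hN hB (hF (Finset.mem_image_of_mem Prod.fst hq)) (hE (Finset.mem_image_of_mem Prod.fst hp)) h2.1
    have h4 : q = p := Prod.ext h3 h2.2
    rwa [h4] at hq
  exact Finset.Subset.antisymm (key hE hF h) (key hF hE h.symm)

theorem im_card {N : ℕ} (hN : 1 ≤ N) {B : Finset Pt} (hB : Nar N B) {E : Finset (Pt × Pt)}
    (hE : VE E ⊆ B) : (im (Cy N hN) E).card = E.card := by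
  unfold im
  apply Finset.card_image_of_injOn
  intro p hp q hq h
  simp only [Prod.mk.injEq] at h
  exact Prod.ext (nar_inj hN hB (hE (Finset.mem_image_of_mem Prod.fst hp))
    (hE (Finset.mem_image_of_mem Prod.fst hq)) h.1) h.2

theorem im_sum {M : Type*} [AddCommMonoid M] {N : ℕ} (hN : 1 ≤ N) {B : Finset Pt} (hB : Nar N B)
    {E : Finset (Pt × Pt)} (hE : VE E ⊆ B) (lab : Pt × Pt → M) :
    ∑ q ∈ im (Cy N hN) E, lab q = ∑ p ∈ E, lab ((Cy N hN).nm p.1, p.2) := by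
  unfold im
  apply Finset.sum_image
  intro p hp q hq h
  simp only [Prod.mk.injEq] at h
  exact Prod.ext (nar_inj hN hB (hE (Finset.mem_image_of_mem Prod.fst hp))
    (hE (Finset.mem_image_of_mem Prod.fst hq)) h.1) h.2

/-- a polygon of the cylinder inside the ball is an image. -/
theorem im_surj {N : ℕ} (hN : 1 ≤ N) {B : Finset Pt} (hB : Nar N B) {E : Finset (Pt × Pt)}
    (hE : IsCPoly (Cy N hN) E) (hEB : VE E ⊆ B.image (Cy N hN).nm) :
    ∃ F, LP.IsPoly F ∧ VE F ⊆ B ∧ im (Cy N hN) F = E := by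
  obtain ⟨v, d, τ, m, h, rfl⟩ := hE
  rw [cpe_im, VE_im] at hEB
  have hmem : ∀ i, i < m → ∃ b ∈ B, (Cy N hN).nm b = (Cy N hN).nm (vs v d τ i) := by
    intro i hi
    have := hEB (Finset.mem_image_of_mem _ (mem_VE_pe hi))
    exact Finset.mem_image.1 this
  obtain ⟨w, hw, hwv⟩ := hmem 0 h.pos
  have hwv' : (Cy N hN).nm w = (Cy N hN).nm v := hwv
  have hd : ∀ i, ds d τ i ∈ dirs := fun i => ds_mem h.de.1 i
  have hvs : ∀ i, i < m → vs w d τ i ∈ B := by
    intro i
    induction i with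
    | zero => exact fun _ => hw
    | succ i ih =>
      intro hi
      obtain ⟨b, hb, hb2⟩ := hmem (i + 1) hi
      have h1 := ih (by omega)
      rw [← nm_vs (Cy N hN) hwv' d τ (i + 1), vs_succ] at hb2
      rw [vs_succ, nar_close hN hB h1 hb (hd i) hb2.symm]
      exact hb
  have hcl : vs w d τ m = w := by
    obtain ⟨k, hk⟩ : ∃ k, m = k + 1 := ⟨m - 1, by have := h.pos; omega⟩
    have h1 : (Cy N hN).nm (vs w d τ m) = (Cy N hN).nm w := by
      rw [nm_vs (Cy N hN) hwv' d τ m, h.clv, hwv']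
    rw [hk, vs_succ] at h1 ⊢
    exact nar_close hN hB (hvs k (by omega)) hw (hd k) h1
  refine ⟨pe w d τ m, ⟨w, d, τ, m, ?_, rfl⟩, ?_, ?_⟩
  · refine ⟨h.pos, ⟨h.de.1, ?_, ?_⟩, h.per, hcl, h.cld, ?_⟩
    · have := h.de.2.1
      rw [← Nm.vt_nm (C := Cy N hN)] at this ⊢
      show Vt ((Cy N hN).nm w)
      rw [hwv']
      exact this
    · have := h.de.2.2
      rw [← Nm.vt_nm (C := Cy N hN)] at this ⊢
      show Vt ((Cy N hN).nm (w + d))
      rw [← (Cy N hN).add, hwv', (Cy N hN).add]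
      exact this
    · intro i k hik hk heq
      apply h.inj i k hik hk
      rw [← nm_vs (Cy N hN) hwv' d τ i, ← nm_vs (Cy N hN) hwv' d τ k, heq]
  · intro x hx
    obtain ⟨p, hp, rfl⟩ := Finset.mem_image.1 hx
    obtain ⟨i, hi, rfl⟩ := Finset.mem_image.1 hp
    exact hvs i (Finset.mem_range.1 hi)
  · rw [cpe_im]
    unfold im pe
    rw [Finset.image_image, Finset.image_image]
    apply Finset.image_congr
    intro i _
    show ((Cy N hN).nm (vs w d τ i), ds d τ i) = ((Cy N hN).nm (vs v d τ i), ds d τ i)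
    rw [nm_vs (Cy N hN) hwv' d τ i]

/-- **Balls lift to the plane**: the polygons of the cylinder in the image of B are the images of the polygons in B. -/
theorem polys_im {N : ℕ} (hN : 1 ≤ N) {B : Finset Pt} (hB : Nar N B) (S : Finset (Finset (Pt × Pt)))
    (hS : ∀ E, E ∈ S ↔ IsCPoly (Cy N hN) E ∧ VE E ⊆ B.image (Cy N hN).nm) :
    S = (polys B).image (im (Cy N hN)) := by
  ext E
  rw [hS, Finset.mem_image]
  constructor
  · rintro ⟨h1, h2⟩
    obtain ⟨F, h3, h4, h5⟩ := im_surj hN hB h1 h2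
    exact ⟨F, mem_polys.2 ⟨h3, h4⟩, h5⟩
  · rintro ⟨F, h1, rfl⟩
    obtain ⟨h2, h3⟩ := mem_polys.1 h1
    refine ⟨im_poly hN hB h2 h3, ?_⟩
    rw [VE_im]
    exact Finset.image_subset_image h3

/-- sharing a vertex is the same in the plane and on the cylinder. -/
theorem im_meet {N : ℕ} (hN : 1 ≤ N) {B : Finset Pt} (hB : Nar N B) {E F : Finset (Pt × Pt)}
    (hE : VE E ⊆ B) (hF : VE F ⊆ B) :
    (∃ v ∈ VE (im (Cy N hN) E), v ∈ VE (im (Cy N hN) F)) ↔ ∃ v ∈ VE E, v ∈ VE F := by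
  rw [VE_im, VE_im]
  constructor
  · rintro ⟨x, h1, h2⟩
    obtain ⟨v, hv, rfl⟩ := Finset.mem_image.1 h1
    obtain ⟨w, hw, h3⟩ := Finset.mem_image.1 h2
    have := nar_inj hN hB (hF hw) (hE hv) h3
    rw [this] at hw
    exact ⟨v, hv, hw⟩
  · rintro ⟨v, h1, h2⟩
    exact ⟨_, Finset.mem_image_of_mem _ h1, Finset.mem_image_of_mem _ h2⟩

/-- **The gas of the cylinder in the image of B is the gas of the plane in B.** -/
theorem P_ball {R : Type*} [CommSemiring R] {N : ℕ} (hN : 1 ≤ N) {B : Finset Pt} (hB : Nar N B)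
    {i1 i2 : Finset (Pt × Pt) → Finset (Pt × Pt) → Prop}
    (h1 : ∀ E F, i1 E F ↔ ∃ v ∈ VE E, v ∈ VE F) (h2 : ∀ E F, i2 E F ↔ ∃ v ∈ VE E, v ∈ VE F)
    (S : Finset (Finset (Pt × Pt)))
    (hS : ∀ E, E ∈ S ↔ IsCPoly (Cy N hN) E ∧ VE E ⊆ B.image (Cy N hN).nm) (a : Finset (Pt × Pt) → R) :
    NUHC.P i2 a S = NUHC.P i1 (fun E => a (im (Cy N hN) E)) (polys B) := by
  rw [polys_im hN hB S hS]
  refine P_image ?_ ?_ a
  · intro E hE F hF h
    exact im_inj hN hB (mem_polys.1 hE).2 (mem_polys.1 hF).2 h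
  · intro E hE F hF
    rw [h1, h2]
    exact im_meet hN hB (mem_polys.1 hE).2 (mem_polys.1 hF).2

end Pool.Agent.NUF.Cyl
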