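import Pool.Agent.NUNC.LabAnti
import Pool.Agent.NUNC.Gas

/-!
# The sphere partition function is the limit of the gas of the disjoint polygons of the cylinder (W8b of zf/WIND)

`GC`: the polygons of the cylinder with `N` rows inside a finite set of vertices whose label (number of crossings of
the line below the face `fc r`, mod 2) is 1, every oriented polygon with the weight `y * x ^ length`, pairwise
disjoint.  `ZD_gas`: `ZD n'` for homogeneous rows is the limit of `GC` for `y = n' / 2`, `x = xc` in the rings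
`-m, .., m - 1`.
-/

set_option autoImplicit false

namespace Pool.Agent.NUNC

open Pool.Agent.EXL hiding cc
open Pool.Agent.EXL.Net Pool.Agent.NUN HexObs HexObs.LP
open Pool.Agent.NUF Pool.Agent.NUF.LPat Pool.Agent.NUF.Cyl
open Filter Topology

variable {N : ℕ}

/-- the labels of the cylinder. -/
noncomputable def DC (n' : ℂ) (hN : 1 ≤ N) (r : ℕ) : (Cy N hN).Lb (ZMod 2) ℂ where
  nu := nu2 n'
  even := nu2_neg n'
  lab := labC r
  anti _ hh := labC_anti hN r hh

/-- the label of a polygon. -/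
noncomputable def lC (r : ℕ) (E : Finset (Pt × Pt)) : ZMod 2 := ∑ q ∈ E, labC r q

theorem lE_DC (n' : ℂ) (hN : 1 ≤ N) (r : ℕ) (E : Finset (Pt × Pt)) : (DC n' hN r).lE E = lC r E := rfl

/-- the polygons of the cylinder with the label 1. -/
noncomputable def odd (hN : 1 ≤ N) (r : ℕ) (A : Finset Pt) : Finset (Finset (Pt × Pt)) :=
  ((Cy N hN).polys A).filter (fun E => lC r E = 1)

theorem mem_odd {hN : 1 ≤ N} {r : ℕ} {A : Finset Pt} {E : Finset (Pt × Pt)} :
    E ∈ odd hN r A ↔ IsCPoly (Cy N hN) E ∧ VE E ⊆ A ∧ lC r E = 1 := by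
  unfold odd
  rw [Finset.mem_filter, Nm.mem_polys', and_assoc]

/-- **The gas of the disjoint polygons of the cylinder with the label 1.** -/
noncomputable def GC {K : Type*} [CommSemiring K] (hN : 1 ≤ N) (r : ℕ) (x y : K) (A : Finset Pt) : K :=
  GP (fun E => y * x ^ E.card) (odd hN r A)

theorem cO_cop (n' : ℂ) (hN : 1 ≤ N) (r m : ℕ) : (DC n' hN r).cO (EA N m hN) (edg_EA N m hN) =
    ((HA N m).map (cop n' hN r)).prod := by
  unfold Nm.Lb.cO EA
  refine (Finset.noncommProd_toFinset _ _ _ (nodup_ed_all hN m)).trans ?_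
  rw [List.map_map]
  congr 1
  refine List.map_congr_left fun h hh => ?_
  exact (DC n' hN r).cS_ed (De_HA hN hh).2

theorem lCR_VA (x : ℂ) (N m : ℕ) :
    lCR (ZMod 2) x (Om N m) = ((VA N m).map (lCrv (ZMod 2) x)).prod :=
  lCR_list x (nodup_VA N m) (VA_Om N m)

/-- **The iterated rings are the gas.** -/
theorem term_gas (n' : ℂ) (hN : 1 ≤ N) (r m : ℕ) :
    (NUG.ringC cc dd ((La N r ++ Lb' N r).map Prod.fst))^[m]
      ((NUG.ringC cc dd ((La N r ++ Lb' N r).map Prod.snd).reverse)^[m]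
        (fun p => Tw (chi (La N r)) (gm (nu2 n') (La N r ++ Lb' N r)) (ofP (ZMod 2) p)))
        EXL.Pat.empty = GC hN r (xc : ℂ) (n' / 2) (Om N m) := by
  rw [term_list n' hN r m, ← cO_cop n' hN r m, ← lCR_VA]
  have h := (DC n' hN r).network2 (n' := n') rfl (xc : ℂ) (A := Om N m)
    (fun w hw => ⟨Om_vt hw, nm_Om hN hw⟩) (edg_EA N m hN) (ed_mem_EA hN m) (dl (ZMod 2) Lab)
  have e5 : dl (ZMod 2) Lab LPat.empty = 1 := if_pos rfl
  rw [e5, mul_one] at h
  exact h

theorem Gd_La (N r : ℕ) : Gd (La N r ++ Lb' N r) := by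
  unfold Gd
  rw [La_Lb, List.map_map, List.map_map, List.nodup_append]
  refine ⟨(List.nodup_finRange N).map (fun i j h => by simpa [lk] using h),
    (List.nodup_finRange N).map (fun i j h => by simpa [lk] using h), ?_⟩
  intro a ha b hb
  obtain ⟨i, -, rfl⟩ := List.mem_map.1 ha
  obtain ⟨j, -, rfl⟩ := List.mem_map.1 hb
  simp [lk]

theorem inr_notMem (N r : ℕ) (l : Fin 4) : (Sum.inr l : NUF.St N) ∉ (La N r ++ Lb' N r).map Prod.fst ∧
    (Sum.inr l : NUF.St N) ∉ (La N r ++ Lb' N r).map Prod.snd := by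
  constructor
  · intro h
    rw [La_Lb, List.map_map] at h
    obtain ⟨i, -, hi⟩ := List.mem_map.1 h
    simp [lk] at hi
  · intro h
    rw [La_Lb, List.map_map] at h
    obtain ⟨i, -, hi⟩ := List.mem_map.1 h
    simp [lk] at hi

/-- **W8b: the sphere partition function is the limit of the gas of the cylinder.** -/
theorem ZD_gas (n' : ℂ) (hN : 1 ≤ N) (r : ℕ) :
    Tendsto (fun m => GC hN r (xc : ℂ) (n' / 2) (Om N m)) atTop
      (𝓝 (NUG.ZD n' (Sum.inr 0) (Sum.inr 1) (La N r) (Lb' N r))) := by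
  have h := NUG.ZD_lim (Gd_La N r) (c := Sum.inr 0) (d := Sum.inr 1) (by simp) (inr_notMem N r 0).1
    (inr_notMem N r 1).1 (inr_notMem N r 0).2 (inr_notMem N r 1).2 n'
  exact h.congr fun m => term_gas n' hN r m

/-! ### real weights -/

theorem GC_cast (hN : 1 ≤ N) (r : ℕ) (n' : ℝ) (A : Finset Pt) :
    GC hN r (xc : ℂ) ((n' : ℂ) / 2) A = ((GC hN r xc (n' / 2) A : ℝ) : ℂ) := by
  unfold GC GP
  have h := NUHC.P_map (inc := Shr) Complex.ofRealHom (fun E : Finset (Pt × Pt) => n' / 2 * xc ^ E.card)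
    (odd hN r A)
  simp only [Complex.ofRealHom_eq_coe] at h
  rw [h]
  apply NUHC.P_congr
  intro E _
  push_cast
  rfl

theorem GC_mono (hN : 1 ≤ N) (r : ℕ) {y : ℝ} (hy : 0 ≤ y) {A B : Finset Pt} (h : A ⊆ B) :
    GC hN r xc y A ≤ GC hN r xc y B := by
  unfold GC GP
  refine NUHC.P_subset (fun E hE => ?_) fun E _ => mul_nonneg hy (pow_nonneg xc_pos.le _)
  rw [mem_odd] at hE ⊢
  exact ⟨hE.1, hE.2.1.trans h, hE.2.2⟩

theorem one_le_GC (hN : 1 ≤ N) (r : ℕ) {y : ℝ} (hy : 0 ≤ y) (A : Finset Pt) : 1 ≤ GC hN r xc y A :=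
  NUHC.one_le_P fun _ _ => mul_nonneg hy (pow_nonneg xc_pos.le _)

theorem real_of_tendsto {f : ℕ → ℝ} {w : ℂ} (h : Tendsto (fun m => ((f m : ℝ) : ℂ)) atTop (𝓝 w)) :
    ∃ z : ℝ, w = z ∧ Tendsto f atTop (𝓝 z) := by
  have h1 : Tendsto f atTop (𝓝 w.re) := (Complex.continuous_re.tendsto w).comp h
  have h2 : Tendsto (fun m => ((f m : ℝ) : ℂ).im) atTop (𝓝 w.im) := (Complex.continuous_im.tendsto w).comp h
  simp only [Complex.ofReal_im] at h2
  refine ⟨w.re, ?_, h1⟩
  apply Complex.ext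
  · simp
  · rw [Complex.ofReal_im]
    exact (tendsto_nhds_unique h2 tendsto_const_nhds)

/-- the sphere partition function is real and the limit of the gas. -/
theorem ZD_gas_real (n' : ℝ) (hN : 1 ≤ N) (r : ℕ) :
    ∃ z : ℝ, NUG.ZD n' (Sum.inr 0) (Sum.inr 1) (La N r) (Lb' N r) = z ∧
      Tendsto (fun m => GC hN r xc (n' / 2) (Om N m)) atTop (𝓝 z) :=
  real_of_tendsto ((ZD_gas (n' : ℂ) hN r).congr fun m => GC_cast hN r n' (Om N m))

/-- **the bound from above**: a bound of all gases is a bound of the sphere partition function. -/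
theorem norm_ZD_le {n' : ℝ} (hn' : 0 ≤ n') (hN : 1 ≤ N) (r : ℕ) {B : ℝ}
    (hB : ∀ m : ℕ, GC hN r xc (n' / 2) (Om N m) ≤ B) :
    ‖NUG.ZD n' (Sum.inr 0) (Sum.inr 1) (La N r) (Lb' N r)‖ ≤ B := by
  obtain ⟨z, h1, h2⟩ := ZD_gas_real n' hN r
  rw [h1, Complex.norm_real, Real.norm_eq_abs, abs_of_nonneg]
  · exact le_of_tendsto' h2 hB
  · exact ge_of_tendsto' h2 fun m => zero_le_one.trans (one_le_GC hN r (by positivity) _)

end Pool.Agent.NUNC
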