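import Pool.Agent.NUNC.Net
import Pool.Agent.NUN.LMain

/-!
# Labelled networks of the cylinder: the value of the network of a domain (module W8a, helper60)

`main_empty`: the network of the domain `A`, evaluated at the empty state, is `z A` if `z` satisfies the
recursion `Gas` of the gas of disjoint polygons with the weights `x ^ length * ν (label)`.
-/

set_option autoImplicit false

namespace Pool.Agent.NUF.Cyl

open Pool.Agent.EXL Pool.Agent.EXL.Net Pool.Agent.NUN Pool.Agent.NUF.LPat HexObs HexObs.LP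

namespace Nm

variable {C : Nm} {Γ K : Type*} [AddCommGroup Γ] [CommRing K]

/-! ### the polygons through a vertex -/

theorem thr_sum {M : Type*} [AddCommMonoid M] {A : Finset Pt} {v : Pt} (hv : C.nm v = v)
    (G : Finset (Pt × Pt) → M) :
    ∑ E ∈ C.thr A (C.rv (v, dv v)), G E + ∑ E ∈ C.thr A (C.rv (v, rotL (rotL (dv v)))), G E +
      ∑ E ∈ C.thr A (C.rv (v, rotR (rotR (dv v)))), G E =
      ∑ E ∈ (C.polys A).filter (fun E => v ∈ VE E), G E := by
  classical
  have hnb : ∀ d : Pt, C.nb (C.rv (v, d)) = v := by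
    intro d
    unfold nb rv
    simp only
    unfold nb
    simp only
    rw [C.add, add_neg_cancel_right, hv]
  have hu : ∀ {E : Finset (Pt × Pt)}, C.IsP E → ∀ {d d' : Pt}, C.rv (v, d) ∈ E → C.rv (v, d') ∈ E →
      d = d' := by
    intro E hE d d' h1 h2
    have h3 : v ∈ VE E := by
      have := hE.VE_nb h1
      rwa [hnb] at this
    obtain ⟨q, -, -, h4⟩ := hE.arr h3
    have h5 := (h4 _ h1 (hnb d)).trans (h4 _ h2 (hnb d')).symm
    have h6 := congrArg C.rv h5
    rw [rv_rv (by exact hv), rv_rv (by exact hv)] at h6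
    exact congrArg Prod.snd h6
  obtain ⟨n1, n2, n3⟩ := dv_ne v
  have hd1 : Disjoint (C.thr A (C.rv (v, dv v))) (C.thr A (C.rv (v, rotL (rotL (dv v))))) := by
    rw [Finset.disjoint_left]
    intro E h1 h2
    rw [mem_thr] at h1 h2
    exact n1 (hu h1.1.1 h2.2 h1.2)
  have hd2 : Disjoint (C.thr A (C.rv (v, dv v)) ∪ C.thr A (C.rv (v, rotL (rotL (dv v)))))
      (C.thr A (C.rv (v, rotR (rotR (dv v))))) := by
    rw [Finset.disjoint_left]
    intro E h1 h2
    rw [Finset.mem_union, mem_thr, mem_thr] at h1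
    rw [mem_thr] at h2
    rcases h1 with h1 | h1
    · exact n2 (hu h1.1.1 h2.2 h1.2)
    · exact n3 (hu h1.1.1 h1.2 h2.2)
  rw [← Finset.sum_union hd1, ← Finset.sum_union hd2]
  refine Finset.sum_congr ?_ fun _ _ => rfl
  ext E
  simp only [Finset.mem_union, thr, Finset.mem_filter]
  constructor
  · intro h
    have h1 : E ∈ C.polys A ∧ ∃ d, C.rv (v, d) ∈ E := by
      rcases h with (h | h) | h
      · exact ⟨h.1, _, h.2⟩
      · exact ⟨h.1, _, h.2⟩
      · exact ⟨h.1, _, h.2⟩
    obtain ⟨h1, d, h2⟩ := h1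
    refine ⟨h1, ?_⟩
    have := (mem_polys.1 h1).1.VE_nb h2
    rwa [hnb] at this
  · rintro ⟨h1, h2⟩
    have hE := (mem_polys.1 h1).1
    obtain ⟨q, hq, e, -⟩ := hE.arr h2
    have h4 := hE.de hq
    have e1 : q = C.rv (v, -q.2) := by
      have e2 : C.rv q = (v, -q.2) := Prod.ext e rfl
      rw [← e2, rv_rv h4.2]
    have h5 : C.De (v, -q.2) := by
      have := h4.rv'
      have e2 : C.rv q = (v, -q.2) := Prod.ext e rfl
      rwa [e2] at this
    rw [e1] at hq
    rcases NUN.dv_all h5.1 with h6 | h6 | h6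
    · rw [h6] at hq
      exact Or.inl (Or.inl ⟨h1, hq⟩)
    · rw [h6] at hq
      exact Or.inl (Or.inr ⟨h1, hq⟩)
    · rw [h6] at hq
      exact Or.inr ⟨h1, hq⟩

/-! ### the exploration -/

variable (C) in
/-- all edges that touch `A` belong to `E`. -/
def Incl (A : Finset Pt) (E : Finset (Sym2 Lab)) : Prop := ∀ w ∈ A, ∀ d, C.De (w, d) → C.ed (w, d) ∈ E

theorem Incl.erase {A : Finset Pt} {E : Finset (Sym2 Lab)} (h : C.Incl A E) {p : Pt × Pt}
    (hp : C.nm p.1 = p.1) (h1 : p.1 ∉ A) : C.Incl (A.erase (C.nb p)) (E.erase (C.ed p)) := by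
  intro u hu d hd
  rw [Finset.mem_erase] at hu ⊢
  refine ⟨?_, h u hu.2 d hd⟩
  rw [Ne, ed_eq hp, not_or]
  refine ⟨fun h => h1 ?_, fun h => hu.1 (congrArg Prod.fst h)⟩
  have := congrArg Prod.fst h
  simp only at this
  rw [← this]
  exact hu.2

theorem Incl.erase' {A : Finset Pt} {E : Finset (Sym2 Lab)} (h : C.Incl A E) {p : Pt × Pt}
    (hp : C.nm p.1 = p.1) (h1 : p.1 ∉ A) (h2 : C.nb p ∉ A) : C.Incl A (E.erase (C.ed p)) := by
  have h3 := h.erase hp h1
  rwa [Finset.erase_eq_of_notMem h2] at h3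

theorem Incl.sub {A : Finset Pt} {E : Finset (Sym2 Lab)} (h : C.Incl A E) (v : Pt) :
    C.Incl (A.erase v) E := fun u hu d hd => h u (Finset.mem_of_mem_erase hu) d hd

namespace Lb

variable (D : C.Lb Γ K)

theorem cO_empty {E : Finset (Sym2 Lab)} (hE : C.Edg E) (F : LPat Γ Lab → K) :
    D.cO E hE F LPat.empty = F LPat.empty := by
  refine Finset.noncommProd_induction E _ _ (fun B : LOp Γ K => ∀ F, B F LPat.empty = F LPat.empty)
    (fun a b ha hb F => (ha _).trans (hb F)) (fun F => rfl) (fun e he F => ?_) F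
  obtain ⟨h, h1, rfl⟩ := hE e he
  rw [D.cS_ed h1.2]
  exact lCo_empty _ _ _ _ _

/-- the network with the vertices `A` and the edges `E`. -/
noncomputable def Nt (x : K) (A : Finset Pt) (E : Finset (Sym2 Lab)) (hE : C.Edg E) : LOp Γ K :=
  lCR Γ x A * D.cO E hE

theorem Nt_in (x : K) {A : Finset Pt} {E : Finset (Sym2 Lab)} (hE : C.Edg E) {p : Pt × Pt}
    (hp : C.nm p.1 = p.1) (h1 : p.1 ∉ A) (h2 : C.ed p ∈ E) (hw : C.nb p ∈ A) :
    D.Nt x A E hE = lCrv Γ x (C.nb p) * (D.cS (C.ed p) *
      D.Nt x (A.erase (C.nb p)) (E.erase (C.ed p)) (hE.erase _)) := by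
  unfold Nt
  have c2 := D.cS_CR_comm (A := A.erase (C.nb p)) x hp (fun h => h1 (Finset.mem_of_mem_erase h))
    (Finset.notMem_erase _ A)
  rw [lCR_erase x hw, D.cO_erase hE h2]
  calc _ = lCrv Γ x (C.nb p) * (lCR Γ x (A.erase (C.nb p)) * D.cS (C.ed p)) *
      D.cO (E.erase (C.ed p)) (hE.erase (C.ed p)) := by simp only [mul_assoc]
    _ = _ := by
      rw [← c2.eq]
      simp only [mul_assoc]

theorem Nt_out (x : K) {A : Finset Pt} {E : Finset (Sym2 Lab)} (hE : C.Edg E) {p : Pt × Pt}
    (hp : C.nm p.1 = p.1) (h1 : p.1 ∉ A) (h2 : C.ed p ∈ E) (hw : C.nb p ∉ A) :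
    D.Nt x A E hE = D.cS (C.ed p) * D.Nt x A (E.erase (C.ed p)) (hE.erase _) := by
  unfold Nt
  have c2 := D.cS_CR_comm (A := A) x hp h1 hw
  rw [D.cO_erase hE h2]
  calc _ = (lCR Γ x A * D.cS (C.ed p)) * D.cO (E.erase (C.ed p)) (hE.erase (C.ed p)) := by
        simp only [mul_assoc]
    _ = _ := by
      rw [← c2.eq]
      simp only [mul_assoc]

variable {D}

theorem main {x : K} {z : Finset Pt → K} (hz : D.Gas x z) (h2 : ∀ a b : K, 2 * a = 2 * b → a = b)
    (n : ℕ) : ∀ A : Finset Pt, A.card = n → (∀ w ∈ A, Vt w ∧ C.nm w = w) →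
    (∀ (E : Finset (Sym2 Lab)) (hE : C.Edg E), C.Incl A E → ∀ F : LPat Γ Lab → K,
      D.Nt x A E hE F LPat.empty = z A * F LPat.empty) ∧
    (∀ (E : Finset (Sym2 Lab)) (hE : C.Edg E), C.Incl A E → ∀ (p q : Pt × Pt) (g : Γ), C.De p →
      p.1 ∉ A → q.1 ∉ A → p ≠ q → C.ed p ∈ E → ∀ F : LPat Γ Lab → K,
      D.Nt x A E hE F (arc (hf p) (hf q) g) = D.Pw x z A q g p * F LPat.empty) := by
  induction n with
  | zero =>
    intro A hA hV
    have hA' : A = ∅ := Finset.card_eq_zero.1 hA
    subst hA'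
    have a0 : ∀ (E : Finset (Sym2 Lab)) (hE : C.Edg E) (F : LPat Γ Lab → K),
        D.Nt x ∅ E hE F LPat.empty = z ∅ * F LPat.empty := by
      intro E hE F
      rw [hz.emp, one_mul]
      have e1 : lCR Γ x ∅ = 1 := Finset.noncommProd_empty _ _
      unfold Nt
      rw [e1, one_mul]
      exact D.cO_empty hE F
    refine ⟨fun E hE _ F => a0 E hE F, ?_⟩
    intro E hE hI p q g hp h1 h3 h4 h5 F
    rw [D.Pw_out x z q g hp.2 (Finset.notMem_empty _), D.Nt_out x hE hp.2 h1 h5 (Finset.notMem_empty _),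
      Module.End.mul_apply, D.cS_ed hp.2]
    by_cases c : C.rv p = q
    · subst c
      rw [if_pos rfl, lCo_close _ _ _ (by simpa using h4), a0, mul_assoc]
    · rw [if_neg c, zero_mul]
      exact lCo_arc _ _ _ (by simpa using h4) (by simpa using (rv_ne hp).symm) (by simpa using c) _
  | succ n ih =>
    intro A hA hV
    have ih' : ∀ v ∈ A, _ := fun v hv => ih (A.erase v) (by rw [Finset.card_erase_of_mem hv]; omega)
      (fun w hw => hV w (Finset.mem_of_mem_erase hw))
    have a0 : ∀ (E : Finset (Sym2 Lab)) (hE : C.Edg E), C.Incl A E → ∀ F : LPat Γ Lab → K,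
        D.Nt x A E hE F LPat.empty = z A * F LPat.empty := by
      intro E hE hI F
      obtain ⟨v, hv⟩ : A.Nonempty := Finset.card_pos.1 (by omega)
      obtain ⟨ia, ib⟩ := ih' v hv
      obtain ⟨hVv, hnv⟩ := hV v hv
      have dd : ∀ d : Pt, LP.De (v, d) → C.De (v, d) := fun d h => ⟨h, hnv⟩
      obtain ⟨d1', d2', d3'⟩ := NUN.dv_De hVv
      have d1 := dd _ d1'
      have d2 := dd _ d2'
      have d3 := dd _ d3'
      obtain ⟨n1, n2, n3⟩ := dv_ne v
      have hne := Finset.notMem_erase v A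
      set a := dv v with ha
      have r1 : ∀ d : Pt, rotL (-d) = rotR (rotR d) := by
        intro d
        refine Prod.ext ?_ ?_ <;> simp only [rotL, rotR, Prod.fst_neg, Prod.snd_neg] <;> ring
      have r2 : ∀ d : Pt, rotR (-d) = rotL (rotL d) := by
        intro d
        refine Prod.ext ?_ ?_ <;> simp only [rotL, rotR, Prod.fst_neg, Prod.snd_neg] <;> ring
      have s1 : rotL (rotL (rotL (rotL a))) = rotR (rotR a) := by
        refine Prod.ext ?_ ?_ <;> simp only [rotL, rotR] <;> ring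
      have s2 : rotR (rotR (rotL (rotL a))) = a := by
        refine Prod.ext ?_ ?_ <;> simp only [rotL, rotR] <;> ring
      have s3 : rotL (rotL (rotR (rotR a))) = a := by
        refine Prod.ext ?_ ?_ <;> simp only [rotL, rotR] <;> ring
      have s4 : rotR (rotR (rotR (rotR a))) = rotL (rotL a) := by
        refine Prod.ext ?_ ?_ <;> simp only [rotL, rotR] <;> ring
      have pc : ∀ d : Pt, C.De (v, d) → x * (D.Pw x z (A.erase v) (v, d) 0 (v, rotR (rotR d)) +
          D.Pw x z (A.erase v) (v, d) 0 (v, rotL (rotL d))) =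
          ∑ E ∈ C.thr A (C.rv (v, d)), x ^ E.card * (D.nu (D.lE E) * z (A \ VE E)) := by
        intro d hd
        have h3 : C.nb (C.rv (v, d)) = v := by
          unfold nb rv
          simp only
          unfold nb
          simp only
          rw [C.add, add_neg_cancel_right, hnv]
        have h4 := D.Pw_clo x z (A := A) hd.rv' (by rw [h3]; exact hv)
        rw [h3, rv_rv hd.2] at h4
        have h5 : (C.rv (v, d)).2 = -d := rfl
        rw [h5, r1, r2] at h4
        exact h4
      have p1 := pc _ d1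
      have p2 := pc _ d2
      have p3 := pc _ d3
      rw [s1, s2] at p2
      rw [s3, s4] at p3
      have q12 : (v, a) ≠ (v, rotL (rotL a)) := fun h => n1 (congrArg Prod.snd h).symm
      have q13 : (v, a) ≠ (v, rotR (rotR a)) := fun h => n2 (congrArg Prod.snd h).symm
      have q23 : (v, rotL (rotL a)) ≠ (v, rotR (rotR a)) := fun h => n3 (congrArg Prod.snd h)
      have hib := fun (p q : Pt × Pt) (hp : C.De p) (k1 : p.1 = v) (k2 : q.1 = v) (k3 : p ≠ q)
        (k4 : C.ed p ∈ E) => ib E hE (hI.sub v) p q 0 hp (by rw [k1]; exact hne)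
          (by rw [k2]; exact hne) k3 k4 F
      have e1 := hI v hv _ d1
      have e2 := hI v hv _ d2
      have e3 := hI v hv _ d3
      have u12 := hib _ _ d1 rfl rfl q12 e1
      have u21 := hib _ _ d2 rfl rfl q12.symm e2
      have u13 := hib _ _ d1 rfl rfl q13 e1
      have u31 := hib _ _ d3 rfl rfl q13.symm e3
      have u23 := hib _ _ d2 rfl rfl q23 e2
      have u32 := hib _ _ d3 rfl rfl q23.symm e3
      have l12 : (hf (v, a) : Lab) ≠ hf (v, rotL (rotL a)) := fun h => q12 (Sum.inl_injective h)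
      have l13 : (hf (v, a) : Lab) ≠ hf (v, rotR (rotR a)) := fun h => q13 (Sum.inl_injective h)
      have l23 : (hf (v, rotL (rotL a)) : Lab) ≠ hf (v, rotR (rotR a)) :=
        fun h => q23 (Sum.inl_injective h)
      have v12 := u12
      have v13 := u13
      have v23 := u23
      rw [arc_symm l12] at v12
      rw [arc_symm l13] at v13
      rw [arc_symm l23] at v23
      have u0 := ia E hE (hI.sub v) F
      have e : D.Nt x A E hE F LPat.empty = D.Nt x (A.erase v) E hE F LPat.empty + x *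
          (D.Nt x (A.erase v) E hE F (arc (hf (v, a)) (hf (v, rotL (rotL a))) 0) +
          D.Nt x (A.erase v) E hE F (arc (hf (v, a)) (hf (v, rotR (rotR a))) 0) +
          D.Nt x (A.erase v) E hE F (arc (hf (v, rotL (rotL a))) (hf (v, rotR (rotR a))) 0)) := by
        have e0 : D.Nt x A E hE = lCrv Γ x v * D.Nt x (A.erase v) E hE := by
          unfold Nt
          rw [lCR_erase x hv, mul_assoc]
        rw [e0, Module.End.mul_apply]
        exact lCr_empty x l12 l13 l23 _
      have hr := hz.step A v hV hv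
      rw [← thr_sum (v := v) hnv] at hr
      rw [← ha, ← p1, ← p2, ← p3] at hr
      apply h2
      rw [← mul_assoc, hr, e, u0, u12, u13, u23]
      have w12 := u21.symm.trans v12
      have w13 := u31.symm.trans v13
      have w23 := u32.symm.trans v23
      linear_combination (-x) * w12 + (-x) * w13 + (-x) * w23
    refine ⟨a0, ?_⟩
    intro E hE hI p q g hp h1 h3 h4 h5 F
    by_cases hw : C.nb p ∈ A
    · have hq : C.rv p ≠ q := fun h => h3 (by rw [← h]; exact hw)
      have hwp : C.nb p ≠ p.1 := fun h => h1 (by rw [← h]; exact hw)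
      obtain ⟨-, ib⟩ := ih' _ hw
      have hDw : C.De (C.nb p, -p.2) := hp.rv'
      have hrv : C.rv p = (C.nb p, -p.2) := rfl
      have r1 : rotL (rotL (-p.2)) = rotR p.2 := by
        refine Prod.ext ?_ ?_ <;> simp only [rotL, rotR, Prod.fst_neg, Prod.snd_neg] <;> ring
      have r2 : rotR (rotR (-p.2)) = rotL p.2 := by
        refine Prod.ext ?_ ?_ <;> simp only [rotL, rotR, Prod.fst_neg, Prod.snd_neg] <;> ring
      have hne : ∀ b : Bool, turn b p.2 ≠ -p.2 := by
        have key : ∀ d ∈ dirs, ∀ b : Bool, turn b d ≠ -d := by decide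
        exact key p.2 hp.1.1
      have hDt : ∀ b : Bool, C.De (C.nb p, turn b p.2) := fun b => De.turn (v := p.1) (d := p.2) hp b
      have hwq : ∀ d : Pt, (C.nb p, d) ≠ q := fun d h => h3 (by rw [← h]; exact hw)
      have hwp' : ∀ d : Pt, (C.nb p, d) ≠ p := fun d h => hwp (congrArg Prod.fst h)
      have hrec : ∀ b : Bool, D.Nt x (A.erase (C.nb p)) (E.erase (C.ed p)) (hE.erase _) F
          (arc (hf (C.nb p, turn b p.2)) (hf q) (g - D.lab p)) =
          D.Pw x z (A.erase (C.nb p)) q (g - D.lab p) (C.nb p, turn b p.2) *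
            F LPat.empty := by
        intro b
        refine ib _ _ (hI.erase hp.2 h1) _ q _ (hDt b) (Finset.notMem_erase _ _)
          (fun h => h3 (Finset.mem_of_mem_erase h)) (hwq _) ?_ F
        rw [Finset.mem_erase]
        refine ⟨?_, hI _ hw _ (hDt b)⟩
        rw [Ne, ed_eq hp.2, not_or]
        exact ⟨hwp' _, fun h => hne b (congrArg Prod.snd h)⟩
      rw [D.Nt_in x hE hp.2 h1 h5 hw, D.Pw_in x z g hp.2 hw hq]
      simp only [Module.End.mul_apply]
      rw [lCrv_eq x hDw.1, D.cS_ed hp.2, r1, r2, hrv]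
      have i1 : ∀ d : Pt, (hf (C.nb p, d) : Lab) ≠ hf p := fun d h => hwp' d (Sum.inl_injective h)
      have i2 : ∀ d : Pt, (hf (C.nb p, d) : Lab) ≠ hf q := fun d h => hwq d (Sum.inl_injective h)
      have i3 : (hf (C.nb p, -p.2) : Lab) ≠ hf (C.nb p, rotR p.2) :=
        fun h => hne false (congrArg Prod.snd (Sum.inl_injective h)).symm
      have i4 : (hf (C.nb p, -p.2) : Lab) ≠ hf (C.nb p, rotL p.2) :=
        fun h => hne true (congrArg Prod.snd (Sum.inl_injective h)).symm
      have m1 := hrec true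
      have m2 := hrec false
      have i0 : (hf p : Lab) ≠ hf q := fun h => h4 (Sum.inl_injective h)
      refine (step_in (D.lab p) g D.nu x i0 (i1 _) (i2 _) (i1 _) (i2 _) (i1 _) (i2 _) i3 i4 _).trans ?_
      change x * (_ + D.Nt x (A.erase (C.nb p)) (E.erase (C.ed p)) (hE.erase _) F
          (arc (hf (C.nb p, turn true p.2)) (hf q) (g - D.lab p))) = _
      rw [m1]
      change x * (D.Nt x (A.erase (C.nb p)) (E.erase (C.ed p)) (hE.erase _) F
          (arc (hf (C.nb p, turn false p.2)) (hf q) (g - D.lab p)) + _) = _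
      rw [m2]
      have t1 : turn true p.2 = rotL p.2 := rfl
      have t2 : turn false p.2 = rotR p.2 := rfl
      rw [t1, t2]
      ring
    · rw [D.Pw_out x z q g hp.2 hw, D.Nt_out x hE hp.2 h1 h5 hw, Module.End.mul_apply, D.cS_ed hp.2]
      by_cases c : C.rv p = q
      · subst c
        rw [if_pos rfl, lCo_close _ _ _ (by simpa using h4),
          a0 _ _ (hI.erase' hp.2 h1 hw) F, mul_assoc]
      · rw [if_neg c, zero_mul]
        exact lCo_arc _ _ _ (by simpa using h4) (by simpa using (rv_ne hp).symm) (by simpa using c) _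

/-- **The value of the network of a domain of the cylinder.** -/
theorem main_empty {x : K} {z : Finset Pt → K} (hz : D.Gas x z)
    (h2 : ∀ a b : K, 2 * a = 2 * b → a = b) {A : Finset Pt} (hA : ∀ w ∈ A, Vt w ∧ C.nm w = w)
    {E : Finset (Sym2 Lab)} (hE : C.Edg E) (hI : C.Incl A E) (F : LPat Γ Lab → K) :
    D.Nt x A E hE F LPat.empty = z A * F LPat.empty := (main hz h2 _ A rfl hA).1 E hE hI F

end Lb

end Nm

end Pool.Agent.NUF.Cyl
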