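import Pool.Agent.NUNC.Poly
import Pool.Agent.NUN.LNet

/-!
# Labelled networks of the cylinder (module W8a, helper60)

The edges carry labels in a group `Γ`; a closed loop has the weight `ν (sum of its labels)`.  `Pw` is the sum
over the words (self-avoiding on the cylinder) from the half edge `p` whose last edge is `rv q`, with the factor `z`
of the vertices that are not visited.
-/

set_option autoImplicit false

namespace Pool.Agent.NUF.Cyl

open Pool.Agent.EXL Pool.Agent.EXL.Net Pool.Agent.NUN Pool.Agent.NUF.LPat HexObs HexObs.LP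

namespace Nm

/-- the weights of the loops and the labels of the edges. -/
structure Lb (C : Nm) (Γ K : Type*) [AddCommGroup Γ] [CommRing K] where
  nu : Γ → K
  even : ∀ g, nu (-g) = nu g
  lab : Pt × Pt → Γ
  anti : ∀ h, C.nm h.1 = h.1 → lab (C.rv h) = - lab h

variable {C : Nm} {Γ K : Type*} [AddCommGroup Γ] [CommRing K]

theorem nm_rv (h : Pt × Pt) : C.nm (C.rv h).1 = (C.rv h).1 := C.nm_nb h

namespace Lb

variable (D : C.Lb Γ K)

/-- the label of the edge with the half edges `a`, `b` (0 if there is none). -/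
def lb : Lab → Lab → Γ
  | Sum.inl h, Sum.inl k => if C.nm h.1 = h.1 ∧ k = C.rv h then D.lab h else 0
  | _, _ => 0

theorem lb_anti (a b : Lab) : D.lb a b = - D.lb b a := by
  rcases a with h | b' <;> rcases b with k | b''
  · change (if C.nm h.1 = h.1 ∧ k = C.rv h then D.lab h else 0) =
      - (if C.nm k.1 = k.1 ∧ h = C.rv k then D.lab k else 0)
    by_cases c : C.nm h.1 = h.1 ∧ k = C.rv h
    · have c' : C.nm k.1 = k.1 ∧ h = C.rv k := by
        rw [c.2, rv_rv c.1]
        exact ⟨nm_rv h, rfl⟩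
      rw [if_pos c, if_pos c', c.2, D.anti h c.1, neg_neg]
    · have c' : ¬ (C.nm k.1 = k.1 ∧ h = C.rv k) := by
        rintro ⟨e1, e2⟩
        apply c
        rw [e2, rv_rv e1]
        exact ⟨nm_rv k, rfl⟩
      rw [if_neg c, if_neg c', neg_zero]
  · simp [lb]
  · simp [lb]
  · simp [lb]

theorem lb_rv {h : Pt × Pt} (hh : C.nm h.1 = h.1) : D.lb (hf h) (hf (C.rv h)) = D.lab h :=
  if_pos ⟨hh, rfl⟩

/-- contraction of an edge. -/
def cS : Sym2 Lab → LOp Γ K :=
  Sym2.lift ⟨fun a b => lCo D.nu (D.lb a b) a b, fun a b => by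
    by_cases h : a = b
    · subst h
      rfl
    · beta_reduce
      rw [lCo_symm D.even _ h, D.lb_anti a b, neg_neg]⟩

theorem cS_ed {h : Pt × Pt} (hh : C.nm h.1 = h.1) :
    D.cS (C.ed h) = lCo D.nu (D.lab h) (hf h) (hf (C.rv h)) := by
  have e : D.cS (C.ed h) = lCo D.nu (D.lb (hf h) (hf (C.rv h))) (hf h) (hf (C.rv h)) := rfl
  rw [e, D.lb_rv hh]

theorem cS_comm {h k : Pt × Pt} (hh : C.nm h.1 = h.1) (hk : C.nm k.1 = k.1) (h1 : C.ed h ≠ C.ed k) :
    Commute (D.cS (C.ed h)) (D.cS (C.ed k)) := by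
  rw [D.cS_ed hh, D.cS_ed hk]
  rw [Ne, ed_eq hk, not_or] at h1
  have h2 : C.rv h ≠ C.rv k := fun e => h1.1 (by rw [← rv_rv hh, e, rv_rv hk])
  have h3 : C.rv h ≠ k := fun e => h1.2 (by rw [← e, rv_rv hh])
  apply lCo_comm D.even
  · simp [h1.1]
  · simp [h1.2]
  · simp [h3]
  · simp [h2]

/-- all contractions of the edges in `E`. -/
noncomputable def cO (E : Finset (Sym2 Lab)) (hE : C.Edg E) : LOp Γ K :=
  E.noncommProd D.cS (fun e he f hf' h => by
    obtain ⟨a, ha, rfl⟩ := hE e he
    obtain ⟨b, hb, rfl⟩ := hE f hf'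
    exact D.cS_comm ha.2 hb.2 h)

theorem cO_erase {E : Finset (Sym2 Lab)} (hE : C.Edg E) {e : Sym2 Lab} (he : e ∈ E) :
    D.cO E hE = D.cS e * D.cO (E.erase e) (hE.erase e) :=
  (Finset.mul_noncommProd_erase E he _ _).symm

/-- the sum of the labels of the edges of a word (first and last edge included). -/
def ls (p : Pt × Pt) (t : List Bool) : Γ :=
  ∑ i ∈ Finset.range (t.length + 1), D.lab (C.nm (vx p.1 p.2 t i), dx p.2 t i)

theorem ls_nil {p : Pt × Pt} (hp : C.nm p.1 = p.1) : D.ls p [] = D.lab p := by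
  unfold ls
  simp only [List.length_nil, zero_add, Finset.range_one, Finset.sum_singleton]
  congr 1
  exact Prod.ext hp rfl

theorem ls_cons {p : Pt × Pt} (hp : C.nm p.1 = p.1) (b : Bool) (s : List Bool) :
    D.ls p (b :: s) = D.lab p + D.ls (C.nb p, turn b p.2) s := by
  unfold ls
  rw [List.length_cons, Finset.sum_range_succ', add_comm]
  congr 1
  · congr 1
    exact Prod.ext hp rfl
  · refine Finset.sum_congr rfl fun i _ => ?_
    rw [nm_vx_cons, Net.dx_cons]

end Lb

variable (C) in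
/-- the vertices of a word. -/
def vt (p : Pt × Pt) (t : List Bool) : Finset Pt :=
  (Finset.range t.length).image (fun i => C.nm (vx p.1 p.2 t (i + 1)))

theorem vt_nil (p : Pt × Pt) : C.vt p [] = ∅ := by
  simp [vt]

theorem vt_cons (p : Pt × Pt) (b : Bool) (s : List Bool) :
    C.vt p (b :: s) = insert (C.nb p) (C.vt (C.nb p, turn b p.2) s) := by
  unfold vt
  ext v
  simp only [Finset.mem_image, Finset.mem_range, Finset.mem_insert, List.length_cons]
  constructor
  · rintro ⟨i, hi, rfl⟩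
    rcases i with _ | i
    · exact Or.inl rfl
    · refine Or.inr ⟨i, by omega, ?_⟩
      rw [nm_vx_cons p]
  · rintro (rfl | ⟨i, hi, rfl⟩)
    · exact ⟨0, by omega, rfl⟩
    · refine ⟨i + 1, by omega, ?_⟩
      rw [nm_vx_cons p]

theorem Clo.vt {p : Pt × Pt} {t : List Bool} (h : C.Clo p t) : C.vt p t = VE (C.cE p t) := by
  ext v
  rw [mem_VE_cE]
  unfold Nm.vt
  simp only [Finset.mem_image, Finset.mem_range]
  constructor
  · rintro ⟨i, hi, rfl⟩
    by_cases c : i + 1 = t.length
    · exact ⟨0, by omega, by rw [c, h.zero]⟩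
    · exact ⟨i + 1, by omega, rfl⟩
  · rintro ⟨i, hi, rfl⟩
    rcases i with _ | i
    · refine ⟨t.length - 1, by omega, ?_⟩
      rw [Nat.sub_add_cancel h.pos, h.zero]
    · exact ⟨i, by omega, rfl⟩

namespace Lb

variable (D : C.Lb Γ K)

theorem cS_CR_comm (x : K) {A : Finset Pt} {p : Pt × Pt} (hp : C.nm p.1 = p.1) (h1 : p.1 ∉ A)
    (h2 : C.nb p ∉ A) : Commute (D.cS (C.ed p)) (lCR Γ x A) := by
  refine Finset.noncommProd_commute A _ _ _ (fun u hu => ?_)
  rw [D.cS_ed hp]
  refine (lCrv_lCo_comm x _ _ ?_ ?_).symm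
  · rintro rfl
    exact h1 hu
  · rintro rfl
    exact h2 hu

/-! ### the sum over the words -/

/-- the sum over the words from `p` with the last edge `rv q`; `g` = the label before the first edge. -/
noncomputable def Pw (x : K) (z : Finset Pt → K) (A : Finset Pt) (q : Pt × Pt) (g : Γ) (p : Pt × Pt) : K :=
  ∑ t ∈ (C.arr A p).filter (fun t => C.rv (C.le p t) = q),
    x ^ t.length * (D.nu (g - D.ls p t) * z (A \ C.vt p t))

theorem Pw_out (x : K) (z : Finset Pt → K) {A : Finset Pt} (q : Pt × Pt) (g : Γ) {p : Pt × Pt}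
    (hp : C.nm p.1 = p.1) (h : C.nb p ∉ A) :
    D.Pw x z A q g p = if C.rv p = q then D.nu (g - D.lab p) * z A else 0 := by
  unfold Pw
  have e : C.arr A p = {[]} := by
    ext t
    rw [mem_arr, Finset.mem_singleton]
    constructor
    · intro ht
      rcases t with _ | ⟨b, s⟩
      · rfl
      · exact absurd (arr_cons.1 ht).1 h
    · rintro rfl
      exact ⟨fun i h1 h2 => by simp at h2; omega, fun i k h1 h2 h3 => by simp at h3; omega⟩
  rw [e, Finset.filter_singleton, Nm.le_nil hp]
  split_ifs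
  · rw [Finset.sum_singleton, D.ls_nil hp, vt_nil, Finset.sdiff_empty]
    simp
  · simp

theorem Pw_in (x : K) (z : Finset Pt → K) {A : Finset Pt} {q : Pt × Pt} (g : Γ) {p : Pt × Pt}
    (hp : C.nm p.1 = p.1) (h : C.nb p ∈ A) (h' : C.rv p ≠ q) :
    D.Pw x z A q g p = x * (D.Pw x z (A.erase (C.nb p)) q (g - D.lab p) (C.nb p, rotL p.2) +
      D.Pw x z (A.erase (C.nb p)) q (g - D.lab p) (C.nb p, rotR p.2)) := by
  classical
  unfold Pw
  set A' := A.erase (C.nb p) with hA'
  have e : (C.arr A p).filter (fun t => C.rv (C.le p t) = q) =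
      ((C.arr A' (C.nb p, rotL p.2)).filter
        (fun t => C.rv (C.le (C.nb p, rotL p.2) t) = q)).image (List.cons true) ∪
      ((C.arr A' (C.nb p, rotR p.2)).filter
        (fun t => C.rv (C.le (C.nb p, rotR p.2) t) = q)).image (List.cons false) := by
    ext t
    simp only [Finset.mem_union, Finset.mem_image, Finset.mem_filter, mem_arr]
    constructor
    · rintro ⟨h1, h2⟩
      rcases t with _ | ⟨b, s⟩
      · rw [Nm.le_nil hp] at h2
        exact absurd h2 h'
      · rw [arr_cons] at h1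
        rw [Nm.le_cons] at h2
        cases b
        · exact Or.inr ⟨s, ⟨h1.2, h2⟩, rfl⟩
        · exact Or.inl ⟨s, ⟨h1.2, h2⟩, rfl⟩
    · rintro (⟨s, ⟨h1, h2⟩, rfl⟩ | ⟨s, ⟨h1, h2⟩, rfl⟩)
      · rw [arr_cons, Nm.le_cons]
        exact ⟨⟨h, h1⟩, h2⟩
      · rw [arr_cons, Nm.le_cons]
        exact ⟨⟨h, h1⟩, h2⟩
  have hd : Disjoint (((C.arr A' (C.nb p, rotL p.2)).filter
        (fun t => C.rv (C.le (C.nb p, rotL p.2) t) = q)).image (List.cons true))
      (((C.arr A' (C.nb p, rotR p.2)).filter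
        (fun t => C.rv (C.le (C.nb p, rotR p.2) t) = q)).image (List.cons false)) := by
    rw [Finset.disjoint_left]
    intro t h1 h2
    obtain ⟨s, -, rfl⟩ := Finset.mem_image.1 h1
    obtain ⟨r, -, hr⟩ := Finset.mem_image.1 h2
    simp at hr
  have hs : ∀ (b : Bool) (s : List Bool), A \ C.vt p (b :: s) = A' \ C.vt (C.nb p, turn b p.2) s := by
    intro b s
    rw [vt_cons, hA']
    ext v
    simp only [Finset.mem_sdiff, Finset.mem_insert, Finset.mem_erase]
    tauto
  rw [e, Finset.sum_union hd, Finset.sum_image (fun a _ b _ hab => List.cons_injective hab),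
    Finset.sum_image (fun a _ b _ hab => List.cons_injective hab), mul_add, Finset.mul_sum,
    Finset.mul_sum]
  refine congrArg₂ (· + ·) (Finset.sum_congr rfl fun s _ => ?_) (Finset.sum_congr rfl fun s _ => ?_)
  · rw [hs, D.ls_cons hp, List.length_cons, pow_succ', ← sub_sub]
    simp only [turn, mul_assoc]
    rfl
  · rw [hs, D.ls_cons hp, List.length_cons, pow_succ', ← sub_sub]
    simp only [turn, mul_assoc]
    rfl

/-- the label of a polygon. -/
noncomputable def lE (E : Finset (Pt × Pt)) : Γ := ∑ q ∈ E, D.lab q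

/-- the recursion of the gas of disjoint polygons (every polygon occurs twice, once for each orientation). -/
structure Gas (x : K) (z : Finset Pt → K) : Prop where
  emp : z ∅ = 1
  step : ∀ (A : Finset Pt) (v : Pt), (∀ w ∈ A, Vt w ∧ C.nm w = w) → v ∈ A → 2 * z A = 2 * z (A.erase v) +
    ∑ E ∈ (C.polys A).filter (fun E => v ∈ VE E), x ^ E.card * (D.nu (D.lE E) * z (A \ VE E))

theorem ls_clo {p : Pt × Pt} {b : Bool} {s : List Bool} (ht : C.Clo p (b :: s)) :
    D.ls (C.nb p, turn b p.2) s = D.lE (C.cE p (b :: s)) := by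
  have h1 := D.ls_cons ht.de.2 b s
  have h2 : D.ls p (b :: s) = (∑ i ∈ Finset.range (b :: s).length,
      D.lab (C.nm (vx p.1 p.2 (b :: s) i), dx p.2 (b :: s) i)) + D.lab p := by
    unfold ls
    rw [Finset.sum_range_succ]
    congr 2
    exact ht.le
  have h3 : D.lE (C.cE p (b :: s)) = ∑ i ∈ Finset.range (b :: s).length,
      D.lab (C.nm (vx p.1 p.2 (b :: s) i), dx p.2 (b :: s) i) := by
    unfold lE cE
    rw [Finset.sum_image]
    have h4 := ht.card
    unfold cE at h4
    exact Finset.card_image_iff.1 (by rw [h4, Finset.card_range])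
  rw [h3]
  rw [h2, add_comm] at h1
  exact (add_left_cancel h1).symm

/-- the words from a vertex to itself are the polygons through the half edge `p`. -/
theorem Pw_clo (x : K) (z : Finset Pt → K) {A : Finset Pt} {p : Pt × Pt} (hp : C.De p)
    (h : C.nb p ∈ A) :
    x * (D.Pw x z (A.erase (C.nb p)) (C.rv p) 0 (C.nb p, rotL p.2) +
      D.Pw x z (A.erase (C.nb p)) (C.rv p) 0 (C.nb p, rotR p.2)) =
      ∑ E ∈ C.thr A p, x ^ E.card * (D.nu (D.lE E) * z (A \ VE E)) := by
  classical
  rw [← clo_bij hp (fun t => x ^ t.length * (D.nu (D.lE (C.cE p t)) * z (A \ VE (C.cE p t))))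
    (fun E => x ^ E.card * (D.nu (D.lE E) * z (A \ VE E)))
    (fun t ht => by rw [((mem_clo' hp).1 ht).1.card])]
  unfold Pw
  set A' := A.erase (C.nb p) with hA'
  have hrv : ∀ (q : Pt × Pt) (t : List Bool), C.rv (C.le q t) = C.rv p ↔ C.le q t = p := by
    intro q t
    have h1 : C.nm (C.le q t).1 = (C.le q t).1 := C.idem _
    exact ⟨fun e => by rw [← rv_rv h1, e, rv_rv hp.2], fun e => by rw [e]⟩
  simp only [hrv]
  have e : C.clo A p =
      ((C.arr A' (C.nb p, rotL p.2)).filter
        (fun t => C.le (C.nb p, rotL p.2) t = p)).image (List.cons true) ∪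
      ((C.arr A' (C.nb p, rotR p.2)).filter
        (fun t => C.le (C.nb p, rotR p.2) t = p)).image (List.cons false) := by
    ext t
    rw [mem_clo]
    simp only [Finset.mem_union, Finset.mem_image, Finset.mem_filter, mem_arr]
    constructor
    · rintro ⟨h1, h3, h2⟩
      rcases t with _ | ⟨b, s⟩
      · simp at h3
      · rw [arr_cons] at h1
        rw [Nm.le_cons] at h2
        cases b
        · exact Or.inr ⟨s, ⟨h1.2, h2⟩, rfl⟩
        · exact Or.inl ⟨s, ⟨h1.2, h2⟩, rfl⟩
    · rintro (⟨s, ⟨h1, h2⟩, rfl⟩ | ⟨s, ⟨h1, h2⟩, rfl⟩)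
      · rw [arr_cons, Nm.le_cons]
        exact ⟨⟨h, h1⟩, by simp, h2⟩
      · rw [arr_cons, Nm.le_cons]
        exact ⟨⟨h, h1⟩, by simp, h2⟩
  have hd : Disjoint (((C.arr A' (C.nb p, rotL p.2)).filter
        (fun t => C.le (C.nb p, rotL p.2) t = p)).image (List.cons true))
      (((C.arr A' (C.nb p, rotR p.2)).filter
        (fun t => C.le (C.nb p, rotR p.2) t = p)).image (List.cons false)) := by
    rw [Finset.disjoint_left]
    intro t h1 h2
    obtain ⟨s, -, rfl⟩ := Finset.mem_image.1 h1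
    obtain ⟨r, -, hr⟩ := Finset.mem_image.1 h2
    simp at hr
  have key : ∀ (b : Bool) (s : List Bool), b :: s ∈ C.clo A p →
      x ^ (b :: s).length * (D.nu (D.lE (C.cE p (b :: s))) * z (A \ VE (C.cE p (b :: s)))) =
      x * (x ^ s.length * (D.nu (0 - D.ls (C.nb p, turn b p.2) s) *
        z (A' \ C.vt (C.nb p, turn b p.2) s))) := by
    intro b s ht
    have ht' := ((mem_clo' hp).1 ht).1
    have e1 : A \ VE (C.cE p (b :: s)) = A' \ C.vt (C.nb p, turn b p.2) s := by
      rw [← ht'.vt, vt_cons, hA']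
      ext v
      simp only [Finset.mem_sdiff, Finset.mem_insert, Finset.mem_erase]
      tauto
    rw [e1, D.ls_clo ht', zero_sub, D.even, List.length_cons, pow_succ']
    ring
  have k1 : ∀ s ∈ (C.arr A' (C.nb p, rotL p.2)).filter
      (fun t => C.le (C.nb p, rotL p.2) t = p), true :: s ∈ C.clo A p := by
    intro s hs
    rw [e, Finset.mem_union]
    exact Or.inl (Finset.mem_image_of_mem _ hs)
  have k2 : ∀ s ∈ (C.arr A' (C.nb p, rotR p.2)).filter
      (fun t => C.le (C.nb p, rotR p.2) t = p), false :: s ∈ C.clo A p := by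
    intro s hs
    rw [e, Finset.mem_union]
    exact Or.inr (Finset.mem_image_of_mem _ hs)
  rw [e, Finset.sum_union hd, Finset.sum_image (fun a _ b _ hab => List.cons_injective hab),
    Finset.sum_image (fun a _ b _ hab => List.cons_injective hab), mul_add, Finset.mul_sum,
    Finset.mul_sum]
  exact congrArg₂ (· + ·) (Finset.sum_congr rfl fun s hs => (key true s (k1 s hs)).symm)
    (Finset.sum_congr rfl fun s hs => (key false s (k2 s hs)).symm)

end Lb

end Nm

end Pool.Agent.NUF.Cyl
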