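import Pool.Agent.PLW.CylDefs

/-!
# Polygons of the honeycomb cylinder (module W8a, helper60)

`C : Nm` are the representatives modulo a translation group.  A polygon of the cylinder is the set of the half edges
of a closed word, all vertices different modulo the translations.  Every polygon occurs with both orientations.
-/

set_option autoImplicit false

namespace Pool.Agent.NUF.Cyl

open Pool.Agent.EXL Pool.Agent.EXL.Net HexObs HexObs.LP

namespace Nm

variable (C : Nm)

/-- the half edges of a word. -/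
noncomputable def cE (p : Pt × Pt) (t : List Bool) : Finset (Pt × Pt) :=
  (Finset.range t.length).image (fun i => (C.nm (vx p.1 p.2 t i), dx p.2 t i))

/-- the closed words from the half edge `p`. -/
structure Clo (p : Pt × Pt) (t : List Bool) : Prop where
  de : C.De p
  pos : 1 ≤ t.length
  le : C.le p t = p
  inj : ∀ i k, 1 ≤ i → i < k → k ≤ t.length → C.nm (vx p.1 p.2 t i) ≠ C.nm (vx p.1 p.2 t k)

/-- the polygons of the cylinder. -/
def IsP (E : Finset (Pt × Pt)) : Prop := ∃ p t, C.Clo p t ∧ C.cE p t = E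

/-- the polygons with all vertices in `A`. -/
noncomputable def polys (A : Finset Pt) : Finset (Finset (Pt × Pt)) := by
  classical
  exact (A ×ˢ dirs).powerset.filter C.IsP

/-- the polygons in `A` through the half edge `p`. -/
noncomputable def thr (A : Finset Pt) (p : Pt × Pt) : Finset (Finset (Pt × Pt)) :=
  (C.polys A).filter (fun E => p ∈ E)

/-- the closed words in `A` from `p`. -/
noncomputable def clo (A : Finset Pt) (p : Pt × Pt) : Finset (List Bool) := by
  classical
  exact (C.arr A p).filter (fun t => 1 ≤ t.length ∧ C.le p t = p)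

variable {C}

theorem mem_clo {A : Finset Pt} {p : Pt × Pt} {t : List Bool} :
    t ∈ C.clo A p ↔ C.Arr A p t ∧ 1 ≤ t.length ∧ C.le p t = p := by
  classical
  unfold clo
  rw [Finset.mem_filter, mem_arr]

theorem De_vx {p : Pt × Pt} (hp : C.De p) (t : List Bool) (i : ℕ) :
    C.De (C.nm (vx p.1 p.2 t i), dx p.2 t i) := by
  induction i with
  | zero =>
    have e : (C.nm (vx p.1 p.2 t 0), dx p.2 t 0) = p := Prod.ext hp.2 rfl
    rw [e]
    exact hp
  | succ i ih =>
    have h := De.turn ih (tf t i)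
    have e : C.nb (C.nm (vx p.1 p.2 t i), dx p.2 t i) = C.nm (vx p.1 p.2 t (i + 1)) := by
      unfold nb
      rw [C.add]
      rfl
    rw [e] at h
    exact h

theorem clo_nm {p : Pt × Pt} {t : List Bool} (h : C.le p t = p) :
    C.nm (vx p.1 p.2 t t.length) = p.1 ∧ dx p.2 t t.length = p.2 :=
  ⟨congrArg Prod.fst h, congrArg Prod.snd h⟩

/-- the first vertex is the last one. -/
theorem Clo.zero {p : Pt × Pt} {t : List Bool} (h : C.Clo p t) :
    C.nm (vx p.1 p.2 t 0) = C.nm (vx p.1 p.2 t t.length) := by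
  rw [(clo_nm h.le).1]
  exact h.de.2

theorem Clo.inj0 {p : Pt × Pt} {t : List Bool} (h : C.Clo p t) {i k : ℕ} (hi : i < t.length)
    (hk : k < t.length) (e : C.nm (vx p.1 p.2 t i) = C.nm (vx p.1 p.2 t k)) : i = k := by
  have key : ∀ i k : ℕ, i < k → k < t.length → C.nm (vx p.1 p.2 t i) ≠ C.nm (vx p.1 p.2 t k) := by
    intro i k hik hk e
    rcases Nat.eq_zero_or_pos i with h0 | h0
    · subst h0
      rw [h.zero] at e
      exact h.inj k t.length hik hk le_rfl e.symm
    · exact h.inj i k h0 hik (by omega) e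
  rcases lt_trichotomy i k with h1 | h1 | h1
  · exact absurd e (key i k h1 hk)
  · exact h1
  · exact absurd e.symm (key k i h1 hi)

theorem mem_cE {p : Pt × Pt} {t : List Bool} {q : Pt × Pt} :
    q ∈ C.cE p t ↔ ∃ i, i < t.length ∧ (C.nm (vx p.1 p.2 t i), dx p.2 t i) = q := by
  unfold cE
  simp only [Finset.mem_image, Finset.mem_range]

theorem mem_VE {E : Finset (Pt × Pt)} {v : Pt} : v ∈ VE E ↔ ∃ d, (v, d) ∈ E := by
  unfold VE
  rw [Finset.mem_image]
  constructor
  · rintro ⟨⟨a, b⟩, h, rfl⟩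
    exact ⟨b, h⟩
  · rintro ⟨d, h⟩
    exact ⟨_, h, rfl⟩

theorem mem_VE_cE {p : Pt × Pt} {t : List Bool} {v : Pt} :
    v ∈ VE (C.cE p t) ↔ ∃ i, i < t.length ∧ C.nm (vx p.1 p.2 t i) = v := by
  rw [mem_VE]
  constructor
  · rintro ⟨d, h⟩
    obtain ⟨i, hi, e⟩ := mem_cE.1 h
    exact ⟨i, hi, congrArg Prod.fst e⟩
  · rintro ⟨i, hi, rfl⟩
    exact ⟨_, mem_cE.2 ⟨i, hi, rfl⟩⟩

theorem Clo.card {p : Pt × Pt} {t : List Bool} (h : C.Clo p t) : (C.cE p t).card = t.length := by
  unfold cE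
  rw [Finset.card_image_of_injOn, Finset.card_range]
  intro i hi k hk e
  rw [Finset.mem_coe, Finset.mem_range] at hi hk
  exact h.inj0 hi hk (congrArg Prod.fst e)

theorem Clo.mem_self {p : Pt × Pt} {t : List Bool} (h : C.Clo p t) : p ∈ C.cE p t :=
  mem_cE.2 ⟨0, h.pos, Prod.ext h.de.2 rfl⟩

/-- there is one outgoing half edge at every vertex. -/
theorem Clo.fun {p : Pt × Pt} {t : List Bool} (h : C.Clo p t) {v d d' : Pt} (h1 : (v, d) ∈ C.cE p t)
    (h2 : (v, d') ∈ C.cE p t) : d = d' := by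
  obtain ⟨i, hi, e1⟩ := mem_cE.1 h1
  obtain ⟨k, hk, e2⟩ := mem_cE.1 h2
  have e3 := h.inj0 hi hk ((congrArg Prod.fst e1).trans (congrArg Prod.fst e2).symm)
  subst e3
  exact (congrArg Prod.snd e1).symm.trans (congrArg Prod.snd e2)

theorem IsP.fun {E : Finset (Pt × Pt)} (h : C.IsP E) {v d d' : Pt} (h1 : (v, d) ∈ E)
    (h2 : (v, d') ∈ E) : d = d' := by
  obtain ⟨p, t, h3, rfl⟩ := h
  exact h3.fun h1 h2

theorem Clo.deE {p : Pt × Pt} {t : List Bool} (h : C.Clo p t) {q : Pt × Pt} (hq : q ∈ C.cE p t) : C.De q := by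
  obtain ⟨i, hi, rfl⟩ := mem_cE.1 hq
  exact De_vx h.de t i

theorem IsP.de {E : Finset (Pt × Pt)} (h : C.IsP E) {q : Pt × Pt} (hq : q ∈ E) : C.De q := by
  obtain ⟨p, t, h3, rfl⟩ := h
  exact h3.deE hq

theorem IsP.nonempty {E : Finset (Pt × Pt)} (h : C.IsP E) : E.Nonempty := by
  obtain ⟨p, t, h3, rfl⟩ := h
  exact ⟨p, h3.mem_self⟩

theorem IsP.VE_nonempty {E : Finset (Pt × Pt)} (h : C.IsP E) : (VE E).Nonempty := by
  obtain ⟨q, hq⟩ := h.nonempty
  exact ⟨q.1, Finset.mem_image_of_mem _ hq⟩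

theorem mem_polys {A : Finset Pt} {E : Finset (Pt × Pt)} : E ∈ C.polys A ↔ C.IsP E ∧ VE E ⊆ A := by
  classical
  unfold polys
  rw [Finset.mem_filter, Finset.mem_powerset]
  constructor
  · rintro ⟨h1, h2⟩
    refine ⟨h2, fun v hv => ?_⟩
    obtain ⟨d, hd⟩ := mem_VE.1 hv
    exact (Finset.mem_product.1 (h1 hd)).1
  · rintro ⟨h1, h2⟩
    refine ⟨fun q hq => Finset.mem_product.2 ⟨h2 (Finset.mem_image_of_mem _ hq), (h1.de hq).1.1⟩, h1⟩

theorem mem_thr {A : Finset Pt} {p : Pt × Pt} {E : Finset (Pt × Pt)} :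
    E ∈ C.thr A p ↔ (C.IsP E ∧ VE E ⊆ A) ∧ p ∈ E := by
  unfold thr
  rw [Finset.mem_filter, mem_polys]

/-! ### rotation of the words -/

theorem nm_vx_cons (p : Pt × Pt) (b : Bool) (s : List Bool) (i : ℕ) :
    C.nm (vx p.1 p.2 (b :: s) (i + 1)) = C.nm (vx (C.nb p) (turn b p.2) s i) := by
  unfold nb
  rw [Net.vx_cons, nm_vx]

theorem tf_app {s : List Bool} {b : Bool} {i : ℕ} (hi : i < s.length) : tf (s ++ [b]) i = tf s i := by
  unfold tf
  rw [List.getD_eq_getElem _ _ (by simp; omega), List.getD_eq_getElem _ _ hi]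
  exact List.getElem_append_left hi

theorem tf_last (s : List Bool) (b : Bool) : tf (s ++ [b]) s.length = b := by
  unfold tf
  rw [List.getD_eq_getElem _ _ (by simp)]
  simp

theorem dx_app (d : Pt) {s : List Bool} (b : Bool) {i : ℕ} (hi : i ≤ s.length) :
    dx d (s ++ [b]) i = dx d s i := by
  induction i with
  | zero => rfl
  | succ i ih =>
    change turn (tf (s ++ [b]) i) (dx d (s ++ [b]) i) = turn (tf s i) (dx d s i)
    rw [ih (by omega), tf_app (by omega)]

theorem vx_app (v d : Pt) {s : List Bool} (b : Bool) {i : ℕ} (hi : i ≤ s.length) :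
    vx v d (s ++ [b]) i = vx v d s i := by
  induction i with
  | zero => rfl
  | succ i ih =>
    change vx v d (s ++ [b]) i + dx d (s ++ [b]) i = vx v d s i + dx d s i
    rw [ih (by omega), dx_app d b (by omega)]

theorem Clo.rot1 {p : Pt × Pt} {b : Bool} {s : List Bool} (h : C.Clo p (b :: s)) :
    C.Clo (C.nb p, turn b p.2) (s ++ [b]) ∧ C.cE (C.nb p, turn b p.2) (s ++ [b]) = C.cE p (b :: s) := by
  obtain ⟨h1, h2⟩ := clo_nm h.le
  rw [List.length_cons] at h1 h2
  have a1 : ∀ i, i ≤ s.length → C.nm (vx (C.nb p) (turn b p.2) (s ++ [b]) i) =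
      C.nm (vx p.1 p.2 (b :: s) (i + 1)) := by
    intro i hi
    rw [vx_app _ _ b hi, nm_vx_cons]
  have a2 : ∀ i, i ≤ s.length → dx (turn b p.2) (s ++ [b]) i = dx p.2 (b :: s) (i + 1) := by
    intro i hi
    rw [dx_app _ b hi, Net.dx_cons]
  have a3 : C.nm (vx (C.nb p) (turn b p.2) (s ++ [b]) (s.length + 1)) = C.nb p := by
    change C.nm (vx (C.nb p) (turn b p.2) (s ++ [b]) s.length + dx (turn b p.2) (s ++ [b]) s.length) = _
    rw [← C.add, a1 _ le_rfl, a2 _ le_rfl, h1, h2]
    rfl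
  have a4 : dx (turn b p.2) (s ++ [b]) (s.length + 1) = turn b p.2 := by
    change turn (tf (s ++ [b]) s.length) (dx (turn b p.2) (s ++ [b]) s.length) = _
    rw [a2 _ le_rfl, h2, tf_last]
  have l1 : (s ++ [b]).length = s.length + 1 := by simp
  have hde : C.De (C.nb p, turn b p.2) := De.turn (v := p.1) (d := p.2) h.de b
  have n1 : C.nm (vx p.1 p.2 (b :: s) 1) = C.nb p := rfl
  refine ⟨⟨hde, by omega, ?_, ?_⟩, ?_⟩
  · unfold Nm.le
    rw [l1]
    exact Prod.ext a3 a4
  · intro i k hi hik hk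
    rw [l1] at hk
    rcases Nat.lt_or_ge s.length k with c | c
    · have hk' : k = s.length + 1 := by omega
      subst hk'
      show C.nm (vx (C.nb p) (turn b p.2) (s ++ [b]) i) ≠ C.nm (vx (C.nb p) (turn b p.2) (s ++ [b]) (s.length + 1))
      rw [a1 i (by omega), a3, ← n1]
      exact (h.inj 1 (i + 1) le_rfl (by omega) (by simp; omega)).symm
    · show C.nm (vx (C.nb p) (turn b p.2) (s ++ [b]) i) ≠ C.nm (vx (C.nb p) (turn b p.2) (s ++ [b]) k)
      rw [a1 i (by omega), a1 k c]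
      exact h.inj (i + 1) (k + 1) (by omega) (by omega) (by simp; omega)
  · ext q
    rw [mem_cE, mem_cE]
    simp only [l1, List.length_cons]
    constructor
    · rintro ⟨i, hi, rfl⟩
      rw [a1 i (by omega), a2 i (by omega)]
      by_cases c : i = s.length
      · subst c
        refine ⟨0, by omega, ?_⟩
        rw [h1, h2]
        exact Prod.ext h.de.2 rfl
      · exact ⟨i + 1, by omega, rfl⟩
    · rintro ⟨i, hi, rfl⟩
      rcases i with _ | i
      · refine ⟨s.length, by omega, ?_⟩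
        rw [a1 _ le_rfl, a2 _ le_rfl, h1, h2]
        exact (Prod.ext h.de.2 rfl : (C.nm (vx p.1 p.2 (b :: s) 0), dx p.2 (b :: s) 0) = p).symm
      · refine ⟨i, by omega, ?_⟩
        rw [a1 _ (by omega), a2 _ (by omega)]

theorem Clo.rot {p : Pt × Pt} {t : List Bool} (h : C.Clo p t) {i : ℕ} (hi : i < t.length) :
    ∃ t', C.Clo (C.nm (vx p.1 p.2 t i), dx p.2 t i) t' ∧
      C.cE (C.nm (vx p.1 p.2 t i), dx p.2 t i) t' = C.cE p t ∧ t'.length = t.length := by
  induction i generalizing p t with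
  | zero =>
    have e : (C.nm (vx p.1 p.2 t 0), dx p.2 t 0) = p := Prod.ext h.de.2 rfl
    rw [e]
    exact ⟨t, h, rfl, rfl⟩
  | succ i ih =>
    rcases t with _ | ⟨b, s⟩
    · simp at hi
    · obtain ⟨h1, h2⟩ := h.rot1
      have h3 : i < (s ++ [b]).length := by
        simp only [List.length_cons] at hi
        simp only [List.length_append, List.length_singleton]
        omega
      obtain ⟨t', h4, h5, h6⟩ := ih h1 h3
      have e1 : C.nm (vx (C.nb p) (turn b p.2) (s ++ [b]) i) = C.nm (vx p.1 p.2 (b :: s) (i + 1)) := by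
        simp only [List.length_cons] at hi
        rw [vx_app _ _ b (by omega), nm_vx_cons]
      have e2 : dx (turn b p.2) (s ++ [b]) i = dx p.2 (b :: s) (i + 1) := by
        simp only [List.length_cons] at hi
        rw [dx_app _ b (by omega), Net.dx_cons]
      simp only [e1, e2] at h4 h5
      refine ⟨t', h4, h5.trans h2, ?_⟩
      rw [h6]
      simp

/-- a polygon is a closed word from each of its half edges. -/
theorem IsP.root {E : Finset (Pt × Pt)} (h : C.IsP E) {q : Pt × Pt} (hq : q ∈ E) :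
    ∃ t, C.Clo q t ∧ C.cE q t = E := by
  obtain ⟨p, t, h1, rfl⟩ := h
  obtain ⟨i, hi, rfl⟩ := mem_cE.1 hq
  obtain ⟨t', h2, h3, -⟩ := h1.rot hi
  exact ⟨t', h2, h3⟩

/-! ### closed words and polygons -/

theorem Clo.arr {A : Finset Pt} {p : Pt × Pt} {t : List Bool} (h : C.Clo p t) :
    C.Arr A p t ↔ VE (C.cE p t) ⊆ A := by
  constructor
  · intro h1 v hv
    obtain ⟨i, hi, rfl⟩ := mem_VE_cE.1 hv
    rcases Nat.eq_zero_or_pos i with h0 | h0
    · subst h0
      rw [h.zero]
      exact h1.mem _ h.pos le_rfl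
    · exact h1.mem i h0 (by omega)
  · intro h1
    refine ⟨fun i hi hk => ?_, h.inj⟩
    rcases Nat.lt_or_ge i t.length with c | c
    · exact h1 (mem_VE_cE.2 ⟨i, c, rfl⟩)
    · have e : i = t.length := by omega
      subst e
      rw [← h.zero]
      exact h1 (mem_VE_cE.2 ⟨0, h.pos, rfl⟩)

theorem mem_clo' {A : Finset Pt} {p : Pt × Pt} (hp : C.De p) {t : List Bool} :
    t ∈ C.clo A p ↔ C.Clo p t ∧ VE (C.cE p t) ⊆ A := by
  rw [mem_clo]
  constructor
  · rintro ⟨h1, h2, h3⟩
    have h4 : C.Clo p t := ⟨hp, h2, h3, h1.inj⟩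
    exact ⟨h4, h4.arr.1 h1⟩
  · rintro ⟨h1, h2⟩
    exact ⟨h1.arr.2 h2, h1.pos, h1.le⟩

theorem ext_word {t t' : List Bool} (hl : t.length = t'.length) (h : ∀ i, i < t.length → tf t i = tf t' i) :
    t = t' := by
  apply List.ext_getElem hl
  intro i h1 h2
  have := h i h1
  unfold tf at this
  rwa [List.getD_eq_getElem _ _ h1, List.getD_eq_getElem _ _ h2] at this

theorem turn_b : ∀ d ∈ dirs, ∀ b b' : Bool, turn b d = turn b' d → b = b' := by
  decide

theorem Clo.ext {p : Pt × Pt} {t t' : List Bool} (ht : C.Clo p t) (ht' : C.Clo p t')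
    (h : C.cE p t = C.cE p t') : t = t' := by
  have hl : t.length = t'.length := by
    rw [← ht.card, ← ht'.card, h]
  have key : ∀ i, i < t.length → C.nm (vx p.1 p.2 t i) = C.nm (vx p.1 p.2 t' i) ∧
      dx p.2 t i = dx p.2 t' i := by
    intro i
    induction i with
    | zero =>
      intro _
      exact ⟨rfl, rfl⟩
    | succ i ih =>
      intro hi
      obtain ⟨e1, e2⟩ := ih (by omega)
      have e3 : C.nm (vx p.1 p.2 t (i + 1)) = C.nm (vx p.1 p.2 t' (i + 1)) := by
        change C.nm (vx p.1 p.2 t i + dx p.2 t i) = C.nm (vx p.1 p.2 t' i + dx p.2 t' i)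
        rw [← C.add, e1, e2, C.add]
      have m1 : (C.nm (vx p.1 p.2 t (i + 1)), dx p.2 t (i + 1)) ∈ C.cE p t := mem_cE.2 ⟨i + 1, hi, rfl⟩
      have m2 : (C.nm (vx p.1 p.2 t' (i + 1)), dx p.2 t' (i + 1)) ∈ C.cE p t := by
        rw [h]
        exact mem_cE.2 ⟨i + 1, by omega, rfl⟩
      rw [e3] at m1
      exact ⟨e3, ht.fun m1 m2⟩
  have key2 : ∀ i, i ≤ t.length → dx p.2 t i = dx p.2 t' i := by
    intro i hi
    rcases Nat.lt_or_ge i t.length with h1 | h1
    · exact (key i h1).2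
    · have e : i = t.length := by omega
      subst e
      rw [(clo_nm ht.le).2, hl, (clo_nm ht'.le).2]
  apply ext_word hl
  intro i hi
  have a1 : dx p.2 t (i + 1) = turn (tf t i) (dx p.2 t i) := rfl
  have a2 : dx p.2 t' (i + 1) = turn (tf t' i) (dx p.2 t' i) := rfl
  have a3 := key2 (i + 1) (by omega)
  rw [a1, a2, ← key2 i (by omega)] at a3
  exact turn_b _ (De_vx ht.de t i).1.1 _ _ a3

/-- closed words and polygons. -/
theorem clo_bij {A : Finset Pt} {p : Pt × Pt} (hp : C.De p) {α : Type*} [AddCommMonoid α]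
    (F : List Bool → α) (G : Finset (Pt × Pt) → α) (h : ∀ t ∈ C.clo A p, F t = G (C.cE p t)) :
    ∑ t ∈ C.clo A p, F t = ∑ E ∈ C.thr A p, G E := by
  apply Finset.sum_bij (fun t _ => C.cE p t)
  · intro t ht
    obtain ⟨h1, h2⟩ := (mem_clo' hp).1 ht
    exact mem_thr.2 ⟨⟨⟨p, t, h1, rfl⟩, h2⟩, h1.mem_self⟩
  · intro t ht t' ht' e
    exact ((mem_clo' hp).1 ht).1.ext ((mem_clo' hp).1 ht').1 e
  · intro E hE
    obtain ⟨⟨h1, h2⟩, h3⟩ := mem_thr.1 hE
    obtain ⟨t, h4, rfl⟩ := h1.root h3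
    exact ⟨t, (mem_clo' hp).2 ⟨h4, h2⟩, rfl⟩
  · exact h

/-! ### the half edges that arrive at a vertex -/

theorem IsP.arr {E : Finset (Pt × Pt)} (h : C.IsP E) {v : Pt} (hv : v ∈ VE E) :
    ∃ q ∈ E, C.nb q = v ∧ ∀ q' ∈ E, C.nb q' = v → q' = q := by
  obtain ⟨d, hd⟩ := mem_VE.1 hv
  obtain ⟨t, h1, rfl⟩ := h.root hd
  have h2 := h1.pos
  have hl : t.length - 1 + 1 = t.length := Nat.sub_add_cancel h2
  have nbi : ∀ i, C.nb (C.nm (vx v d t i), dx d t i) = C.nm (vx v d t (i + 1)) := by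
    intro i
    unfold nb
    rw [C.add]
    rfl
  have hv' : C.nm (vx v d t t.length) = v := (clo_nm h1.le).1
  refine ⟨(C.nm (vx v d t (t.length - 1)), dx d t (t.length - 1)), mem_cE.2 ⟨_, by omega, rfl⟩, ?_, ?_⟩
  · rw [nbi, hl]
    exact hv'
  · intro q' hq' e
    obtain ⟨i, hi, rfl⟩ := mem_cE.1 hq'
    have e1 : C.nm (vx v d t (i + 1)) = v := (nbi i).symm.trans e
    have e2 : i + 1 = t.length := by
      by_contra c
      exact h1.inj (i + 1) t.length (by omega) (by omega) le_rfl (e1.trans hv'.symm)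
    have e3 : i = t.length - 1 := by omega
    subst e3
    rfl

theorem IsP.VE_nb {E : Finset (Pt × Pt)} (h : C.IsP E) {q : Pt × Pt} (hq : q ∈ E) : C.nb q ∈ VE E := by
  obtain ⟨t, h1, rfl⟩ := h.root hq
  have h2 := h1.pos
  have h3 : C.nb q = C.nm (vx q.1 q.2 t 1) := rfl
  rw [h3, mem_VE_cE]
  rcases Nat.lt_or_ge 1 t.length with c | c
  · exact ⟨1, c, rfl⟩
  · have e : t.length = 1 := by omega
    refine ⟨0, by omega, ?_⟩
    rw [h1.zero, e]

/-! ### the same polygons with periodic turns (definition of `PLW/CylDefs`) -/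

theorem nm_vs (v d : Pt) (τ : ℕ → Bool) (i : ℕ) : C.nm (vs (C.nm v) d τ i) = C.nm (vs v d τ i) := by
  induction i with
  | zero => exact C.idem v
  | succ i ih =>
    change C.nm (vs (C.nm v) d τ i + ds d τ i) = C.nm (vs v d τ i + ds d τ i)
    rw [← C.add (vs (C.nm v) d τ i), ih, C.add]

theorem ds_tau {d : Pt} {t : List Bool} {i : ℕ} (hi : i ≤ t.length) :
    ds d (fun j => tf t (j % t.length)) i = dx d t i := by
  unfold dx
  apply ds_congr
  intro k hk
  show tf t (k % t.length) = tf t k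
  rw [Nat.mod_eq_of_lt (by omega)]

theorem vs_tau {v d : Pt} {t : List Bool} {i : ℕ} (hi : i ≤ t.length + 1) :
    vs v d (fun j => tf t (j % t.length)) i = vx v d t i := by
  unfold vx
  apply vs_congr
  intro k hk
  show tf t (k % t.length) = tf t k
  rw [Nat.mod_eq_of_lt (by omega)]

theorem isP_iff {E : Finset (Pt × Pt)} : C.IsP E ↔ IsCPoly C E := by
  constructor
  · rintro ⟨p, t, h, rfl⟩
    obtain ⟨h1, h2⟩ := clo_nm h.le
    refine ⟨p.1, p.2, fun j => tf t (j % t.length), t.length, ⟨h.pos, h.de.1, ?_, ?_, ?_, ?_⟩, ?_⟩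
    · intro i
      show tf t ((i + t.length) % t.length) = tf t (i % t.length)
      rw [Nat.add_mod_right]
    · rw [vs_tau (by omega), h1, h.de.2]
    · rw [ds_tau le_rfl, h2]
    · intro i k hik hk e
      rw [vs_tau (by omega), vs_tau (by omega)] at e
      have := h.inj0 (by omega) hk e
      omega
    · unfold cE cpe
      apply Finset.image_congr
      intro i hi
      rw [Finset.mem_coe, Finset.mem_range] at hi
      show (C.nm (vx p.1 p.2 t i), dx p.2 t i) =
        (C.nm (vs p.1 p.2 (fun j => tf t (j % t.length)) i), ds p.2 (fun j => tf t (j % t.length)) i)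
      rw [vs_tau (by omega), ds_tau (by omega)]
  · rintro ⟨v, d, τ, m, h, rfl⟩
    obtain ⟨t, htd⟩ : ∃ t : List Bool, t = List.ofFn (fun i : Fin m => τ i) := ⟨_, rfl⟩
    have hlen : t.length = m := by
      rw [htd, List.length_ofFn]
    have htf : ∀ i, i < m → tf t i = τ i := by
      intro i hi
      unfold tf
      rw [List.getD_eq_getElem _ _ (by omega)]
      simp [htd]
    have hvx : ∀ i, i ≤ m → C.nm (vx (C.nm v) d t i) = C.nm (vs v d τ i) := by
      intro i hi
      rw [nm_vx]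
      unfold vx
      rw [vs_congr i (fun k hk => htf k (by omega))]
    have hdx : ∀ i, i ≤ m → dx d t i = ds d τ i := by
      intro i hi
      unfold dx
      exact ds_congr i (fun k hk => htf k (by omega))
    have hpos := h.pos
    have hde : C.De (C.nm v, d) := by
      obtain ⟨h1, h2, h3⟩ := h.de
      refine ⟨⟨h1, vt_nm.2 h2, ?_⟩, C.idem v⟩
      show Vt (C.nm v + d)
      rw [← vt_nm (C := C), C.add, vt_nm]
      exact h3
    refine ⟨(C.nm v, d), t, ⟨hde, by omega, ?_, ?_⟩, ?_⟩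
    · unfold Nm.le
      simp only
      rw [hlen, hvx m le_rfl, hdx m le_rfl, h.clv, h.cld]
    · intro i k hi hik hk
      rw [hlen] at hk
      show C.nm (vx (C.nm v) d t i) ≠ C.nm (vx (C.nm v) d t k)
      rw [hvx i (by omega), hvx k (by omega)]
      rcases Nat.lt_or_ge k m with c | c
      · exact h.inj i k hik c
      · have e : k = m := by omega
        subst e
        rw [h.clv]
        exact (h.inj 0 i hi hik).symm
    · unfold cE cpe
      rw [hlen]
      apply Finset.image_congr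
      intro i hi
      rw [Finset.mem_coe, Finset.mem_range] at hi
      show (C.nm (vx (C.nm v) d t i), dx d t i) = (C.nm (vs v d τ i), ds d τ i)
      rw [hvx i (by omega), hdx i (by omega)]

theorem mem_polys' {A : Finset Pt} {E : Finset (Pt × Pt)} : E ∈ C.polys A ↔ IsCPoly C E ∧ VE E ⊆ A := by
  rw [mem_polys, isP_iff]

/-- the vertices of a polygon are representatives. -/
theorem IsP.nm_VE {E : Finset (Pt × Pt)} (h : C.IsP E) {v : Pt} (hv : v ∈ VE E) : C.nm v = v ∧ Vt v := by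
  obtain ⟨d, hd⟩ := mem_VE.1 hv
  exact ⟨(h.de hd).2, (h.de hd).1.2.1⟩

end Nm

end Pool.Agent.NUF.Cyl
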