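import Pool.Agent.PLW.Mid
import Pool.Agent.PLW.BoxPP
import Pool.Agent.NUNC.Gas

/-!
NUNC: the gas of the polygons with the label 1 on the cylinder with `4 k` rows is at most a constant times the square of
the gas of nested polygons of a planar parallelogram (module W8c of doc zf/WIND, assembly).
-/

set_option autoImplicit false

namespace Pool.Agent.NUF.Cyl

open Finset HexObs HexObs.LP Pool.Agent.NUN Pool.Agent.PLW

/-- the vertices of the box `Bx f s`. -/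
noncomputable def Bq (f : Pt) (s : ℕ) : Finset Pt := by
  classical
  exact Finset.filter (fun v : Pt => Vt v) (Finset.Icc (f.1 - s) (f.1 + s) ×ˢ Finset.Icc (f.2 - s) (f.2 + s))

theorem mem_Bq {f : Pt} {s : ℕ} {v : Pt} : v ∈ Bq f s ↔ Vt v ∧ Bx f s v := by
  classical
  unfold Bq Bx
  rw [mem_filter, mem_product, mem_Icc, mem_Icc, Prod.fst_sub, Prod.snd_sub, abs_le, abs_le]
  constructor
  · rintro ⟨⟨⟨h1, h2⟩, h3, h4⟩, h5⟩
    exact ⟨h5, ⟨by linarith, by linarith⟩, by linarith, by linarith⟩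
  · rintro ⟨h5, ⟨h1, h2⟩, h3, h4⟩
    exact ⟨⟨⟨by linarith, by linarith⟩, by linarith, by linarith⟩, h5⟩

theorem Bq_inj {N : ℕ} (hN : 1 ≤ N) {f : Pt} {s : ℕ} (h : 2 * s < N) : Set.InjOn (Cy N hN).nm (Bq f s : Set Pt) := by
  intro v hv w hw e
  obtain ⟨-, h1⟩ := mem_Bq.1 (mem_coe.1 hv)
  obtain ⟨-, h2⟩ := mem_Bq.1 (mem_coe.1 hw)
  obtain ⟨j, hj⟩ := (nm_eq_iff hN v w).1 e
  unfold Bx at h1 h2
  rw [abs_le, abs_le] at h1 h2
  have e1 : v.1 = w.1 + j * N := by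
    rw [hj]
    simp [PN]
  have hN' : (1 : ℤ) ≤ N := by exact_mod_cast hN
  have hs : (2 * s : ℤ) < N := by exact_mod_cast h
  simp only [Prod.fst_sub, Prod.snd_sub] at h1 h2
  have h0 : j = 0 := by
    by_contra hne
    rcases lt_or_gt_of_ne hne with h3 | h3
    · have : j * (N : ℤ) ≤ -N := by nlinarith
      linarith [h1.1.1, h2.1.2]
    · have : (N : ℤ) ≤ j * N := by nlinarith
      linarith [h1.1.2, h2.1.1]
  rw [hj, h0, zero_smul, add_zero]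

theorem NF_Bq {x : ℝ} (hx : 0 ≤ x) (r k : ℕ) (hk : 1 ≤ k) :
    NUN.NF xc (x / 2) (fc r) (Bq (fc r) k) ≤ LP.NF x (PP (4 * k) k) f0 := by
  refine NF_box_le2 (r := (r : ℤ)) (R := k + 1) (R' := 2 * k) hx (by omega) (by omega) fun v hv => ?_
  obtain ⟨h1, h2⟩ := mem_Bq.1 hv
  refine ⟨h1, ?_, ?_⟩
  · unfold Bx fc at h2
    simp only [Prod.fst_sub, Prod.snd_sub] at h2
    rw [abs_le, abs_le] at h2
    rw [abs_le]
    unfold ri
    push_cast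
    omega
  · unfold Bx fc at h2
    simp only [Prod.fst_sub, Prod.snd_sub] at h2
    rw [abs_le, abs_le] at h2
    rw [abs_le]
    unfold nn
    push_cast
    omega

/-- the label 1. -/
def Lab1 (r : ℕ) (E : Finset (Pt × Pt)) : Prop := ∑ q ∈ E, ((cr (fc r) q : ℤ) : ZMod 2) = 1

open Classical in
/-- the gas of the polygons with the label 1 and its recursion. -/
theorem gasLo {N : ℕ} (hN : 1 ≤ N) (r : ℕ) (y : ℝ) (A0 : Finset Pt) :
    GasLo A0 (((Cy N hN).polys A0).filter (Lab1 r)) VE (fun E => y * xc ^ E.card)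
      (fun A => GP (fun E => y * xc ^ E.card) (((Cy N hN).polys A).filter (Lab1 r))) := by
  refine ⟨?_, fun A hA v hv => ?_⟩
  · show GP _ (((Cy N hN).polys ∅).filter (Lab1 r)) ≤ 1
    rw [Nm.polys_empty, filter_empty, GP_empty]
  · show GP _ (((Cy N hN).polys A).filter (Lab1 r)) ≤ _
    rw [Nm.GP_vertex (C := Cy N hN) _ (Lab1 r) A v]
    refine add_le_add le_rfl (le_of_eq ?_)
    refine sum_congr ?_ fun _ _ => rfl
    ext E
    rw [mem_thru, mem_filter, mem_filter, mem_filter, Nm.mem_polys, Nm.mem_polys]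
    constructor
    · rintro ⟨⟨⟨h1, h2⟩, h3⟩, h4⟩
      exact ⟨⟨⟨h1, h2.trans hA⟩, h3⟩, h2, h4⟩
    · rintro ⟨⟨⟨h1, h2⟩, h3⟩, h4, h5⟩
      exact ⟨⟨⟨h1, h4⟩, h3⟩, h5⟩

open Classical in
/-- **The cylinder against two planar parallelograms.** -/
theorem ring_le : ∃ C : ℝ, 0 < C ∧ ∀ (k : ℕ), 1 ≤ k → ∀ (hN : 1 ≤ 4 * k) (A : Finset Pt),
    GP (fun E => (1 : ℝ) * xc ^ E.card) (((Cy (4 * k) hN).polys A).filter (Lab1 (2 * k))) ≤
      C * LP.NF (2 : ℝ) (PP (4 * k) k) f0 ^ 2 := by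
  obtain ⟨C, hC, hmid⟩ := mid_sum 2
  refine ⟨Real.exp C, Real.exp_pos _, ?_⟩
  intro k hk hN A
  set Q := ((Cy (4 * k) hN).polys A).filter (Lab1 (2 * k)) with hQ
  set M := Q.filter (fun E =>
    (¬ ∃ E', LP.IsPoly E' ∧ VE E' ⊆ Bq (fc 0) k ∧ Nw E' (fc 0) ≠ 0 ∧ E = imE (Cy (4 * k) hN) E') ∧
    (¬ ∃ E', LP.IsPoly E' ∧ VE E' ⊆ Bq (fc (2 * k)) k ∧ Nw E' (fc (2 * k)) ≠ 0 ∧ E = imE (Cy (4 * k) hN) E')) with hM
  have h1 := gas_le (Cy (4 * k) hN) (y := 1) zero_le_one (Fc_fc 0) (Fc_fc (2 * k))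
    (Bq_inj hN (f := fc 0) (s := k) (by omega)) (Bq_inj hN (f := fc (2 * k)) (s := k) (by omega)) A Q M
    (fun E hE => by
      by_cases c1 : ∃ E', LP.IsPoly E' ∧ VE E' ⊆ Bq (fc 0) k ∧ Nw E' (fc 0) ≠ 0 ∧ E = imE (Cy (4 * k) hN) E'
      · exact Or.inl c1
      · by_cases c2 : ∃ E', LP.IsPoly E' ∧ VE E' ⊆ Bq (fc (2 * k)) k ∧ Nw E' (fc (2 * k)) ≠ 0 ∧
            E = imE (Cy (4 * k) hN) E'
        · exact Or.inr (Or.inl c2)
        · exact Or.inr (Or.inr (mem_filter.2 ⟨hE, c1, c2⟩)))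
    (gasLo hN (2 * k) 1 A)
  have h2 : ∑ E ∈ M, xc ^ E.card ≤ C := by
    refine hmid (4 * k) hN (2 * k) k (Bq (fc 0) k) (Bq (fc (2 * k)) k) M (by omega) (by omega)
      (fun w hw hw2 => mem_Bq.2 ⟨hw, hw2⟩) (fun w hw hw2 => mem_Bq.2 ⟨hw, hw2⟩) fun E hE => ?_
    obtain ⟨h3, h4, h5⟩ := mem_filter.1 hE
    obtain ⟨h6, h7⟩ := mem_filter.1 h3
    refine ⟨(Nm.mem_polys'.1 h6).1, ?_, h4, h5⟩
    have h8 : ∑ q ∈ E, ((cr (fc (2 * k)) q : ℤ) : ZMod 2) = 1 := h7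
    rw [h8]
    decide
  have h3 := NF_Bq (x := 2) zero_le_two 0 k hk
  have h4 := NF_Bq (x := 2) zero_le_two (2 * k) k hk
  rw [div_self (two_ne_zero' ℝ)] at h3 h4
  have h5 : 0 ≤ NUN.NF xc 1 (fc (2 * k)) (Bq (fc (2 * k)) k) :=
    le_trans zero_le_one (one_le_NF' zero_le_one _ _)
  have h6 : (0 : ℝ) ≤ LP.NF (2 : ℝ) (PP (4 * k) k) f0 := le_trans zero_le_one (one_le_NF zero_le_two _ _)
  refine h1.trans ?_
  rw [mul_comm (Real.exp C), one_mul, sq]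
  exact mul_le_mul (mul_le_mul h3 h4 h5 h6) (Real.exp_le_exp.2 h2) (Real.exp_pos _).le (mul_nonneg h6 h6)

end Pool.Agent.NUF.Cyl
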