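import Pool.Agent.NUNC.Front
import Pool.Agent.NUN.Fin

/-!
# The rings of the network of the cylinder, sorted (W8b of zf/WIND)

The seams are eliminated: the network of the rings `-m, .., m - 1` is the product of the vertex operators of the
vertices and the contractions of the edges of the cylinder.
-/

set_option autoImplicit false

namespace Pool.Agent.NUNC

open Pool.Agent.EXL hiding cc
open Pool.Agent.EXL.Pat Pool.Agent.EXL.Net Pool.Agent.NUN HexObs HexObs.LP
open Pool.Agent.NUF.Cyl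

variable {K : Type*} [CommRing K] {N : ℕ}

/-! ### sorting of unlabelled factors -/

theorem sort0 (x : K) (L : List NUN.At) (hL : L.Pairwise NUN.Ok) :
    (L.map (op0 x)).prod = ((L.filterMap NUN.gv).map (Crv x)).prod *
      ((L.filterMap NUN.gc).map (fun h => (CoS (Net.ed h) : Op Lab K))).prod := by
  induction L with
  | nil => simp
  | cons a L ih =>
    rw [List.pairwise_cons] at hL
    obtain ⟨ha, hL'⟩ := hL
    have ih' := ih hL'
    rw [List.map_cons, List.prod_cons, ih']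
    set V := ((L.filterMap NUN.gv).map (Crv x : Pt → Op Lab K)).prod with hV
    set C := ((L.filterMap NUN.gc).map (fun h => (CoS (Net.ed h) : Op Lab K))).prod with hC
    cases a with
    | v p =>
      have f1 : (NUN.At.v p :: L).filterMap NUN.gv = p :: L.filterMap NUN.gv := rfl
      have f4 : (NUN.At.v p :: L).filterMap NUN.gc = L.filterMap NUN.gc := rfl
      rw [f1, f4, List.map_cons, List.prod_cons, ← hV, ← hC]
      simp only [op0, mul_assoc]
    | c h =>
      have c1 : Commute (CoS (Net.ed h) : Op Lab K) V := by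
        apply commute_list_map
        intro p hp
        exact Tot.com_cv x (ha _ (mem_gv.1 hp)).1 (ha _ (mem_gv.1 hp)).2
      have f1 : (NUN.At.c h :: L).filterMap NUN.gv = L.filterMap NUN.gv := rfl
      have f4 : (NUN.At.c h :: L).filterMap NUN.gc = h :: L.filterMap NUN.gc := rfl
      rw [f1, f4, List.map_cons, List.prod_cons, ← hV, ← hC]
      calc _ = (CoS (Net.ed h) * V) * C := by simp only [op0, mul_assoc]
        _ = _ := by
          rw [c1.eq]
          simp only [mul_assoc]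

/-! ### representatives -/

theorem nm_fix_iff {hN : 1 ≤ N} {v : Pt} : (Cy N hN).nm v = v ↔ 0 ≤ ri v ∧ ri v < N := by
  constructor
  · intro h
    rw [nm_eq, nmN] at h
    have h1 := congrArg Prod.fst h
    simp only [tr] at h1
    have h2 : (N : ℤ) * (ri v / N) = 0 := by omega
    have h3 : ri v / (N : ℤ) = 0 := by
      rcases mul_eq_zero.1 h2 with h3 | h3
      · omega
      · exact h3
    have h4 := Int.mul_ediv_add_emod (ri v) N
    rw [h3, mul_zero, zero_add] at h4
    rw [← h4]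
    exact ⟨Int.emod_nonneg _ (by omega), Int.emod_lt_of_pos _ (by omega)⟩
  · rintro ⟨h1, h2⟩
    exact nm_fix hN h1 h2

/-- the label is not a label of the cylinder. -/
def Bad (C : Nm) (a : Lab) : Prop := ∃ u d : Pt, C.nm u ≠ u ∧ a = hf (u, d)

theorem bad_lX (hN : 1 ≤ N) : Bad (Cy N hN) (lX 1) := by
  refine ⟨(0, 0), (((1 : ℕ) : ℤ) + 5, 0), ?_, rfl⟩
  rw [Ne, nm_fix_iff]
  unfold ri
  omega

theorem bad_lN (hN : 1 ≤ N) (k : ℤ) : Bad (Cy N hN) (lN k (-1)) := by
  refine ⟨_root_.EXL.B k (-1), (0, 1), ?_, rfl⟩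
  rw [Ne, nm_fix_iff, ri_B]
  omega

theorem bad_lS (hN : 1 ≤ N) (k : ℤ) : Bad (Cy N hN) (lS k N) := by
  refine ⟨_root_.EXL.A k N, (0, -1), ?_, rfl⟩
  rw [Ne, nm_fix_iff, ri_A]
  omega

theorem bad_zT (hN : 1 ≤ N) {m : ℕ} {a : Lab} (h : a ∈ zT m) : Bad (Cy N hN) a := by
  rcases mem_zT h with rfl | ⟨k, rfl⟩
  · exact bad_lX hN
  · exact bad_lN hN k

theorem Bad.comm_V {C : Nm} {a : Lab} (h : Bad C a) (x : K) {v : Pt} (hv : C.nm v = v) :
    Commute (PO a : Op Lab K) (Crv x v) := by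
  obtain ⟨u, d, h1, rfl⟩ := h
  exact PO_Crv_comm x (h := (u, d)) fun e => h1 (by
    have e' : u = v := e
    rw [e', hv])

theorem Bad.comm_H {C : Nm} {a : Lab} (h : Bad C a) {k : Pt × Pt} (hk : C.nm k.1 = k.1) :
    Commute (PO a : Op Lab K) (CoS (C.ed k)) := by
  obtain ⟨u, d, h1, rfl⟩ := h
  rw [Nm.CoS_ed]
  refine PO_Co_comm ?_ ?_
  · rw [Ne, Sum.inl.injEq]
    intro e
    have e' : u = k.1 := congrArg Prod.fst e
    exact h1 (by rw [e', hk])
  · rw [Ne, Sum.inl.injEq]
    intro e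
    have e' : u = C.nb k := congrArg Prod.fst e
    exact h1 (by rw [e', Nm.nm_nb])

/-! ### the rings of the left part -/

/-- the vertices of a ring. -/
def VLl (N : ℕ) (k : ℤ) : List Pt :=
  (List.range N).reverse.flatMap (fun i : ℕ => [_root_.EXL.B k i, _root_.EXL.A k i])

/-- the half edges of the contractions of a ring. -/
def HLl (N : ℕ) (k : ℤ) : List (Pt × Pt) :=
  (List.range N).reverse.flatMap (fun i : ℕ => [(_root_.EXL.B k i, (0, 1)), (_root_.EXL.A k i, (-1, 1)),
    (_root_.EXL.B k i, (-1, 0))])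

theorem mem_VLl {k : ℤ} {v : Pt} : v ∈ VLl N k ↔
    ∃ i : ℕ, i < N ∧ (v = _root_.EXL.B k i ∨ v = _root_.EXL.A k i) := by
  unfold VLl
  simp [List.mem_flatMap]

theorem mem_HLl {k : ℤ} {h : Pt × Pt} : h ∈ HLl N k ↔
    ∃ i : ℕ, i < N ∧ (h = (_root_.EXL.B k i, (0, 1)) ∨ h = (_root_.EXL.A k i, (-1, 1)) ∨
    h = (_root_.EXL.B k i, (-1, 0))) := by
  unfold HLl
  simp [List.mem_flatMap]

theorem lrows_sort (x : K) (N : ℕ) (k : ℤ) :
    ((List.range N).reverse.map (fun i : ℕ => lRho x k (i : ℤ))).prod =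
    ((VLl N k).map (Crv x)).prod * ((HLl N k).map (fun h => (CoS (Net.ed h) : Op Lab K))).prod := by
  set L : List NUN.At := (List.range N).reverse.flatMap (fun i : ℕ => lcell k i) with hL
  have h1 : (L.map (op0 x)).prod = ((List.range N).reverse.map (fun i : ℕ => lRho x k (i : ℤ))).prod := by
    rw [hL, Tot.prod_flat]
    simp only [prod_lcell]
  have h2 : L.Pairwise NUN.Ok := by
    rw [hL, List.pairwise_flatMap]
    refine ⟨fun i _ => ok_lcell k i, ?_⟩
    rw [List.pairwise_reverse]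
    exact List.pairwise_lt_range.imp fun {a b} hab x hx y hy => ok_lcells (by exact_mod_cast hab) hx hy
  have h3 : L.filterMap NUN.gv = VLl N k := by
    rw [hL, List.filterMap_flatMap]
    rfl
  have h4 : L.filterMap NUN.gc = HLl N k := by
    rw [hL, List.filterMap_flatMap]
    rfl
  rw [← h1, sort0 x L h2, h3, h4]

theorem HLl_cons {N : ℕ} (hN : 1 ≤ N) (k : ℤ) : ∃ HR : List (Pt × Pt),
    HLl N k = (_root_.EXL.B k ((N : ℤ) - 1), (0, 1)) :: HR ∧
    ∀ h ∈ HR, (∃ i : ℤ, 0 ≤ i ∧ i < (N : ℤ) - 1 ∧ h = (_root_.EXL.B k i, (0, 1))) ∨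
      ∃ i : ℤ, 0 ≤ i ∧ i < N ∧ (h = (_root_.EXL.A k i, (-1, 1)) ∨ h = (_root_.EXL.B k i, (-1, 0))) := by
  obtain ⟨M, rfl⟩ : ∃ M, N = M + 1 := ⟨N - 1, by omega⟩
  refine ⟨(_root_.EXL.A k M, (-1, 1)) :: (_root_.EXL.B k M, (-1, 0)) :: HLl M k, ?_, ?_⟩
  · unfold HLl
    rw [List.range_succ, List.reverse_append, List.flatMap_append]
    have : ((M + 1 : ℕ) : ℤ) - 1 = M := by push_cast; ring
    rw [this]
    rfl
  · intro h hh
    simp only [List.mem_cons] at hh
    rcases hh with rfl | rfl | hh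
    · exact Or.inr ⟨M, by positivity, by push_cast; omega, Or.inl rfl⟩
    · exact Or.inr ⟨M, by positivity, by push_cast; omega, Or.inr rfl⟩
    · rw [mem_HLl] at hh
      obtain ⟨i, hi, rfl | rfl | rfl⟩ := hh
      · exact Or.inl ⟨i, by positivity, by push_cast; omega, rfl⟩
      · exact Or.inr ⟨i, by positivity, by push_cast; omega, Or.inl rfl⟩
      · exact Or.inr ⟨i, by positivity, by push_cast; omega, Or.inr rfl⟩

theorem ed_seam_l {N : ℕ} (hN : 1 ≤ N) (k : ℤ) :
    (Cy N hN).ed (_root_.EXL.B k ((N : ℤ) - 1), (0, 1)) = s(lN k ((N : ℤ) - 1), lS k 0) := by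
  unfold Nm.ed Nm.rv Nm.nb
  simp only [_root_.EXL.B_up, sub_add_cancel]
  rw [nm_A_top hN]
  rfl

theorem ed_plane_l {N : ℕ} (hN : 1 ≤ N) {k : ℤ} {h : Pt × Pt}
    (hh : (∃ i : ℤ, 0 ≤ i ∧ i < (N : ℤ) - 1 ∧ h = (_root_.EXL.B k i, (0, 1))) ∨
      ∃ i : ℤ, 0 ≤ i ∧ i < N ∧ (h = (_root_.EXL.A k i, (-1, 1)) ∨ h = (_root_.EXL.B k i, (-1, 0)))) :
    (Cy N hN).ed h = Net.ed h := by
  have e : ∀ h : Pt × Pt, (Cy N hN).nb h = h.1 + h.2 → (Cy N hN).ed h = Net.ed h := by
    intro h h1
    unfold Nm.ed Net.ed Nm.rv rv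
    rw [h1]
  rcases hh with ⟨i, h1, h2, rfl⟩ | ⟨i, h1, h2, rfl | rfl⟩
  · apply e
    unfold Nm.nb
    simp only [_root_.EXL.B_up]
    exact nm_A hN _ (by omega) (by omega)
  · apply e
    rw [nb_A_W hN _ h1 h2, _root_.EXL.A_left]
  · apply e
    unfold Nm.nb
    simp only [_root_.EXL.B_left]
    exact nm_A hN _ h1 h2

/-- the sorted form of a ring of the left part. -/
theorem lRing_sort (x : K) {N : ℕ} (hN : 1 ≤ N) (k : ℤ) : lRing x N k =
    ((VLl N k).map (Crv x)).prod * (PO (lX 1) * PO (lS k N)) *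
      ((HLl N k).map (fun h => (CoS ((Cy N hN).ed h) : Op Lab K))).prod := by
  obtain ⟨HR, h1, h2⟩ := HLl_cons hN k
  unfold lRing
  rw [lrows_sort, h1, List.map_cons, List.prod_cons, List.map_cons, List.prod_cons]
  have e1 : (HR.map (fun h => (CoS ((Cy N hN).ed h) : Op Lab K))) = HR.map (fun h => CoS (Net.ed h)) :=
    List.map_congr_left (fun h hh => by rw [ed_plane_l hN (h2 h hh)])
  rw [e1, ed_seam_l hN]
  set V := ((VLl N k).map (Crv x)).prod with hV
  set H := (HR.map (fun h => (CoS (Net.ed h) : Op Lab K))).prod with hH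
  have e2 : (CoS (Net.ed (_root_.EXL.B k ((N : ℤ) - 1), (0, 1))) : Op Lab K) =
      Co (lS k N) (lN k ((N : ℤ) - 1)) := by
    rw [ed_up, sub_add_cancel]
    rfl
  have c1 : Commute (UO (lX 1) (lS k N) : Op Lab K) V := by
    apply commute_list_map
    intro v hv
    rw [mem_VLl] at hv
    obtain ⟨i, hi, rfl | rfl⟩ := hv
    · exact UO_Crv_comm x (B_ne_zero _ (by positivity)) (A_ne_B _ _ _ _)
    · refine UO_Crv_comm x (A_ne_zero _ _) ?_
      show _root_.EXL.A k N ≠ _root_.EXL.A k i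
      rw [Ne, A_inj]
      omega
  have c2 : Commute (Co (lX 1) (lS k 0) : Op Lab K) H := by
    apply commute_list_map
    intro h hh
    rcases h2 h hh with ⟨i, h3, h4, rfl⟩ | ⟨i, h3, h4, rfl | rfl⟩
    · rw [ed_up, Tot.CoS_mk]
      exact Co_comm (by simp) (by simp) (by simp; omega) (by simp)
    · rw [ed_W', Tot.CoS_mk]
      exact Co_comm (by simp) (by simp) (by simp) (by simp)
    · rw [ed_left, Tot.CoS_mk]
      exact Co_comm (by simp) (by simp) (by simp) (by simp)
  have e3 := seam (K := K) (z := lX 1) (s := lS k N) (a := lN k ((N : ℤ) - 1)) (n := lS k 0) (by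
    simp
    omega)
  rw [e2]
  have e4 : (CoS s(lN k ((N : ℤ) - 1), lS k 0) : Op Lab K) = Co (lN k ((N : ℤ) - 1)) (lS k 0) := rfl
  rw [e4]
  calc _ = (UO (lX 1) (lS k N) * V) * (Co (lS k N) (lN k ((N : ℤ) - 1)) * (H * Co (lX 1) (lS k 0))) := by
        simp only [mul_assoc]
    _ = V * (UO (lX 1) (lS k N) * Co (lS k N) (lN k ((N : ℤ) - 1)) * Co (lX 1) (lS k 0)) * H := by
        rw [c1.eq, ← c2.eq]
        simp only [mul_assoc]
    _ = _ := by
        rw [e3]
        simp only [mul_assoc]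

/-! ### all rings -/

theorem rRing_colR (x : K) (N : ℕ) (k : ℤ) : rRing x N k = colR x N k := by
  unfold rRing colR rowsOp
  rw [Tot.fin_range N (fun i : ℕ => Rho x k (i : ℤ))]

theorem rTot_totR (x : K) (N m : ℕ) : rTot x N m = totR x N m := by
  induction m with
  | zero => rfl
  | succ m ih =>
    show rRing x N m * rTot x N m = colR x N m * totR x N m
    rw [ih, rRing_colR]

def VTl (N : ℕ) : ℕ → List Pt
  | 0 => []
  | m + 1 => VLl N (-(m : ℤ) - 1) ++ VTl N m

def HTl (N : ℕ) : ℕ → List (Pt × Pt)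
  | 0 => []
  | m + 1 => HLl N (-(m : ℤ) - 1) ++ HTl N m

def zTl (N : ℕ) : ℕ → List Lab
  | 0 => []
  | m + 1 => lX 1 :: lS (-(m : ℤ) - 1) N :: zTl N m

theorem mem_VTl {m : ℕ} {v : Pt} : v ∈ VTl N m ↔
    ∃ k : ℕ, k < m ∧ ∃ i : ℕ, i < N ∧ (v = _root_.EXL.B (-(k : ℤ) - 1) i ∨ v = _root_.EXL.A (-(k : ℤ) - 1) i) := by
  induction m with
  | zero => simp [VTl]
  | succ m ih =>
    show v ∈ VLl N _ ++ VTl N m ↔ _
    rw [List.mem_append, ih, mem_VLl]
    constructor
    · rintro (⟨i, hi, h⟩ | ⟨k, hk, h⟩)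
      · exact ⟨m, by omega, i, hi, h⟩
      · exact ⟨k, by omega, h⟩
    · rintro ⟨k, hk, h⟩
      by_cases c : k = m
      · subst c
        exact Or.inl h
      · exact Or.inr ⟨k, by omega, h⟩

theorem mem_HTl {m : ℕ} {h : Pt × Pt} : h ∈ HTl N m ↔
    ∃ k : ℕ, k < m ∧ h ∈ HLl N (-(k : ℤ) - 1) := by
  induction m with
  | zero => simp [HTl]
  | succ m ih =>
    show h ∈ HLl N _ ++ HTl N m ↔ _
    rw [List.mem_append, ih]
    constructor
    · rintro (h | ⟨k, hk, h⟩)
      · exact ⟨m, by omega, h⟩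
      · exact ⟨k, by omega, h⟩
    · rintro ⟨k, hk, h⟩
      by_cases c : k = m
      · subst c
        exact Or.inl h
      · exact Or.inr ⟨k, by omega, h⟩

theorem bad_zTl (hN : 1 ≤ N) {m : ℕ} {a : Lab} (h : a ∈ zTl N m) : Bad (Cy N hN) a := by
  induction m with
  | zero => simp [zTl] at h
  | succ m ih =>
    have h' : a = lX 1 ∨ a = lS (-(m : ℤ) - 1) N ∨ a ∈ zTl N m := by simpa [zTl] using h
    rcases h' with rfl | rfl | h'
    · exact bad_lX hN
    · exact bad_lS hN _
    · exact ih h'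

theorem nm_VLl (hN : 1 ≤ N) {k : ℤ} {v : Pt} (h : v ∈ VLl N k) : (Cy N hN).nm v = v := by
  rw [mem_VLl] at h
  obtain ⟨i, hi, rfl | rfl⟩ := h
  · exact nm_B hN _ (by positivity) (by exact_mod_cast hi)
  · exact nm_A hN _ (by positivity) (by exact_mod_cast hi)

theorem nm_VTl (hN : 1 ≤ N) {m : ℕ} {v : Pt} (h : v ∈ VTl N m) : (Cy N hN).nm v = v := by
  rw [mem_VTl] at h
  obtain ⟨k, -, i, hi, rfl | rfl⟩ := h
  · exact nm_B hN _ (by positivity) (by exact_mod_cast hi)
  · exact nm_A hN _ (by positivity) (by exact_mod_cast hi)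

theorem nm_VT (hN : 1 ≤ N) {m : ℕ} {v : Pt} (h : v ∈ VT N m) : (Cy N hN).nm v = v := by
  rw [mem_VT] at h
  obtain ⟨k, -, i, hi, rfl | rfl⟩ := h
  · exact nm_A hN _ (by positivity) (by exact_mod_cast hi)
  · exact nm_B hN _ (by positivity) (by exact_mod_cast hi)

theorem nm_HLl (hN : 1 ≤ N) {k : ℤ} {h : Pt × Pt} (hh : h ∈ HLl N k) : (Cy N hN).nm h.1 = h.1 := by
  rw [mem_HLl] at hh
  obtain ⟨i, hi, rfl | rfl | rfl⟩ := hh
  · exact nm_B hN _ (by positivity) (by exact_mod_cast hi)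
  · exact nm_A hN _ (by positivity) (by exact_mod_cast hi)
  · exact nm_B hN _ (by positivity) (by exact_mod_cast hi)

theorem nm_HTl (hN : 1 ≤ N) {m : ℕ} {h : Pt × Pt} (hh : h ∈ HTl N m) : (Cy N hN).nm h.1 = h.1 := by
  rw [mem_HTl] at hh
  obtain ⟨k, -, hh⟩ := hh
  exact nm_HLl hN hh

theorem nm_HT (hN : 1 ≤ N) {m : ℕ} {h : Pt × Pt} (hh : h ∈ HT N m) : (Cy N hN).nm h.1 = h.1 := by
  rw [mem_HT] at hh
  obtain ⟨k, -, i, hi, rfl | rfl | rfl⟩ := hh
  · exact nm_A hN _ (by positivity) (by exact_mod_cast hi)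
  · exact nm_A hN _ (by positivity) (by exact_mod_cast hi)
  · exact nm_A hN _ (by positivity) (by exact_mod_cast hi)

/-- the rings (first coordinate) of the ends of the contractions of a ring of the left part. -/
theorem HLl_ends (hN : 1 ≤ N) {k : ℤ} {h : Pt × Pt} (hh : h ∈ HLl N k) :
    (∃ i : ℤ, h.1 = _root_.EXL.A k i ∨ h.1 = _root_.EXL.B k i) ∧
    ∃ i : ℤ, (Cy N hN).nb h = _root_.EXL.A k i ∨ (Cy N hN).nb h = _root_.EXL.B (k - 1) i := by
  rw [mem_HLl] at hh
  obtain ⟨i, hi, rfl | rfl | rfl⟩ := hh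
  · refine ⟨⟨i, Or.inr rfl⟩, ?_⟩
    by_cases c : i + 1 = N
    · refine ⟨0, Or.inl ?_⟩
      unfold Nm.nb
      simp only [_root_.EXL.B_up]
      have : (i : ℤ) + 1 = N := by exact_mod_cast c
      rw [this]
      exact nm_A_top hN k
    · refine ⟨(i : ℤ) + 1, Or.inl ?_⟩
      unfold Nm.nb
      simp only [_root_.EXL.B_up]
      exact nm_A hN _ (by positivity) (by omega)
  · exact ⟨⟨i, Or.inl rfl⟩, i, Or.inr (nb_A_W hN _ (by positivity) (by exact_mod_cast hi))⟩
  · refine ⟨⟨i, Or.inr rfl⟩, i, Or.inl ?_⟩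
    unfold Nm.nb
    simp only [_root_.EXL.B_left]
    exact nm_A hN _ (by positivity) (by exact_mod_cast hi)

/-- the sorted form of the left part. -/
theorem lTot_sort (x : K) {N : ℕ} (hN : 1 ≤ N) (m : ℕ) : lTot x N m =
    PL K (zTl N m) * ((VTl N m).map (Crv x)).prod *
      ((HTl N m).map (fun h => (CoS ((Cy N hN).ed h) : Op Lab K))).prod := by
  induction m with
  | zero => simp [lTot, zTl, VTl, HTl, PL_nil]
  | succ m ih =>
    set k : ℤ := -(m : ℤ) - 1 with hk
    show lRing x N k * lTot x N m = PL K (lX 1 :: lS k N :: zTl N m) *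
      ((VLl N k ++ VTl N m).map (Crv x)).prod *
      ((HLl N k ++ HTl N m).map (fun h => (CoS ((Cy N hN).ed h) : Op Lab K))).prod
    rw [ih, lRing_sort x hN, PL_cons, PL_cons, List.map_append, List.prod_append, List.map_append,
      List.prod_append]
    set V := ((VLl N k).map (Crv x)).prod with hV
    set H := ((HLl N k).map (fun h => (CoS ((Cy N hN).ed h) : Op Lab K))).prod with hH
    set VV := ((VTl N m).map (Crv x)).prod with hVV
    set HH := ((HTl N m).map (fun h => (CoS ((Cy N hN).ed h) : Op Lab K))).prod with hHH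
    set P := PL K (zTl N m) with hP
    set z : Op Lab K := PO (lX 1) with hz
    set s : Op Lab K := PO (lS k N) with hs
    have c1 : Commute P V := PL_comm (fun a ha => commute_list_map (fun v hv =>
      (bad_zTl hN ha).comm_V x (nm_VLl hN hv)))
    have c2 : Commute P H := PL_comm (fun a ha => commute_list_map (fun h hh =>
      (bad_zTl hN ha).comm_H (nm_HLl hN hh)))
    have c3 : Commute z V := commute_list_map (fun v hv => (bad_lX hN).comm_V x (nm_VLl hN hv))
    have c4 : Commute s V := commute_list_map (fun v hv => (bad_lS hN k).comm_V x (nm_VLl hN hv))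
    have c5 : Commute H VV := by
      apply Commute.symm
      rw [hH]
      apply commute_list_map
      intro h hh
      apply Commute.symm
      rw [hVV]
      apply commute_list_map
      intro v hv
      obtain ⟨⟨i, h1⟩, i', h2⟩ := HLl_ends hN hh
      rw [mem_VTl] at hv
      obtain ⟨k'', hk'', i'', hi'', hv⟩ := hv
      apply Nm.CoS_Crv_comm x
      · rcases h1 with h1 | h1 <;> rw [h1] <;> rcases hv with rfl | rfl
        · exact A_ne_B _ _ _ _
        · rw [Ne, A_inj]
          omega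
        · rw [Ne, B_inj]
          omega
        · exact fun e => A_ne_B _ _ _ _ e.symm
      · rcases h2 with h2 | h2 <;> rw [h2] <;> rcases hv with rfl | rfl
        · exact A_ne_B _ _ _ _
        · rw [Ne, A_inj]
          omega
        · rw [Ne, B_inj]
          omega
        · exact fun e => A_ne_B _ _ _ _ e.symm
    calc _ = V * ((z * s) * (H * P) * VV * HH) := by simp only [mul_assoc]
      _ = V * ((z * s) * P) * (H * VV) * HH := by
        rw [← c2.eq]
        simp only [mul_assoc]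
      _ = _ := by
        rw [c5.eq, ← (((c3.mul_left c4).mul_left c1).eq)]
        simp only [mul_assoc]

/-- **The network of all rings, sorted, at the empty state.** -/
theorem tot_sort (x : K) {N : ℕ} (hN : 1 ≤ N) (m : ℕ) (G : Pat Lab → K) :
    (rTot x N m * lTot x N m) G Pat.empty =
      (((VT N m ++ VTl N m).map (Crv x)).prod *
        ((HT N m ++ HTl N m).map (fun h => (CoS ((Cy N hN).ed h) : Op Lab K))).prod) G Pat.empty := by
  rw [rTot_totR, totR_eq x hN, lTot_sort x hN, List.map_append, List.prod_append, List.map_append,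
    List.prod_append]
  set V := ((VT N m).map (Crv x)).prod with hV
  set H := ((HT N m).map (fun h => (CoS ((Cy N hN).ed h) : Op Lab K))).prod with hH
  set VV := ((VTl N m).map (Crv x)).prod with hVV
  set HH := ((HTl N m).map (fun h => (CoS ((Cy N hN).ed h) : Op Lab K))).prod with hHH
  set P := PL K (zT m) with hP
  set PP := PL K (zTl N m) with hPP
  have c1 : Commute PP V := PL_comm (fun a ha => commute_list_map (fun v hv =>
    (bad_zTl hN ha).comm_V x (nm_VT hN hv)))
  have c2 : Commute PP H := PL_comm (fun a ha => commute_list_map (fun h hh =>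
    (bad_zTl hN ha).comm_H (nm_HT hN hh)))
  have c5 : Commute H VV := by
    apply Commute.symm
    rw [hH]
    apply commute_list_map
    intro h hh
    apply Commute.symm
    rw [hVV]
    apply commute_list_map
    intro v hv
    rw [mem_HT] at hh
    obtain ⟨k, hk, i, hi, hh⟩ := hh
    have hh' : h ∈ HLc N k := mem_HLc.2 ⟨i, hi, hh⟩
    obtain ⟨⟨k', i', hk', -, -, h1⟩, i'', -, -, h2⟩ := HLc_ends hN hh'
    rw [mem_VTl] at hv
    obtain ⟨k'', hk'', j, hj, hv⟩ := hv
    apply Nm.CoS_Crv_comm x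
    · rw [h1]
      rcases hv with rfl | rfl
      · exact A_ne_B _ _ _ _
      · rw [Ne, A_inj]
        omega
    · rw [h2]
      rcases hv with rfl | rfl
      · rw [Ne, B_inj]
        omega
      · exact fun e => A_ne_B _ _ _ _ e.symm
  have e : P * V * H * (PP * VV * HH) = P * (PP * ((V * VV) * (H * HH))) := by
    calc _ = P * (V * (H * PP) * VV * HH) := by simp only [mul_assoc]
      _ = P * ((V * PP) * (H * VV) * HH) := by
        rw [← c2.eq]
        simp only [mul_assoc]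
      _ = _ := by
        rw [← c1.eq, c5.eq]
        simp only [mul_assoc]
  rw [e, Module.End.mul_apply, hP, PL_apply _ _ _ (fun _ _ => rfl), Module.End.mul_apply, hPP,
    PL_apply _ _ _ (fun _ _ => rfl)]

end Pool.Agent.NUNC
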