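import Pool.Agent.NUNC.Lists
import Pool.Agent.NUG.ZDun

/-!
# The iterated rings are the labelled network of the cylinder (W8b of zf/WIND)
-/

set_option autoImplicit false

namespace Pool.Agent.NUNC

open Pool.Agent.EXL hiding cc
open Pool.Agent.EXL.Net Pool.Agent.NUN HexObs HexObs.LP
open Pool.Agent.NUF Pool.Agent.NUF.LPat Pool.Agent.NUF.Cyl

variable {N : ℕ}

/-- the label mod 2 of a half edge with normalised first vertex: crossings of the line below the face `fc r`. -/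
noncomputable def labC (r : ℕ) (h : Pt × Pt) : ZMod 2 := ((cr (fc r) h : ℤ) : ZMod 2)

/-- the labelled contraction. -/
noncomputable def cop (n' : ℂ) (hN : 1 ≤ N) (r : ℕ) (h : Pt × Pt) : LOp (ZMod 2) ℂ :=
  lCo (nu2 n') (labC r h) (hf h) (hf ((Cy N hN).rv h))

theorem lab0 {r m : ℕ} {h : Pt × Pt} (hh : h ∈ HT N m ++ HTl N m) : labC r h = 0 := by
  have a1 : ((0, -1) : Pt) ≠ (1, -1) ∧ ((0, -1) : Pt) ≠ (-1, 1) := by decide
  have a2 : ((1, 0) : Pt) ≠ (1, -1) ∧ ((1, 0) : Pt) ≠ (-1, 1) := by decide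
  have a3 : ((0, 1) : Pt) ≠ (1, -1) ∧ ((0, 1) : Pt) ≠ (-1, 1) := by decide
  have a4 : ((-1, 0) : Pt) ≠ (1, -1) ∧ ((-1, 0) : Pt) ≠ (-1, 1) := by decide
  have key : cr (fc r) h = 0 := by
    rcases List.mem_append.1 hh with hh | hh
    · rw [mem_HT] at hh
      obtain ⟨k, hk, i, hi, rfl | rfl | rfl⟩ := hh
      · exact cr_o _ a1.1 a1.2
      · rw [cr_A, if_neg (by omega)]
      · exact cr_o _ a2.1 a2.2
    · rw [mem_HTl] at hh
      obtain ⟨k, hk, hh⟩ := hh
      rw [mem_HLl] at hh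
      obtain ⟨i, hi, rfl | rfl | rfl⟩ := hh
      · exact cr_o _ a3.1 a3.2
      · rw [cr_A, if_neg (by omega)]
      · exact cr_o _ a4.1 a4.2
  unfold labC
  rw [key]
  rfl

theorem V_ofP (x : ℂ) (l : List Pt) (F : LPat (ZMod 2) Lab → ℂ) (p : EXL.Pat Lab) :
    (l.map (lCrv (ZMod 2) x)).prod F (ofP (ZMod 2) p) =
      (l.map (Crv x)).prod (fun q => F (ofP (ZMod 2) q)) p := by
  induction l generalizing p with
  | nil => rfl
  | cons a l ih =>
    rw [List.map_cons, List.prod_cons, List.map_cons, List.prod_cons, Module.End.mul_apply,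
      Module.End.mul_apply]
    have h1 : lCrv (ZMod 2) x a ((l.map (lCrv (ZMod 2) x)).prod F) (ofP (ZMod 2) p) =
        Crv x a (fun q => (l.map (lCrv (ZMod 2) x)).prod F (ofP (ZMod 2) q)) p := by
      unfold lCrv Crv
      exact lCr_ofP x _ _ _ _ p
    rw [h1]
    exact congrFun (congrArg (Crv x a) (funext ih)) p

theorem H_ofP (n' : ℂ) (hN : 1 ≤ N) (r : ℕ) (l : List (Pt × Pt))
    (hl : ∀ h ∈ l, labC r h = 0 ∧ (Cy N hN).De h) (F : LPat (ZMod 2) Lab → ℂ) (p : EXL.Pat Lab) :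
    (l.map (cop n' hN r)).prod F (ofP (ZMod 2) p) =
      (l.map (fun h => (CoS ((Cy N hN).ed h) : Op Lab ℂ))).prod (fun q => F (ofP (ZMod 2) q)) p := by
  induction l generalizing p with
  | nil => rfl
  | cons a l ih =>
    rw [List.map_cons, List.prod_cons, List.map_cons, List.prod_cons, Module.End.mul_apply,
      Module.End.mul_apply]
    obtain ⟨h1, h2⟩ := hl a (by simp)
    have h3 : cop n' hN r a ((l.map (cop n' hN r)).prod F) (ofP (ZMod 2) p) =
        CoS ((Cy N hN).ed a) (fun q => (l.map (cop n' hN r)).prod F (ofP (ZMod 2) q)) p := by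
      unfold cop
      rw [h1, Nm.CoS_ed]
      refine lCo_ofP (nu2_zero n') ?_ _ p
      intro e
      exact Nm.rv_ne h2 (Sum.inl_injective e)
    rw [h3]
    exact congrFun (congrArg (CoS ((Cy N hN).ed a)) (funext (ih fun h hh => hl h (by simp [hh])))) p

/-- the glueing. -/
theorem glu_ofP' (n' : ℂ) (hN : 1 ≤ N) (r : ℕ) (q : EXL.Pat (NUF.St N)) :
    ((HLeft N).map (cop n' hN r)).prod (dl (ZMod 2) Lab)
        (ofP (ZMod 2) (Fr (fun _ => 0) (fun _ => -1) false 0 0 q)) =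
      Tw (chi (La N r)) (gm (nu2 n') (La N r ++ Lb' N r)) (ofP (ZMod 2) q) := by
  set κ := fr N (fun _ => 0) (fun _ => -1) false 0 0 with hκ
  have e1 : (HLeft N).map (cop n' hN r) = (La N r ++ Lb' N r).map fun t =>
      lCo (nu2 n') (chi (La N r) t.2 - chi (La N r) t.1) (κ t.1) (κ t.2) := by
    rw [La_Lb, List.map_map]
    unfold HLeft
    rw [List.map_map, ← Tot.fin_range N]
    refine List.map_congr_left fun i _ => ?_
    show cop n' hN r (_root_.EXL.A 0 ((i : ℕ) : ℤ), (-1, 1)) =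
      lCo (nu2 n') (chi (La N r) (lk i).2 - chi (La N r) (lk i).1) (κ (lk i).1) (κ (lk i).2)
    rw [chi_La]
    unfold cop
    have e2 : labC r (_root_.EXL.A 0 ((i : ℕ) : ℤ), (-1, 1)) =
        if (i : ℕ) < r then 1 else 0 := by
      unfold labC
      rw [cr_A]
      by_cases c : (i : ℕ) < r
      · rw [if_pos c, if_pos ⟨rfl, by exact_mod_cast c⟩]
        decide
      · rw [if_neg c, if_neg (fun h => c (by exact_mod_cast h.2))]
        rfl
    have e3 : (hf ((Cy N hN).rv (_root_.EXL.A 0 ((i : ℕ) : ℤ), (-1, 1))) : Lab) =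
        EXL.Net.lE (-1) ((i : ℕ) : ℤ) := by
      unfold Nm.rv EXL.Net.lE
      rw [nb_A_W hN _ (by positivity) (by exact_mod_cast i.2)]
      rfl
    rw [e2, e3]
    rfl
  have e4 : Tw (chi (La N r)) (gm (nu2 n') (La N r ++ Lb' N r)) =
      ((La N r ++ Lb' N r).map fun t => lCo (nu2 n') (chi (La N r) t.2 - chi (La N r) t.1) t.1
        t.2).prod (dl (ZMod 2) (NUF.St N)) := by
    refine lG_gm (nu2 n') (chi (La N r)) ?_
    intro t ht
    rw [La_Lb] at ht
    obtain ⟨i, -, rfl⟩ := List.mem_map.1 ht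
    simp [lk]
  rw [e1, e4]
  unfold Fr
  rw [lftL_ofP]
  exact prod_lftL _ (nu2 n') _ _ _

/-- **The iterated rings are the labelled network of the cylinder.** -/
theorem term_list (n' : ℂ) (hN : 1 ≤ N) (r m : ℕ) :
    (NUG.ringC cc dd ((La N r ++ Lb' N r).map Prod.fst))^[m]
      ((NUG.ringC cc dd ((La N r ++ Lb' N r).map Prod.snd).reverse)^[m]
        (fun p => Tw (chi (La N r)) (gm (nu2 n') (La N r ++ Lb' N r)) (ofP (ZMod 2) p)))
        EXL.Pat.empty =
      (((VA N m).map (lCrv (ZMod 2) (xc : ℂ))).prod * ((HA N m).map (cop n' hN r)).prod)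
        (dl (ZMod 2) Lab) LPat.empty := by
  set F := ((HLeft N).map (cop n' hN r)).prod (dl (ZMod 2) Lab) with hF
  have t := tot_eq (xc : ℂ) N m (fun p => F (ofP (ZMod 2) p))
  have e1 : (fun q : EXL.Pat (NUF.St N) => (fun p => F (ofP (ZMod 2) p))
      (Fr (fun _ => 0) (fun _ => -1) false 0 0 q)) =
      fun p => Tw (chi (La N r)) (gm (nu2 n') (La N r ++ Lb' N r)) (ofP (ZMod 2) p) :=
    funext fun q => glu_ofP' n' hN r q
  rw [e1] at t
  have e2 : (La N r ++ Lb' N r).map Prod.fst = (List.finRange N).map Xr := by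
    rw [La_Lb, List.map_map]
    rfl
  have e3 : (La N r ++ Lb' N r).map Prod.snd = (List.finRange N).map Xl := by
    rw [La_Lb, List.map_map]
    rfl
  rw [e2, e3]
  refine t.symm.trans ?_
  rw [tot_sort _ hN, Module.End.mul_apply]
  have e4 : ((HT N m ++ HTl N m).map (fun h => (CoS ((Cy N hN).ed h) : Op Lab ℂ))).prod
      (fun p => F (ofP (ZMod 2) p)) =
      fun p => ((HT N m ++ HTl N m).map (cop n' hN r)).prod F (ofP (ZMod 2) p) := by
    funext p
    refine (H_ofP n' hN r _ (fun h hh => ⟨lab0 hh, De_HA (m := m) hN ?_⟩) F p).symm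
    unfold HA
    exact List.mem_append.2 (Or.inl hh)
  rw [e4]
  have e5 := V_ofP (xc : ℂ) (VA N m) (((HT N m ++ HTl N m).map (cop n' hN r)).prod F) EXL.Pat.empty
  refine e5.symm.trans ?_
  have e6 : ((HA N m).map (cop n' hN r)).prod =
      ((HT N m ++ HTl N m).map (cop n' hN r)).prod * ((HLeft N).map (cop n' hN r)).prod := by
    rw [← List.prod_append, ← List.map_append]
    rfl
  rw [ofP_empty, hF, e6]
  rfl

end Pool.Agent.NUNC
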